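import Pool.Agent.Zk27.MB.Cut
import Pool.Agent.Zk71.MB.Uniq

/-! # The Euler equations as a special case, and the operators of class `IsSmall` -/

open MeasureTheory Set
open scoped ContDiff Topology

namespace Pool.Agent.Zk27.MB

open Pool.Agent.H708R2.EulerSign

/-- An operator of class `IsSmall` satisfies what is needed for uniqueness. -/
theorem isOp_of_isSmall {M : ℕ} (hM : 1 ≤ M) {ε δ : ℝ} (hε : 0 ≤ ε) {T : (V → V) → V → V}
    (h : IsSmall M ε δ T) : ∃ C, IsOp T C := by
  have _ := hε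
  refine ⟨ε, ?_, ?_, h.l2, ?_, h.div⟩
  · intro u hu hp
    obtain ⟨B, -, hB⟩ := hp.bounded hu
    have h1 := h.ck 0 (Nat.zero_le M) u B (contDiff_zero.2 hu) hp
      (fun x => by rw [norm_iteratedFDeriv_zero]; exact hB x)
    exact ⟨h1.1.continuous, h.per u hu hp⟩
  · intro u w hu hpu hw hpw
    have hw' : Continuous (fun x => (-1 : ℝ) • w x) := by fun_prop
    have hpw' : Periodic3 (fun x => (-1 : ℝ) • w x) := by
      intro i x
      simp only
      rw [hpw i x]
    have h1 := h.add u (fun x => (-1 : ℝ) • w x) hu hpu hw' hpw'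
    rw [h.smul (-1) w hw hpw] at h1
    have e1 : (fun x => u x - w x) = fun x => u x + (-1 : ℝ) • w x := by
      funext x
      rw [neg_one_smul, sub_eq_add_neg]
    rw [e1, h1]
    funext x
    show T u x + (-1 : ℝ) • T w x = T u x - T w x
    rw [neg_one_smul, sub_eq_add_neg]
  · intro u B hu hp _ hB
    have h1 := h.ck 1 hM u B hu hp (fun x => by rw [norm_iteratedFDeriv_one]; exact hB x)
    refine ⟨h1.1, fun x => ?_⟩
    have h2 := h1.2.1 x
    rwa [norm_iteratedFDeriv_one] at h2

lemma fderiv_bern {u : V → V} {p : V → ℝ} {x : V} (hu : DifferentiableAt ℝ u x)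
    (hp : DifferentiableAt ℝ p x) (s : ℝ) (y : V) :
    fderiv ℝ (fun x => p x + s * ((∑ i, u x i ^ 2) / 2)) x y =
      fderiv ℝ p x y + s * ∑ i, u x i * fderiv ℝ u x y i := by
  have hS : DifferentiableAt ℝ (fun x => sq3 (u x)) x :=
    ((sq3_contDiff (n := 1)).differentiable one_ne_zero _).comp x hu
  have e1 : (fun x => p x + s * ((∑ i, u x i ^ 2) / 2)) = fun x => p x + (s / 2) * sq3 (u x) := by
    funext z
    unfold sq3
    ring
  have h1 : HasFDerivAt (fun x => p x + (s / 2) * sq3 (u x))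
      (fderiv ℝ p x + (s / 2) • fderiv ℝ (fun x => sq3 (u x)) x) x :=
    hp.hasFDerivAt.add (hS.hasFDerivAt.const_mul (s / 2))
  rw [e1, h1.fderiv, add_apply, smul_apply, smul_eq_mul,
    Pool.Agent.Zk71.MB.sq3_fderiv hu, Finset.mul_sum, Finset.mul_sum]
  congr 1
  exact Finset.sum_congr rfl fun i _ => by ring

/-- A classical solution of the Euler equations in rotational form. -/
theorem modSol_of_euler {I : Set ℝ} {u : ℝ → V → V} {p : ℝ → V → ℝ}
    (h : IsClassicalSolution I u p) :
    IsModSol (fun _ _ => 0) I u (fun t x => p t x + (∑ i, u t x i ^ 2) / 2) := by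
  refine ⟨h.contDiffOn_u, ?_, h.periodic_u, ?_, h.div_free, ?_⟩
  · have h1 : ContDiffOn ℝ 1 (fun z : ℝ × V => sq3 (u z.1 z.2)) (I ×ˢ univ) :=
      sq3_contDiff.comp_contDiffOn h.contDiffOn_u
    exact h.contDiffOn_p.add (h1.div_const 2)
  · intro t ht i x
    simp only
    rw [h.periodic_p t ht i x, h.periodic_u t ht i x]
  · intro t ht x i
    have cu : ContDiff ℝ 1 (u t) := contDiff_slice h.contDiffOn_u ht
    have cp : ContDiff ℝ 1 (p t) := contDiff_slice h.contDiffOn_p ht
    have h1 := h.momentum t ht x i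
    have h2 := fderiv_bern (cu.differentiable one_ne_zero x) (cp.differentiable one_ne_zero x) 1
      (Pi.single i 1)
    simp only [one_mul] at h2
    rw [h2]
    simp only [Pi.zero_apply, add_zero, mul_sub, Finset.sum_sub_distrib]
    linarith

/-- A classical solution of the Euler equations from the rotational form. -/
theorem euler_of_modSol {I : Set ℝ} {u : ℝ → V → V} {q : ℝ → V → ℝ}
    (h : IsModSol (fun _ _ => 0) I u q) :
    IsClassicalSolution I u (fun t x => q t x - (∑ i, u t x i ^ 2) / 2) := by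
  refine ⟨h.contDiffOn_u, ?_, h.periodic_u, ?_, h.div_free, ?_⟩
  · have h1 : ContDiffOn ℝ 1 (fun z : ℝ × V => sq3 (u z.1 z.2)) (I ×ˢ univ) :=
      sq3_contDiff.comp_contDiffOn h.contDiffOn_u
    exact h.contDiffOn_q.sub (h1.div_const 2)
  · intro t ht i x
    simp only
    rw [h.periodic_q t ht i x, h.periodic_u t ht i x]
  · intro t ht x i
    have cu : ContDiff ℝ 1 (u t) := contDiff_slice h.contDiffOn_u ht
    have cq : ContDiff ℝ 1 (q t) := contDiff_slice h.contDiffOn_q ht
    have h1 := h.momentum t ht x i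
    have h2 := fderiv_bern (cu.differentiable one_ne_zero x) (cq.differentiable one_ne_zero x)
      (-1) (Pi.single i 1)
    simp only [neg_mul, one_mul, ← sub_eq_add_neg] at h2
    rw [h2]
    simp only [Pi.zero_apply, add_zero, mul_sub, Finset.sum_sub_distrib] at h1
    linarith

namespace En

variable {T : (V → V) → V → V} {C a : ℝ} {u : ℝ → V → V} {q : ℝ → V → ℝ}

lemma ip_comm (f g : V → V) : ip f g = ip g f := by
  unfold ip
  congr 1
  funext x
  exact Finset.sum_congr rfl fun i _ => mul_comm _ _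

lemma ip_cont {f g : V → V} (hf : Continuous f) (hg : Continuous g) :
    Continuous (fun x => ∑ i, f x i * g x i) := by
  fun_prop

lemma ip_int {f g : V → V} (hf : Continuous f) (hg : Continuous g) (pf : Periodic3 f)
    (pg : Periodic3 g) : IntegrableOn (fun x => ∑ i, f x i * g x i) Dom := by
  have hp : Periodic3 (fun x => ∑ i, f x i * g x i) := by
    intro i x
    simp only
    rw [pf i x, pg i x]
  exact hp.integrableOn (ip_cont hf hg)

lemma ip_add_right {f g g' : V → V} (hf : Continuous f) (hg : Continuous g) (hg' : Continuous g')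
    (pf : Periodic3 f) (pg : Periodic3 g) (pg' : Periodic3 g') :
    ip f (fun x => g x + g' x) = ip f g + ip f g' := by
  unfold ip
  have h1 : ∫ x in Dom, ((∑ i, f x i * g x i) + ∑ i, f x i * g' x i) =
      (∫ x in Dom, ∑ i, f x i * g x i) + ∫ x in Dom, ∑ i, f x i * g' x i :=
    integral_add (ip_int hf hg pf pg) (ip_int hf hg' pf pg')
  rw [← h1]
  congr 1
  funext x
  rw [← Finset.sum_add_distrib]
  refine Finset.sum_congr rfl fun i _ => ?_
  show f x i * (g x i + g' x i) = _
  rw [mul_add]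

lemma ip_sub_right {f g g' : V → V} (hf : Continuous f) (hg : Continuous g) (hg' : Continuous g')
    (pf : Periodic3 f) (pg : Periodic3 g) (pg' : Periodic3 g') :
    ip f (fun x => g x - g' x) = ip f g - ip f g' := by
  unfold ip
  have h1 : ∫ x in Dom, ((∑ i, f x i * g x i) - ∑ i, f x i * g' x i) =
      (∫ x in Dom, ∑ i, f x i * g x i) - ∫ x in Dom, ∑ i, f x i * g' x i :=
    integral_sub (ip_int hf hg pf pg) (ip_int hf hg' pf pg')
  rw [← h1]
  congr 1
  funext x
  rw [← Finset.sum_sub_distrib]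
  refine Finset.sum_congr rfl fun i _ => ?_
  show f x i * (g x i - g' x i) = _
  rw [mul_sub]

lemma ip_sub_left {f f' g : V → V} (hf : Continuous f) (hf' : Continuous f') (hg : Continuous g)
    (pf : Periodic3 f) (pf' : Periodic3 f') (pg : Periodic3 g) :
    ip (fun x => f x - f' x) g = ip f g - ip f' g := by
  rw [ip_comm, ip_sub_right hg hf hf' pg pf pf', ip_comm g f, ip_comm g f']

lemma abs_sum_mul_le {y z : V} {A B : ℝ} (hy : ‖y‖ ≤ A) (hz : ‖z‖ ≤ B) :
    |∑ i, y i * z i| ≤ 3 * (A * B) := by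
  have hA : 0 ≤ A := (norm_nonneg _).trans hy
  refine (Finset.abs_sum_le_sum_abs _ _).trans ?_
  have h1 : ∀ i ∈ (Finset.univ : Finset (Fin 3)), |y i * z i| ≤ A * B := by
    intro i _
    rw [abs_mul]
    exact mul_le_mul ((norm_le_pi_norm y i).trans hy) ((norm_le_pi_norm z i).trans hz)
      (abs_nonneg _) hA
  refine (Finset.sum_le_sum h1).trans ?_
  simp

lemma ip_le {f g : V → V} {A B : ℝ} (hf : ∀ x, ‖f x‖ ≤ A) (hg : ∀ x, ‖g x‖ ≤ B) :
    |ip f g| ≤ 3 * (A * B) * (volume Dom).toReal := by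
  unfold ip
  have h1 : ∀ x ∈ Dom, ‖∑ i, f x i * g x i‖ ≤ 3 * (A * B) := fun x _ =>
    abs_sum_mul_le (hf x) (hg x)
  exact norm_setIntegral_le_of_norm_le_const dom_lt_top h1

/-- A solution is Lipschitz in time, uniformly in space, on compact time intervals. -/
lemma lip_time {z : ℝ → V → V}
    (hz : ContDiffOn ℝ 1 (fun p : ℝ × V => z p.1 p.2) (Ico 0 a ×ˢ univ))
    (hp : ∀ t ∈ Ico 0 a, Periodic3 (z t)) {b : ℝ} (hb0 : 0 ≤ b) (hb : b < a) :
    ∃ K : ℝ, 0 ≤ K ∧ ∀ t ∈ Icc 0 b, ∀ s ∈ Icc 0 b, ∀ x, ‖z s x - z t x‖ ≤ K * |s - t| := by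
  have hK : IsCompact (Icc 0 b ×ˢ closure Dom) := isCompact_Icc.prod dom_bdd.isCompact_closure
  have hsub : Icc 0 b ×ˢ closure Dom ⊆ Ico 0 a ×ˢ (univ : Set V) :=
    prod_mono (fun s hs => ⟨hs.1, hs.2.trans_lt hb⟩) (subset_univ _)
  have ha : 0 < a := hb0.trans_lt hb
  have hU : UniqueDiffOn ℝ (Ico 0 a ×ˢ (univ : Set V)) :=
    (uniqueDiffOn_Ico 0 a).prod uniqueDiffOn_univ
  have hd := hz.continuousOn_fderivWithin hU le_rfl
  obtain ⟨C2, hC2⟩ := hK.exists_bound_of_continuousOn (hd.mono hsub)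
  refine ⟨|C2|, abs_nonneg _, fun t ht s hs => ?_⟩
  have hpz : Periodic3 (fun x => z s x - z t x) := by
    intro i x
    simp only
    rw [hp s ⟨hs.1, hs.2.trans_lt hb⟩ i x, hp t ⟨ht.1, ht.2.trans_lt hb⟩ i x]
  refine Pool.Agent.Zk71.MB.bound_of_dom hpz fun x hx => ?_
  have h1 : ∀ r ∈ Icc 0 b, HasDerivWithinAt (fun r => z r x)
      (fderivWithin ℝ (fun p : ℝ × V => z p.1 p.2) (Ico 0 a ×ˢ univ) (r, x) (1, 0)) (Icc 0 b) r := by
    intro r hr
    have hrI : r ∈ Ico 0 a := ⟨hr.1, hr.2.trans_lt hb⟩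
    have h4 : HasFDerivWithinAt (fun p : ℝ × V => z p.1 p.2)
        (fderivWithin ℝ (fun p : ℝ × V => z p.1 p.2) (Ico 0 a ×ˢ univ) (r, x))
        (Ico 0 a ×ˢ univ) (r, x) :=
      ((hz.differentiableOn one_ne_zero) (r, x) ⟨hrI, mem_univ _⟩).hasFDerivWithinAt
    have h5 : HasDerivWithinAt (fun r : ℝ => ((r, x) : ℝ × V)) (1, 0) (Icc 0 b) r :=
      ((hasDerivAt_id r).prodMk (hasDerivAt_const r x)).hasDerivWithinAt
    have h6 : MapsTo (fun r : ℝ => ((r, x) : ℝ × V)) (Icc 0 b) (Ico 0 a ×ˢ univ) :=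
      fun y hy => ⟨⟨hy.1, hy.2.trans_lt hb⟩, mem_univ _⟩
    exact h4.comp_hasDerivWithinAt r h5 h6
  have h2 : ∀ r ∈ Icc 0 b,
      ‖fderivWithin ℝ (fun p : ℝ × V => z p.1 p.2) (Ico 0 a ×ˢ univ) (r, x) (1, 0)‖ ≤ |C2| := by
    intro r hr
    refine (ContinuousLinearMap.le_opNorm _ _).trans ?_
    have h3 := hC2 (r, x) ⟨hr, hx⟩
    have h6 : ‖((1, 0) : ℝ × V)‖ ≤ 1 := by
      rw [Prod.norm_def]
      simp
    calc _ ≤ ‖fderivWithin ℝ (fun p : ℝ × V => z p.1 p.2) (Ico 0 a ×ˢ univ) (r, x)‖ * 1 :=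
          mul_le_mul_of_nonneg_left h6 (norm_nonneg _)
      _ ≤ |C2| := by rw [mul_one]; exact h3.trans (le_abs_self _)
  have := Convex.norm_image_sub_le_of_norm_hasDerivWithin_le h1 h2 (convex_Icc 0 b) ht hs
  rwa [Real.norm_eq_abs] at this

/-- The time derivative of the scalar product with a fixed field. -/
lemma ip_hasDerivAt (hT : IsOp T C) (hu : IsModSol T (Ico 0 a) u q) {t : ℝ} (ht : t ∈ Ioo 0 a)
    {g : V → V} (hg : Continuous g) (pg : Periodic3 g) :
    HasDerivAt (fun s => ip (u s) g) (∫ x in Dom, ∑ i, (-(∑ j, (u t x j + T (u t) x j) *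
      (fderiv ℝ (u t) x (Pi.single j 1) i - fderiv ℝ (u t) x (Pi.single i 1) j)) -
        fderiv ℝ (q t) x (Pi.single i 1)) * g x i) t := by
  obtain ⟨b, hb1, hb2⟩ := exists_between ht.2
  have hb0 : 0 ≤ b := ht.1.le.trans hb1.le
  obtain ⟨K, hK0, hK⟩ := lip_time hu.contDiffOn_u hu.periodic_u hb0 hb2
  obtain ⟨B, hB0, hB⟩ := pg.bounded hg
  have htI : t ∈ Ico 0 a := ⟨ht.1.le, ht.2⟩
  have cu : ContDiff ℝ 1 (u t) := contDiff_slice hu.contDiffOn_u htI
  have cq : ContDiff ℝ 1 (q t) := contDiff_slice hu.contDiffOn_q htI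
  have pu := hu.periodic_u t htI
  have cT := (hT.cont (u t) cu.continuous pu).1
  refine (hasDerivAt_integral_of_dominated_loc_of_lip (s := Icc 0 b)
    (F := fun s x => ∑ i, u s x i * g x i) (bound := fun _ => 3 * (K * B))
    (μ := volume.restrict Dom) (Icc_mem_nhds ht.1 hb1) ?_ ?_ ?_ ?_ ?_ ?_).2
  · filter_upwards [Ioo_mem_nhds ht.1 ht.2] with s hs
    have cs : ContDiff ℝ 1 (u s) := contDiff_slice hu.contDiffOn_u ⟨hs.1.le, hs.2⟩
    exact (ip_cont cs.continuous hg).aestronglyMeasurable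
  · exact ip_int cu.continuous hg pu pg
  · have hfu : ∀ i, Continuous (fun x => fderiv ℝ (u t) x (Pi.single i 1)) := fun i =>
      (cu.continuous_fderiv one_ne_zero).clm_apply continuous_const
    have hfq : ∀ i : Fin 3, Continuous (fun x => fderiv ℝ (q t) x (Pi.single i 1)) := fun i =>
      (cq.continuous_fderiv one_ne_zero).clm_apply continuous_const
    have hcu := cu.continuous
    have : Continuous (fun x => ∑ i, (-(∑ j, (u t x j + T (u t) x j) *
      (fderiv ℝ (u t) x (Pi.single j 1) i - fderiv ℝ (u t) x (Pi.single i 1) j)) -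
        fderiv ℝ (q t) x (Pi.single i 1)) * g x i) := by
      refine continuous_finsetSum _ fun i _ => Continuous.mul (Continuous.sub (Continuous.neg
        (continuous_finsetSum _ fun j _ => ?_)) (hfq i)) ((continuous_apply i).comp hg)
      exact (((continuous_apply j).comp hcu).add ((continuous_apply j).comp cT)).mul
        (((continuous_apply i).comp (hfu j)).sub ((continuous_apply j).comp (hfu i)))
    exact this.aestronglyMeasurable
  · refine Filter.Eventually.of_forall fun x => ?_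
    refine LipschitzOnWith.of_dist_le_mul fun s hs r hr => ?_
    rw [Real.dist_eq, Real.dist_eq, ← Finset.sum_sub_distrib]
    have h1 : ∑ i, (u s x i * g x i - u r x i * g x i) = ∑ i, (u s x - u r x) i * g x i :=
      Finset.sum_congr rfl fun i _ => by rw [Pi.sub_apply]; ring
    rw [h1]
    refine (abs_sum_mul_le (hK r hr s hs x) (hB x)).trans ?_
    have h2 : ((Real.nnabs (3 * (K * B)) : NNReal) : ℝ) = 3 * (K * B) := by
      rw [Real.coe_nnabs, abs_of_nonneg (by positivity)]
    rw [h2]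
    exact le_of_eq (by ring)
  · exact integrableOn_const dom_lt_top.ne
  · refine Filter.Eventually.of_forall fun x => ?_
    refine HasDerivAt.fun_sum fun i _ => ?_
    exact (Pool.Agent.Zk71.MB.time_deriv hu ht x i).mul_const (g x i)

/-- Tested with the transporting velocity the time derivative vanishes. -/
lemma flux_zero (hT : IsOp T C) (hu : IsModSol T (Ico 0 a) u q) {t : ℝ} (ht : t ∈ Ico 0 a) :
    ∫ x in Dom, ∑ i, (-(∑ j, (u t x j + T (u t) x j) *
      (fderiv ℝ (u t) x (Pi.single j 1) i - fderiv ℝ (u t) x (Pi.single i 1) j)) -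
        fderiv ℝ (q t) x (Pi.single i 1)) * (u t x + T (u t) x) i = 0 := by
  have cu : ContDiff ℝ 1 (u t) := contDiff_slice hu.contDiffOn_u ht
  have cq : ContDiff ℝ 1 (q t) := contDiff_slice hu.contDiffOn_q ht
  have pu := hu.periodic_u t ht
  have pq := hu.periodic_q t ht
  have pT := (hT.cont (u t) cu.continuous pu).2
  obtain ⟨B1, -, hB1⟩ := pu.bounded cu.continuous
  obtain ⟨B2, -, hB2⟩ := pu.fderiv.bounded (cu.continuous_fderiv one_ne_zero)
  have cT : ContDiff ℝ 1 (T (u t)) :=
    (hT.c1 (u t) (max B1 B2) cu pu (fun x => (hB1 x).trans (le_max_left _ _))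
      (fun x => (hB2 x).trans (le_max_right _ _))).1
  have cV : ContDiff ℝ 1 (fun y => u t y + T (u t) y) := cu.add cT
  have pV : Periodic3 (fun y => u t y + T (u t) y) := by
    intro i x
    simp only
    rw [pu i x, pT i x]
  have g2 : ContDiff ℝ 1 (fun y => q t y • (u t y + T (u t) y)) := cq.smul cV
  have g2p : Periodic3 (fun y => q t y • (u t y + T (u t) y)) := by
    intro i x
    simp only
    rw [pu i x, pT i x, pq i x]
  have h1 : ∀ x, ∑ i, (-(∑ j, (u t x j + T (u t) x j) *
      (fderiv ℝ (u t) x (Pi.single j 1) i - fderiv ℝ (u t) x (Pi.single i 1) j)) -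
        fderiv ℝ (q t) x (Pi.single i 1)) * (u t x + T (u t) x) i =
      -divergence (fun y => q t y • (u t y + T (u t) y)) x := by
    intro x
    have du : DifferentiableAt ℝ (u t) x := cu.differentiable one_ne_zero x
    have dT : DifferentiableAt ℝ (T (u t)) x := cT.differentiable one_ne_zero x
    have dq : DifferentiableAt ℝ (q t) x := cq.differentiable one_ne_zero x
    have dV : DifferentiableAt ℝ (fun y => u t y + T (u t) y) x := du.add dT
    have eV : fderiv ℝ (fun y => u t y + T (u t) y) x = fderiv ℝ (u t) x + fderiv ℝ (T (u t)) x :=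
      (du.hasFDerivAt.add dT.hasFDerivAt).fderiv
    have vdiv : divergence (fun y => u t y + T (u t) y) x = 0 := by
      have h2 := hu.div_free t ht x
      have h3 := hT.div (u t) cu pu x
      rw [divergence_eq_sum] at h2 h3 ⊢
      rw [eV]
      simp only [add_apply, Pi.add_apply, Finset.sum_add_distrib, h2, h3, add_zero]
    rw [divergence_smul dq dV, vdiv, mul_zero, zero_add, ← sum_mul_clm' (fderiv ℝ (q t) x)]
    simp only [Fin.sum_univ_three, Pi.add_apply]
    ring
  simp_rw [h1]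
  rw [integral_neg, integral_divergence_eq_zero g2 g2p, neg_zero]

/-- The change of the energy. -/
lemma en_diff (hT : IsOp T C) (hs : ∀ u w, Continuous u → Periodic3 u → Continuous w →
    Periodic3 w → ip (T u) w = ip u (T w)) {f g : V → V} (hf : Continuous f) (hg : Continuous g)
    (pf : Periodic3 f) (pg : Periodic3 g) :
    ip f (fun x => f x + T f x) - ip g (fun x => g x + T g x) =
      2 * (ip f (fun x => g x + T g x) - ip g (fun x => g x + T g x)) +
        ip (fun x => f x - g x) (fun x => (f x + T f x) - (g x + T g x)) := by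
  obtain ⟨cTf, pTf⟩ := hT.cont f hf pf
  obtain ⟨cTg, pTg⟩ := hT.cont g hg pg
  have cF : Continuous (fun x => f x + T f x) := hf.add cTf
  have cG : Continuous (fun x => g x + T g x) := hg.add cTg
  have pF : Periodic3 (fun x => f x + T f x) := by
    intro i x
    simp only
    rw [pf i x, pTf i x]
  have pG : Periodic3 (fun x => g x + T g x) := by
    intro i x
    simp only
    rw [pg i x, pTg i x]
  have cFG : Continuous (fun x => (f x + T f x) - (g x + T g x)) := cF.sub cG
  have pFG : Periodic3 (fun x => (f x + T f x) - (g x + T g x)) := by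
    intro i x
    simp only
    rw [pf i x, pTf i x, pg i x, pTg i x]
  rw [ip_sub_left hf hg cFG pf pg pFG, ip_sub_right hf cF cG pf pF pG,
    ip_sub_right hg cF cG pg pF pG]
  have h1 : ip f (fun x => g x + T g x) = ip g (fun x => f x + T f x) := by
    rw [ip_add_right hf hg cTg pf pg pTg, ip_add_right hg hf cTf pg pf pTf, ← hs f g hf pf hg pg,
      ip_comm f g, ip_comm (T f) g]
  rw [h1]
  ring

/-- The bound of the transporting velocity. -/
lemma small_sup {M : ℕ} {ε δ : ℝ} (h : IsSmall M ε δ T) {f : V → V} (hf : Continuous f)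
    (pf : Periodic3 f) {B : ℝ} (hB : ∀ x, ‖f x‖ ≤ B) : ∀ x, ‖T f x‖ ≤ ε * B := by
  have h1 := (h.ck 0 (Nat.zero_le M) f B (contDiff_zero.2 hf) pf
      (fun x => by rw [norm_iteratedFDeriv_zero]; exact hB x)).2.1
  intro x
  have h2 := h1 x
  rwa [norm_iteratedFDeriv_zero] at h2

end En

open En in
/-- Conservation of the energy. -/
theorem energy {M : ℕ} (hM : 1 ≤ M) {ε δ : ℝ} (hε : 0 ≤ ε) {T : (V → V) → V → V}
    (h : IsSmall M ε δ T) {a : ℝ} {u : ℝ → V → V} {q : ℝ → V → ℝ} (hu : IsModSol T (Ico 0 a) u q) :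
    ∀ t ∈ Ico 0 a,
      ip (u t) (fun x => u t x + T (u t) x) = ip (u 0) (fun x => u 0 x + T (u 0) x) := by
  obtain ⟨C, hT⟩ := isOp_of_isSmall hM hε h
  set E : ℝ → ℝ := fun s => ip (u s) (fun x => u s x + T (u s) x) with hE
  have slice : ∀ t ∈ Ico 0 a, Continuous (u t) ∧ Periodic3 (u t) ∧ Continuous (T (u t)) ∧
      Periodic3 (T (u t)) := fun t ht =>
    ⟨(contDiff_slice hu.contDiffOn_u ht).continuous, hu.periodic_u t ht,
      hT.cont _ (contDiff_slice hu.contDiffOn_u ht).continuous (hu.periodic_u t ht)⟩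
  -- the Lipschitz bounds
  have lips : ∀ b, 0 ≤ b → b < a → ∃ K : ℝ, 0 ≤ K ∧ ∀ t ∈ Icc 0 b, ∀ s ∈ Icc 0 b, ∀ x,
      ‖u s x - u t x‖ ≤ K * |s - t| ∧
      ‖(u s x + T (u s) x) - (u t x + T (u t) x)‖ ≤ (1 + ε) * (K * |s - t|) := by
    intro b hb0 hb
    obtain ⟨K, hK0, hK⟩ := lip_time hu.contDiffOn_u hu.periodic_u hb0 hb
    refine ⟨K, hK0, fun t ht s hs => ?_⟩
    have htI : t ∈ Ico 0 a := ⟨ht.1, ht.2.trans_lt hb⟩
    have hsI : s ∈ Ico 0 a := ⟨hs.1, hs.2.trans_lt hb⟩
    obtain ⟨c1, p1, c2, p2⟩ := slice t htI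
    obtain ⟨c3, p3, c4, p4⟩ := slice s hsI
    have pd : Periodic3 (fun x => u s x - u t x) := by
      intro i x
      simp only
      rw [p1 i x, p3 i x]
    have h1 := small_sup h (c3.sub c1) pd (hK t ht s hs)
    intro x
    refine ⟨hK t ht s hs x, ?_⟩
    have h2 : (u s x + T (u s) x) - (u t x + T (u t) x) =
        (u s x - u t x) + T (fun x => u s x - u t x) x := by
      rw [hT.sub (u s) (u t) c3 p3 c1 p1]
      show (u s x + T (u s) x) - (u t x + T (u t) x) = (u s x - u t x) + (T (u s) x - T (u t) x)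
      abel
    rw [h2, add_mul, one_mul]
    exact (norm_add_le _ _).trans (add_le_add (hK t ht s hs x) (h1 x))
  -- the derivative in the interior
  have hder : ∀ t ∈ Ioo 0 a, HasDerivAt E 0 t := by
    intro t ht
    have htI : t ∈ Ico 0 a := ⟨ht.1.le, ht.2⟩
    obtain ⟨b, hb1, hb2⟩ := exists_between ht.2
    have hb0 : 0 ≤ b := ht.1.le.trans hb1.le
    obtain ⟨K, hK0, hK⟩ := lips b hb0 hb2
    obtain ⟨c1, p1, c2, p2⟩ := slice t htI
    have cG : Continuous (fun x => u t x + T (u t) x) := c1.add c2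
    have pG : Periodic3 (fun x => u t x + T (u t) x) := by
      intro i x
      simp only
      rw [p1 i x, p2 i x]
    have d1 := ip_hasDerivAt hT hu ht cG pG
    rw [flux_zero hT hu htI] at d1
    set R : ℝ → ℝ := fun s => ip (fun x => u s x - u t x)
      (fun x => (u s x + T (u s) x) - (u t x + T (u t) x)) with hR
    have d2 : HasDerivAt R 0 t := by
      have hO : R =O[𝓝 t] fun s => ‖s - t‖ ^ 2 := by
        refine Asymptotics.IsBigO.of_bound (3 * (K * ((1 + ε) * K)) * (volume Dom).toReal) ?_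
        filter_upwards [Icc_mem_nhds ht.1 hb1] with s hs
        have h3 := ip_le (fun x => (hK t ⟨ht.1.le, hb1.le⟩ s hs x).1)
          (fun x => (hK t ⟨ht.1.le, hb1.le⟩ s hs x).2)
        rw [Real.norm_eq_abs, Real.norm_eq_abs, Real.norm_eq_abs, abs_pow, abs_abs]
        refine h3.trans (le_of_eq ?_)
        ring
      have := hO.hasFDerivAt (𝕜 := ℝ) one_lt_two
      exact this.hasDerivAt
    have d3 : HasDerivAt (fun s => E t + 2 * (ip (u s) (fun x => u t x + T (u t) x) -
        ip (u t) (fun x => u t x + T (u t) x)) + R s) 0 t := by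
      have := (((d1.sub_const (ip (u t) (fun x => u t x + T (u t) x))).const_mul 2).const_add
        (E t)).fun_add d2
      exact this.congr_deriv (by ring)
    refine d3.congr_of_eventuallyEq ?_
    filter_upwards [Icc_mem_nhds ht.1 hb1] with s hs
    have hsI : s ∈ Ico 0 a := ⟨hs.1, hs.2.trans_lt hb2⟩
    obtain ⟨c3, p3, -, -⟩ := slice s hsI
    have := en_diff hT h.symm c3 c1 p3 p1
    simp only [hE, hR]
    linarith
  -- continuity
  have hcont : ContinuousOn E (Ico 0 a) := by
    intro t ht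
    obtain ⟨b, hb1, hb2⟩ := exists_between ht.2
    have hb0 : 0 ≤ b := ht.1.trans hb1.le
    obtain ⟨K, hK0, hK⟩ := lips b hb0 hb2
    obtain ⟨c1, p1, c2, p2⟩ := slice t ht
    have cG : Continuous (fun x => u t x + T (u t) x) := c1.add c2
    have pG : Periodic3 (fun x => u t x + T (u t) x) := by
      intro i x
      simp only
      rw [p1 i x, p2 i x]
    obtain ⟨B, hB0, hB⟩ := pG.bounded cG
    have hbd : ∀ s ∈ Icc 0 b, |E s - E t| ≤ (6 * (K * B) + 3 * (K * ((1 + ε) * K)) * b) *
        (volume Dom).toReal * |s - t| := by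
      intro s hs
      have hsI : s ∈ Ico 0 a := ⟨hs.1, hs.2.trans_lt hb2⟩
      have htb : t ∈ Icc 0 b := ⟨ht.1, hb1.le⟩
      obtain ⟨c3, p3, -, -⟩ := slice s hsI
      have e1 := en_diff hT h.symm c3 c1 p3 p1
      rw [← ip_sub_left c3 c1 cG p3 p1 pG] at e1
      have e2 := ip_le (fun x => (hK t htb s hs x).1) hB
      have e3 := ip_le (fun x => (hK t htb s hs x).1) (fun x => (hK t htb s hs x).2)
      have e4 : |s - t| ≤ b := by
        rw [abs_le]
        constructor
        · linarith [hs.1, htb.2]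
        · linarith [hs.2, htb.1]
      have e5 : E s - E t = 2 * ip (fun x => u s x - u t x) (fun x => u t x + T (u t) x) +
        ip (fun x => u s x - u t x) (fun x => (u s x + T (u s) x) - (u t x + T (u t) x)) := e1
      rw [e5]
      refine (abs_add_le _ _).trans ?_
      rw [abs_mul, abs_two]
      have e6 : 3 * (K * |s - t| * ((1 + ε) * (K * |s - t|))) * (volume Dom).toReal ≤
          3 * (K * ((1 + ε) * K)) * b * (volume Dom).toReal * |s - t| := by
        have : 0 ≤ 3 * (K * ((1 + ε) * K)) * (volume Dom).toReal * |s - t| := by positivity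
        nlinarith
      nlinarith
    have h0 : Filter.Tendsto (fun s => (6 * (K * B) + 3 * (K * ((1 + ε) * K)) * b) *
        (volume Dom).toReal * |s - t|) (𝓝[Ico 0 a] t) (𝓝 0) := by
      have : Continuous fun s => (6 * (K * B) + 3 * (K * ((1 + ε) * K)) * b) *
        (volume Dom).toReal * |s - t| := by fun_prop
      have h1 := this.tendsto t
      simp only [sub_self, abs_zero, mul_zero] at h1
      exact h1.mono_left nhdsWithin_le_nhds
    rw [ContinuousWithinAt, tendsto_iff_dist_tendsto_zero]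
    refine squeeze_zero' (Filter.Eventually.of_forall fun _ => dist_nonneg) ?_ h0
    have h1 : ∀ᶠ s in 𝓝[Ico 0 a] t, s < b := nhdsWithin_le_nhds (Iio_mem_nhds hb1)
    filter_upwards [h1, self_mem_nhdsWithin] with s hs1 hs2
    exact hbd s ⟨hs2.1, hs1.le⟩
  -- conclusion
  intro t ht
  have ha : (0 : ℝ) ∈ Ico 0 a := ⟨le_rfl, ht.1.trans_lt ht.2⟩
  have hint : interior (Ico 0 a) = Ioo 0 a := interior_Ico
  have hd : DifferentiableOn ℝ E (interior (Ico 0 a)) := by
    rw [hint]
    exact fun s hs => (hder s hs).differentiableAt.differentiableWithinAt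
  have hmono : MonotoneOn E (Ico 0 a) := monotoneOn_of_deriv_nonneg (convex_Ico _ _) hcont hd
    (by rw [hint]; exact fun s hs => (hder s hs).deriv.ge)
  have hanti : AntitoneOn E (Ico 0 a) := antitoneOn_of_deriv_nonpos (convex_Ico _ _) hcont hd
    (by rw [hint]; exact fun s hs => (hder s hs).deriv.le)
  exact le_antisymm (hanti ha ht ht.1) (hmono ha ht ht.1)

end Pool.Agent.Zk27.MB
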