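import Pool.Agent.Zk27.MB.Cut

/-! Basic facts on the profiles -/

open MeasureTheory Set
open scoped ContDiff

namespace Pool.Agent.Zk27.MB

open Pool.Agent.H708R2.EulerSign

lemma eta_smooth : ContDiff ℝ ∞ eta := by
  unfold eta
  exact (Real.smoothTransition.contDiff.comp (contDiff_const.sub contDiff_id)).mul
    (Real.smoothTransition.contDiff.comp (contDiff_const.add contDiff_id))

lemma eta_nonneg (s : ℝ) : 0 ≤ eta s :=
  mul_nonneg (Real.smoothTransition.nonneg _) (Real.smoothTransition.nonneg _)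

lemma eta_le_one (s : ℝ) : eta s ≤ 1 :=
  mul_le_one₀ (Real.smoothTransition.le_one _) (Real.smoothTransition.nonneg _)
    (Real.smoothTransition.le_one _)

lemma eta_one {s : ℝ} (h : |s| ≤ 1) : eta s = 1 := by
  rw [abs_le] at h
  unfold eta
  rw [Real.smoothTransition.one_of_one_le (by linarith),
    Real.smoothTransition.one_of_one_le (by linarith), one_mul]

lemma eta_zero {s : ℝ} (h : 2 ≤ |s|) : eta s = 0 := by
  unfold eta
  rcases le_abs.1 h with h | h
  · rw [Real.smoothTransition.zero_of_nonpos (by linarith), zero_mul]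
  · rw [Real.smoothTransition.zero_of_nonpos (x := 2 + s) (by linarith), mul_zero]

lemma mu_smooth : ContDiff ℝ ∞ mu := by
  unfold mu
  exact contDiff_id.mul eta_smooth

lemma mu_eq {s : ℝ} (h : |s| ≤ 1) : mu s = s := by
  unfold mu; rw [eta_one h, mul_one]

lemma mu_zero {s : ℝ} (h : 2 ≤ |s|) : mu s = 0 := by
  unfold mu; rw [eta_zero h, mul_zero]

lemma kap_smooth : ContDiff ℝ ∞ kap := by
  unfold kap
  have h : ContDiff ℝ (∞ + 1) mu := mu_smooth
  exact (contDiff_succ_iff_deriv.1 h).2.2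

lemma kap_eq {s : ℝ} (h : |s| < 1) : kap s = 1 := by
  unfold kap
  have h1 : mu =ᶠ[nhds s] fun s => s := by
    have : ∀ᶠ r in nhds s, |r| < 1 := (continuous_abs.tendsto s).eventually (gt_mem_nhds h)
    exact this.mono fun r hr => mu_eq hr.le
  rw [h1.deriv_eq]
  simp

lemma kap_zero' {s : ℝ} (h : 2 < |s|) : kap s = 0 := by
  unfold kap
  have h1 : mu =ᶠ[nhds s] fun _ => 0 := by
    have : ∀ᶠ r in nhds s, 2 < |r| := (continuous_abs.tendsto s).eventually (lt_mem_nhds h)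
    exact this.mono fun r hr => mu_zero hr.le
  rw [h1.deriv_eq]
  simp

lemma kap_eq' {s : ℝ} (h : |s| ≤ 1) : kap s = 1 := by
  have h1 : IsClosed {r : ℝ | kap r = 1} := isClosed_eq kap_smooth.continuous continuous_const
  have h2 : closure (Ioo (-1:ℝ) 1) ⊆ {r : ℝ | kap r = 1} :=
    h1.closure_subset_iff.2 fun r hr => kap_eq (abs_lt.2 hr)
  rw [closure_Ioo (by norm_num)] at h2
  exact h2 (abs_le.1 h)

lemma kap_zero {s : ℝ} (h : 2 ≤ |s|) : kap s = 0 := by
  have h1 : IsClosed {r : ℝ | kap r = 0} := isClosed_eq kap_smooth.continuous continuous_const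
  rcases le_abs.1 h with h | h
  · have h2 : closure (Ioi (2:ℝ)) ⊆ {r : ℝ | kap r = 0} :=
      h1.closure_subset_iff.2 fun r hr => kap_zero' (lt_of_lt_of_le hr (le_abs_self r))
    rw [closure_Ioi] at h2
    exact h2 h
  · have h2 : closure (Iio (-2:ℝ)) ⊆ {r : ℝ | kap r = 0} := by
      refine h1.closure_subset_iff.2 fun r hr => kap_zero' (lt_of_lt_of_le ?_ (neg_le_abs r))
      have := mem_Iio.1 hr
      linarith
    rw [closure_Iio] at h2
    refine h2 ?_
    rw [mem_Iic]; linarith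

lemma kap_bounded : ∃ K, 1 ≤ K ∧ ∀ s, |kap s| ≤ K := by
  have hc : HasCompactSupport kap := by
    refine HasCompactSupport.intro (isCompact_Icc (a := (-2:ℝ)) (b := 2)) fun x hx => ?_
    apply kap_zero
    by_contra h
    push Not at h
    exact hx (abs_le.1 h.le)
  obtain ⟨C, hC⟩ := hc.exists_bound_of_continuous kap_smooth.continuous
  refine ⟨max C 1, le_max_right _ _, fun s => ?_⟩
  exact (hC s).trans (le_max_left _ _)

lemma V0_smooth : ContDiff ℝ ∞ V0 := by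
  unfold V0
  have h1 : ContDiff ℝ ∞ (fun z : ℝ × ℝ => mu z.1) := mu_smooth.comp contDiff_fst
  have h2 : ContDiff ℝ ∞ (fun z : ℝ × ℝ => mu z.2) := mu_smooth.comp contDiff_snd
  have h3 : ContDiff ℝ ∞ (fun z : ℝ × ℝ => kap z.1) := kap_smooth.comp contDiff_fst
  have h4 : ContDiff ℝ ∞ (fun z : ℝ × ℝ => kap z.2) := kap_smooth.comp contDiff_snd
  exact (h1.mul h4).neg.prodMk (h3.mul h2)

lemma V0_supp {z : ℝ × ℝ} (h : V0 z ≠ 0) : |z.1| ≤ 2 ∧ |z.2| ≤ 2 := by
  by_contra hcon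
  rw [not_and_or] at hcon
  apply h
  rcases hcon with h1 | h1
  · push Not at h1
    unfold V0
    rw [mu_zero h1.le, kap_zero h1.le]; simp
  · push Not at h1
    unfold V0
    rw [mu_zero h1.le, kap_zero h1.le]; simp

lemma V0_compact : HasCompactSupport V0 := by
  refine HasCompactSupport.intro ((isCompact_Icc (a := (-2:ℝ)) (b := 2)).prod
    (isCompact_Icc (a := (-2:ℝ)) (b := 2))) fun z hz => ?_
  by_contra h
  have := V0_supp h
  exact hz ⟨abs_le.1 this.1, abs_le.1 this.2⟩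

lemma V0_bounded : ∃ C, 0 < C ∧ ∀ z, ‖V0 z‖ ≤ C := by
  obtain ⟨C, hC⟩ := V0_compact.exists_bound_of_continuous V0_smooth.continuous
  exact ⟨max C 1, by positivity, fun z => (hC z).trans (le_max_left _ _)⟩

lemma hasDerivAt_mu (s : ℝ) : HasDerivAt mu (kap s) s :=
  (mu_smooth.differentiable (by simp) s).hasDerivAt

lemma hasDerivAt_kap (s : ℝ) : HasDerivAt kap (deriv kap s) s :=
  (kap_smooth.differentiable (by simp) s).hasDerivAt

lemma V0_fderiv (z v : ℝ × ℝ) : fderiv ℝ V0 z v =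
    (-(kap z.1 * kap z.2 * v.1 + mu z.1 * deriv kap z.2 * v.2),
      deriv kap z.1 * mu z.2 * v.1 + kap z.1 * kap z.2 * v.2) := by
  have h1 : HasFDerivAt (fun z : ℝ × ℝ => mu z.1)
      ((kap z.1) • ContinuousLinearMap.fst ℝ ℝ ℝ) z :=
    (hasDerivAt_mu z.1).comp_hasFDerivAt z hasFDerivAt_fst
  have h2 : HasFDerivAt (fun z : ℝ × ℝ => mu z.2)
      ((kap z.2) • ContinuousLinearMap.snd ℝ ℝ ℝ) z :=
    (hasDerivAt_mu z.2).comp_hasFDerivAt z hasFDerivAt_snd
  have h3 : HasFDerivAt (fun z : ℝ × ℝ => kap z.1)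
      ((deriv kap z.1) • ContinuousLinearMap.fst ℝ ℝ ℝ) z :=
    (hasDerivAt_kap z.1).comp_hasFDerivAt z hasFDerivAt_fst
  have h4 : HasFDerivAt (fun z : ℝ × ℝ => kap z.2)
      ((deriv kap z.2) • ContinuousLinearMap.snd ℝ ℝ ℝ) z :=
    (hasDerivAt_kap z.2).comp_hasFDerivAt z hasFDerivAt_snd
  have h5 := ((h1.mul h4).neg).prodMk (h3.mul h2)
  have h6 : HasFDerivAt V0 _ z := h5
  rw [h6.fderiv]
  ext
  · simp; ring
  · simp; ring

lemma V0_div (z : ℝ × ℝ) : (fderiv ℝ V0 z (1, 0)).1 + (fderiv ℝ V0 z (0, 1)).2 = 0 := by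
  rw [V0_fderiv, V0_fderiv]
  simp

lemma phi_smooth : ContDiff ℝ ∞ phi := phiB.contDiff_normed

lemma phi_nonneg (z : ℝ × ℝ) : 0 ≤ phi z := phiB.nonneg_normed z

lemma phi_integral : ∫ z, phi z = 1 := phiB.integral_normed

lemma phi_supp {z : ℝ × ℝ} (h : phi z ≠ 0) : 1 ≤ z.1 ∧ z.1 ≤ 3 / 2 ∧ |z.2| ≤ 1 / 4 := by
  have h1 : z ∈ Function.support (phiB.normed volume) := h
  rw [ContDiffBump.support_normed_eq] at h1
  have h2 : dist z (5 / 4, 0) < 1 / 4 := h1
  rw [Prod.dist_eq, max_lt_iff, Real.dist_eq, Real.dist_eq] at h2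
  simp only [sub_zero] at h2
  have h3 := abs_lt.1 h2.1
  exact ⟨by linarith, by linarith, h2.2.le⟩

lemma phi_compact : HasCompactSupport phi := phiB.hasCompactSupport_normed

lemma F0_smooth : ContDiff ℝ ∞ F0 := by
  rw [contDiff_pi]
  intro i
  fin_cases i
  · exact contDiff_const
  · exact contDiff_const
  · exact phi_smooth

lemma G0_smooth : ContDiff ℝ ∞ G0 := by
  rw [contDiff_pi]
  intro i
  fin_cases i
  · exact V0_smooth.fst
  · exact V0_smooth.snd
  · exact contDiff_const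

lemma F0_supp (z : ℝ × ℝ) (h : F0 z ≠ 0) : |z.1| ≤ 2 ∧ |z.2| ≤ 2 := by
  have h1 : phi z ≠ 0 := by
    intro h1
    apply h
    unfold F0; rw [h1]
    ext i; fin_cases i <;> rfl
  obtain ⟨a, b, c⟩ := phi_supp h1
  exact ⟨abs_le.2 ⟨by linarith, by linarith⟩, by linarith⟩

lemma G0_supp (z : ℝ × ℝ) (h : G0 z ≠ 0) : |z.1| ≤ 2 ∧ |z.2| ≤ 2 := by
  refine V0_supp fun h1 => h ?_
  unfold G0; rw [h1]
  ext i; fin_cases i <;> rfl

lemma F0_div (z : ℝ × ℝ) : fderiv ℝ F0 z (1, 0) 0 + fderiv ℝ F0 z (0, 1) 1 = 0 := by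
  have hd : DifferentiableAt ℝ F0 z := F0_smooth.differentiable (by simp) z
  have e : ∀ (i : Fin 3) (v : ℝ × ℝ), fderiv ℝ F0 z v i = fderiv ℝ (fun z => F0 z i) z v := by
    intro i v
    rw [fderiv_apply hd]
    rfl
  rw [e, e]
  have h0 : (fun z => F0 z 0) = fun _ => 0 := rfl
  have h1 : (fun z => F0 z 1) = fun _ => 0 := rfl
  rw [h0, h1]
  simp

lemma G0_div (z : ℝ × ℝ) : fderiv ℝ G0 z (1, 0) 0 + fderiv ℝ G0 z (0, 1) 1 = 0 := by
  have hd : DifferentiableAt ℝ G0 z := G0_smooth.differentiable (by simp) z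
  have hV : DifferentiableAt ℝ V0 z := V0_smooth.differentiable (by simp) z
  have e : ∀ (i : Fin 3) (v : ℝ × ℝ), fderiv ℝ G0 z v i = fderiv ℝ (fun z => G0 z i) z v := by
    intro i v
    rw [fderiv_apply hd]
    rfl
  rw [e, e]
  have h0 : (fun z => G0 z 0) = fun z => (V0 z).1 := rfl
  have h1 : (fun z => G0 z 1) = fun z => (V0 z).2 := rfl
  rw [h0, h1, fderiv.fst hV, fderiv.snd hV]
  exact V0_div z

end Pool.Agent.Zk27.MB
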