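import Pool.Agent.Zk27.MB.Cont

/-! The maximal solution and its blow-up -/

open MeasureTheory Set
open scoped ContDiff Topology

namespace Pool.Agent.Zk27.MB

open Pool.Agent.H708R2.EulerSign

variable {M n₀ : ℕ} {w₀ : ℝ × ℝ → ℝ} {r₀ α q : ℝ}

lemma trivSol (T : (V → V) → V → V) (u : ℝ → V → V) (p : ℝ → V → ℝ) : IsModSol T (Ico 0 0) u p := by
  have h : Ico (0:ℝ) 0 = ∅ := Ico_self 0
  rw [h]
  refine ⟨?_, ?_, ?_, ?_, ?_, ?_⟩
  · rw [empty_prod]; exact contDiffOn_empty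
  · rw [empty_prod]; exact contDiffOn_empty
  · intro t ht; exact absurd ht (notMem_empty t)
  · intro t ht; exact absurd ht (notMem_empty t)
  · intro t ht; exact absurd ht (notMem_empty t)
  · intro t ht; exact absurd ht (notMem_empty t)

lemma sol_zero {N : ℕ} {Z Y : ℝ → ℝ × ℝ → ℝ × ℝ} (hF : Fl M n₀ α q w₀ N Z Y) :
    sol w₀ Y 0 = par w₀ := by
  have e : wt w₀ Y 0 = w₀ := by
    funext y
    unfold wt
    rw [hF.zero']
  unfold sol
  rw [e]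

lemma sol_norm (hD : Dat M n₀ w₀ r₀) (Y : ℝ → ℝ × ℝ → ℝ × ℝ) (t : ℝ) (x : V) : ‖sol w₀ Y t x‖ ≤ 1 := by
  rw [pi_norm_le_iff_of_nonneg zero_le_one]
  intro i
  fin_cases i
  · simp [sol, par]
  · simp [sol, par]
  · exact hD.abs_le _

/-- the gradient blows up in finite time -/
theorem blowup (hD : Dat M n₀ w₀ r₀) {C : ℝ} (hT : IsOp (TT M n₀ α q) C)
    (hα : 0 ≤ α) (hq : 0 ≤ q) (hq2 : q < 2) {T₁ : ℝ} (hT₁ : 0 < T₁)
    (hfront : ∃ N₁ : ℕ, ∀ N ≥ N₁, ∀ Z Y, Fl M n₀ α q w₀ N Z Y → w₀ (Y T₁ ((1 / 2) ^ N, 0)) = 1) :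
    ∃ (Ts : ℝ) (u : ℝ → V → V) (p : ℝ → V → ℝ), 0 < Ts ∧ u 0 = par w₀ ∧
      IsModSol (TT M n₀ α q) (Ico 0 Ts) u p ∧
      ContDiffOn ℝ ∞ (fun z : ℝ × V => u z.1 z.2) (Ico 0 Ts ×ˢ univ) ∧
      ContDiffOn ℝ ∞ (fun z : ℝ × V => p z.1 z.2) (Ico 0 Ts ×ˢ univ) ∧
      (∀ t x, ‖u t x‖ ≤ 1) ∧
      (∀ (a : ℝ) (v : ℝ → V → V) (r : ℝ → V → ℝ), IsModSol (TT M n₀ α q) (Ico 0 a) v r →
        v 0 = u 0 → a ≤ Ts ∧ ∀ t ∈ Ico 0 a, v t = u t) ∧
      ∀ B : ℝ, ∃ t ∈ Ico 0 Ts, ∃ x, B < ‖fderiv ℝ (u t) x‖ := by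
  classical
  choose Zn Yn hFn using exists_Fl hD α q
  set S : Set ℝ := {t | 0 ≤ t ∧ ∃ N, Good M w₀ N (Yn N) t} with hS
  -- membership from continuation
  have hmem : ∀ {a : ℝ}, 0 ≤ a → ∀ {v : ℝ → V → V} {p : ℝ → V → ℝ},
      IsModSol (TT M n₀ α q) (Ico 0 a) v p → v 0 = par w₀ → ∀ {B : ℝ},
      (∀ t ∈ Ico 0 a, ∀ x, ‖v t x‖ ≤ B ∧ ‖fderiv ℝ (v t) x‖ ≤ B) → ∃ τ > 0, a + τ ∈ S := by
    intro a ha v p hv hv0 B hB
    obtain ⟨N₂, hN₂⟩ := cont_step hD hT hα hq hq2 ha hv hv0 hB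
    obtain ⟨τ, hτ, h⟩ := hN₂ N₂ le_rfl
    exact ⟨τ, hτ, by linarith, N₂, h _ _ (hFn N₂)⟩
  -- bounds for the truncated flows
  have hbd : ∀ N (b : ℝ), 0 ≤ b → ∃ B, ∀ t ∈ Icc 0 b, ∀ x, ‖sol w₀ (Yn N) t x‖ ≤ B ∧
      ‖fderiv ℝ (sol w₀ (Yn N) t) x‖ ≤ B := by
    intro N b hb
    obtain ⟨K, -, hK⟩ := Pool.Agent.Zk71.MB.unif_bound (a := b + 1) (z := sol w₀ (Yn N))
      (((sol_smooth hD (hFn N)).of_le (by simp)).contDiffOn) (fun t _ => par_periodic _) hb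
      (by linarith)
    exact ⟨K, hK⟩
  have hlt : ∀ t ∈ S, t < T₁ := by
    rintro t ⟨ht0, N, hG⟩
    by_contra hcon
    push Not at hcon
    have hG1 := hG.mono hcon
    obtain ⟨B, hB⟩ := hbd N T₁ hT₁.le
    obtain ⟨N₂, hN₂⟩ := cont_step hD hT hα hq hq2 hT₁.le (isModSol hD (hFn N) hG1)
      (sol_zero (hFn N)) (fun t ht => hB t (Ico_subset_Icc_self ht))
    obtain ⟨N₁, hN₁⟩ := hfront
    obtain ⟨τ, hτ, h⟩ := hN₂ (max N₁ N₂) (le_max_right _ _)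
    have h1 := h _ _ (hFn (max N₁ N₂)) T₁ ⟨hT₁.le, by linarith⟩ ((1 / 2) ^ (max N₁ N₂), 0) (by
      rw [Prod.norm_def]
      simp only [norm_zero]
      have h3 : (0:ℝ) ≤ M := M.cast_nonneg
      have h2 : (0:ℝ) < 2 ^ (max N₁ N₂) := by positivity
      rw [Real.norm_of_nonneg (by positivity), max_eq_left (by positivity), div_pow, one_pow]
      gcongr
      linarith)
    rw [hN₁ _ (le_max_left _ _) _ _ (hFn _)] at h1
    exact one_ne_zero h1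
  have hbdd : BddAbove S := ⟨T₁, fun t ht => (hlt t ht).le⟩
  have hpos : ∃ τ > 0, τ ∈ S := by
    obtain ⟨τ, hτ, h⟩ := hmem le_rfl (trivSol (TT M n₀ α q) (fun _ => par w₀) 0) rfl (B := 0)
      (fun t ht => by rw [Ico_self] at ht; exact absurd ht (notMem_empty t))
    rw [zero_add] at h
    exact ⟨τ, hτ, h⟩
  obtain ⟨τ₀, hτ₀, hτ₀S⟩ := hpos
  set Ts := sSup S with hTs
  have hTs0 : 0 < Ts := hτ₀.trans_le (le_csSup hbdd hτ₀S)
  -- the solution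
  have hex : ∀ t, t < Ts → ∃ N, ∃ t' > t, t' ∈ S ∧ Good M w₀ N (Yn N) t' := by
    intro t ht
    obtain ⟨t', ht', h⟩ := exists_lt_of_lt_csSup ⟨τ₀, hτ₀S⟩ ht
    obtain ⟨N, hN⟩ := ht'.2
    exact ⟨N, t', h, ht', hN⟩
  set idx : ℝ → ℕ := fun t => if h : ∃ N, ∃ t' > t, Good M w₀ N (Yn N) t' then h.choose else 0 with hidx
  have hidx' : ∀ t, (∃ N, ∃ t' > t, Good M w₀ N (Yn N) t') →
      ∃ t' > t, Good M w₀ (idx t) (Yn (idx t)) t' := by
    intro t h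
    have : idx t = h.choose := by rw [hidx]; simp only [dif_pos h]
    rw [this]
    exact h.choose_spec
  set u : ℝ → V → V := fun t => sol w₀ (Yn (idx t)) t with hu
  set p : ℝ → V → ℝ := fun t => prs w₀ (Yn (idx t)) t with hp
  have hprs : ∀ N t x, prs w₀ (Yn N) t x = (sol w₀ (Yn N) t x 2) ^ 2 / 2 := fun N t x => rfl
  have hagree : ∀ N t', Good M w₀ N (Yn N) t' → ∀ t, 0 ≤ t → t < t' →
      u t = sol w₀ (Yn N) t ∧ p t = prs w₀ (Yn N) t := by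
    intro N t' hG t ht0 ht
    obtain ⟨t₂, ht₂, hG₂⟩ := hidx' t ⟨N, t', ht, hG⟩
    have h1 : u t = sol w₀ (Yn N) t := by
      have h2 := isModSol (α := α) (q := q) hD (hFn (idx t)) (hG₂.mono (min_le_left t₂ t'))
      have h3 := isModSol (α := α) (q := q) hD (hFn N) (hG.mono (min_le_right t₂ t'))
      exact Pool.Agent.Zk71.MB.unique hT h2 h3 (by rw [sol_zero (hFn _), sol_zero (hFn _)]) t
        ⟨ht0, lt_min ht₂ ht⟩
    refine ⟨h1, ?_⟩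
    funext x
    have h4 : p t x = (u t x 2) ^ 2 / 2 := rfl
    rw [h4, h1, hprs]
  have hloc : ∀ t ∈ Ico 0 Ts, ∃ N, ∃ t', t < t' ∧ t' ≤ Ts ∧ Good M w₀ N (Yn N) t' ∧
      ∀ s, 0 ≤ s → s < t' → u s = sol w₀ (Yn N) s ∧ p s = prs w₀ (Yn N) s := by
    intro t ht
    obtain ⟨N, t', ht', hS', hG⟩ := hex t ht.2
    exact ⟨N, t', ht', le_csSup hbdd hS', hG, hagree N t' hG⟩
  have hsm : ContDiffOn ℝ ∞ (fun z : ℝ × V => u z.1 z.2) (Ico 0 Ts ×ˢ univ) := by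
    rintro ⟨t, x⟩ ⟨ht, -⟩
    obtain ⟨N, t', htt', -, hG, hN⟩ := hloc t ht
    have h1 : ContDiffWithinAt ℝ ∞ (fun z : ℝ × V => sol w₀ (Yn N) z.1 z.2) (Ico 0 Ts ×ˢ univ) (t, x) :=
      (sol_smooth hD (hFn N)).contDiffAt.contDiffWithinAt
    refine h1.congr_of_eventuallyEq ?_ (by simp only; rw [(hN t ht.1 htt').1])
    have h2 : ∀ᶠ z : ℝ × V in 𝓝 (t, x), z.1 < t' :=
      (continuous_fst.tendsto (t, x)).eventually (eventually_lt_nhds htt')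
    filter_upwards [nhdsWithin_le_nhds h2, self_mem_nhdsWithin] with z hz hz'
    rw [(hN z.1 hz'.1.1 hz).1]
  have hsmp : ContDiffOn ℝ ∞ (fun z : ℝ × V => p z.1 z.2) (Ico 0 Ts ×ˢ univ) := by
    rintro ⟨t, x⟩ ⟨ht, -⟩
    obtain ⟨N, t', htt', -, hG, hN⟩ := hloc t ht
    have h1 : ContDiffWithinAt ℝ ∞ (fun z : ℝ × V => prs w₀ (Yn N) z.1 z.2) (Ico 0 Ts ×ˢ univ) (t, x) :=
      (prs_smooth hD (hFn N)).contDiffAt.contDiffWithinAt
    refine h1.congr_of_eventuallyEq ?_ (by simp only; rw [(hN t ht.1 htt').2])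
    have h2 : ∀ᶠ z : ℝ × V in 𝓝 (t, x), z.1 < t' :=
      (continuous_fst.tendsto (t, x)).eventually (eventually_lt_nhds htt')
    filter_upwards [nhdsWithin_le_nhds h2, self_mem_nhdsWithin] with z hz hz'
    rw [(hN z.1 hz'.1.1 hz).2]
  have hu0 : u 0 = par w₀ := sol_zero (hFn _)
  have hun : ∀ t x, ‖u t x‖ ≤ 1 := fun t x => sol_norm hD _ _ _
  have hsol : IsModSol (TT M n₀ α q) (Ico 0 Ts) u p := by
    refine ⟨hsm.of_le (by simp), hsmp.of_le (by simp), fun t _ => par_periodic _, ?_, ?_, ?_⟩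
    · intro t _ i x
      simp only [hp]
      unfold prs
      rw [pr_periodic i x]
    · intro t ht x
      obtain ⟨N, t', htt', -, hG, hN⟩ := hloc t ht
      rw [(hN t ht.1 htt').1]
      exact (isModSol (α := α) (q := q) hD (hFn N) hG).div_free t ⟨ht.1, htt'⟩ x
    · intro t ht x i
      obtain ⟨N, t', htt', ht'T, hG, hN⟩ := hloc t ht
      have h1 := (isModSol (α := α) (q := q) hD (hFn N) hG).momentum t ⟨ht.1, htt'⟩ x i
      rw [(hN t ht.1 htt').1, (hN t ht.1 htt').2]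
      have e1 : derivWithin (fun s => u s x i) (Ico 0 Ts) t
          = derivWithin (fun s => u s x i) (Ico 0 t') t := by
        refine derivWithin_congr_set ?_
        have : ∀ᶠ r in 𝓝 t, r < t' := eventually_lt_nhds htt'
        filter_upwards [this] with r hr
        exact propext ⟨fun h => ⟨h.1, hr⟩, fun h => ⟨h.1, h.2.trans_le ht'T⟩⟩
      have e2 : derivWithin (fun s => u s x i) (Ico 0 t') t
          = derivWithin (fun s => sol w₀ (Yn N) s x i) (Ico 0 t') t := by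
        refine derivWithin_congr (fun s hs => ?_) ?_
        · simp only [(hN s hs.1 hs.2).1]
        · simp only [(hN t ht.1 htt').1]
      rw [e1, e2]
      exact h1
  refine ⟨Ts, u, p, hTs0, hu0, hsol, hsm, hsmp, hun, ?_, ?_⟩
  · intro a v r hv hv0
    have h1 : a ≤ Ts := by
      refine le_of_forall_lt fun b hb => ?_
      rcases lt_or_ge b 0 with h | h
      · exact h.trans hTs0
      · obtain ⟨K, -, hK⟩ := Pool.Agent.Zk71.MB.unif_bound hv.contDiffOn_u hv.periodic_u h hb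
        obtain ⟨τ, hτ, h2⟩ := hmem h (hv.mono hb.le) (hv0.trans hu0)
          (fun t ht => hK t (Ico_subset_Icc_self ht))
        have := le_csSup hbdd h2
        linarith
    exact ⟨h1, Pool.Agent.Zk71.MB.unique hT hv (hsol.mono h1) hv0⟩
  · intro B
    by_contra hcon
    push Not at hcon
    obtain ⟨τ, hτ, h2⟩ := hmem hTs0.le hsol hu0 (B := max B 1)
      (fun t ht x => ⟨(hun t x).trans (le_max_right _ _), (hcon t ht x).trans (le_max_left _ _)⟩)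
    have := le_csSup hbdd h2
    linarith

end Pool.Agent.Zk27.MB
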