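import Pool.Agent.Zk27.MB.Sol
import Pool.Agent.Zk71.MB.Uniq
import Pool.Agent.Zk94.FL.Sys

/-! Continuation: a classical solution forces the truncated flows to vanish near the origin -/

open MeasureTheory Set
open scoped ContDiff Topology

namespace Pool.Agent.Zk27.MB

open Pool.Agent.H708R2.EulerSign
open Pool.Agent.R739.ET (wr wr_add wr_eq)

variable {M n₀ : ℕ} {w₀ : ℝ × ℝ → ℝ} {r₀ α q : ℝ} {N : ℕ} {Z Y : ℝ → ℝ × ℝ → ℝ × ℝ}

lemma IsModSol.mono {T : (V → V) → V → V} {a b : ℝ} {u : ℝ → V → V} {p : ℝ → V → ℝ}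
    (h : IsModSol T (Ico 0 a) u p) (hb : b ≤ a) : IsModSol T (Ico 0 b) u p := by
  have hs : Ico 0 b ⊆ Ico 0 a := Ico_subset_Ico_right hb
  refine ⟨h.contDiffOn_u.mono (prod_mono hs le_rfl), h.contDiffOn_q.mono (prod_mono hs le_rfl),
    fun t ht => h.periodic_u t (hs ht), fun t ht => h.periodic_q t (hs ht),
    fun t ht => h.div_free t (hs ht), fun t ht x i => ?_⟩
  have e : derivWithin (fun s => u s x i) (Ico 0 b) t = derivWithin (fun s => u s x i) (Ico 0 a) t := by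
    refine derivWithin_congr_set ?_
    have : ∀ᶠ r in 𝓝 t, r < b := eventually_lt_nhds ht.2
    filter_upwards [this] with r hr
    exact propext ⟨fun h => hs h, fun h => ⟨h.1, hr⟩⟩
  rw [e]
  exact h.momentum t (hs ht) x i

lemma exists_Fl (hD : Dat M n₀ w₀ r₀) (α q : ℝ) (N : ℕ) : ∃ Z Y, Fl M n₀ α q w₀ N Z Y := by
  have hc : HasCompactSupport w₀ := by
    refine HasCompactSupport.intro ((isCompact_Icc (a := (-1:ℝ)) (b := 1)).prod
      (isCompact_Icc (a := (-1:ℝ)) (b := 1))) fun z hz => ?_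
    by_contra h
    have := hD.supp' h
    exact hz ⟨_root_.abs_le.1 this.1.le, _root_.abs_le.1 this.2.le⟩
  obtain ⟨Z, Y, h1, h2, h3, h4, h5, h6⟩ := Pool.Agent.Zk94.FL.exists_flow (Finset.Icc n₀ N)
    (Xf M α q) (ph M) w₀ (fun k _ => Xf_smooth M α q k) (fun k _ => Xf_compact M α q k)
    (fun k _ => Xf_div M α q k) (fun k _ => ph_smooth M k) (fun k _ => ph_compact M k)
    hD.smooth hc
  exact ⟨Z, Y, h1, h2, h3, h4, h5, h6⟩

lemma V0_axis (j : ℕ) : V0 (8 * (j:ℝ), 0) = 0 := by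
  unfold V0
  rcases Nat.eq_zero_or_pos j with h | h
  · subst h
    simp [mu]
  · have h1 : (1:ℝ) ≤ j := by exact_mod_cast h
    have h2 : (2:ℝ) ≤ |8 * (j:ℝ)| := by
      rw [abs_of_nonneg (by positivity)]; linarith
    simp only [mu_zero h2, kap_zero h2]
    simp

lemma Xf_origin (M : ℕ) (α q : ℝ) (k : ℕ) : Xf M α q k 0 = 0 := by
  unfold Xf cp
  rw [Finset.sum_eq_zero, smul_zero]
  intro j _
  simp only [Prod.fst_zero, Prod.snd_zero, mul_zero, zero_add]
  rw [V0_axis, smul_zero]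

lemma vel_zero (s : Finset ℕ) (φ : ℕ → ℝ × ℝ → ℝ) (t : ℝ) :
    vel s (Xf M α q) φ w₀ Y t 0 = 0 := by
  unfold vel
  exact Finset.sum_eq_zero fun k _ => by rw [Xf_origin, smul_zero]

lemma norm_emb (v : ℝ × ℝ) : ‖emb v‖ = ‖v‖ := by
  refine le_antisymm ?_ ?_
  · rw [pi_norm_le_iff_of_nonneg (norm_nonneg _)]
    intro i
    fin_cases i
    · exact norm_fst_le v
    · exact norm_snd_le v
    · simp [emb]
  · rw [Prod.norm_def]
    exact max_le (norm_le_pi_norm (emb v) 0) (norm_le_pi_norm (emb v) 1)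

lemma pr_emb {z : ℝ × ℝ} (hz : ‖z‖ ≤ 1) : pr (emb z) = z := by
  have hpi := Real.pi_gt_three
  have h1 := (norm_fst_le z).trans hz
  have h2 := (norm_snd_le z).trans hz
  rw [Real.norm_eq_abs, _root_.abs_le] at h1 h2
  unfold pr
  have e0 : wr (emb z 0) = z.1 := wr_eq ⟨by linarith, by linarith⟩ ⟨0, by simp [emb]⟩
  have e1 : wr (emb z 1) = z.2 := wr_eq ⟨by linarith, by linarith⟩ ⟨0, by simp [emb]⟩
  rw [e0, e1]

/-- the speed is controlled by the gradient of the solution -/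
lemma speed (hD : Dat M n₀ w₀ r₀) {C : ℝ} (hT : IsOp (TT M n₀ α q) C)
    (hF : Fl M n₀ α q w₀ N Z Y) {t : ℝ} (hG : ∀ z : ℝ × ℝ, ‖z‖ ≤ (8 * M + 2) / 2 ^ N → w₀ (Y t z) = 0)
    {B : ℝ} (hB : ∀ x, ‖sol w₀ Y t x‖ ≤ B ∧ ‖fderiv ℝ (sol w₀ Y t) x‖ ≤ B) (z : ℝ × ℝ) :
    ‖vel (Finset.Icc n₀ N) (Xf M α q) (ph M) w₀ Y t z‖ ≤ |C| * |B| * ‖z‖ := by
  have hB0 : 0 ≤ B := (norm_nonneg _).trans (hB 0).1
  by_cases hz : ‖z‖ ≤ 1
  · have hs : ContDiff ℝ 1 (sol w₀ Y t) := by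
      have := (sol_smooth hD hF).comp ((contDiff_const (c := t)).prodMk (contDiff_id (E := V)))
      exact this.of_le (by simp)
    obtain ⟨h1, h2⟩ := hT.c1 (sol w₀ Y t) B hs (par_periodic _) (fun x => (hB x).1)
      (fun x => (hB x).2)
    have h3 : ∀ x, TT M n₀ α q (sol w₀ Y t) x
        = emb (vel (Finset.Icc n₀ N) (Xf M α q) (ph M) w₀ Y t (pr x)) := fun x =>
      TT_par hD.hn α q (wt_smooth' hD hF t).continuous hG x
    have h4 := convex_univ.norm_image_sub_le_of_norm_fderiv_le (𝕜 := ℝ)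
      (f := TT M n₀ α q (sol w₀ Y t)) (C := C * B) (x := emb 0) (y := emb z)
      (fun x _ => h1.differentiable one_ne_zero x) (fun x _ => h2 x) (mem_univ _) (mem_univ _)
    rw [h3, h3, pr_emb hz, pr_emb (by simp), vel_zero, emb_zero, sub_zero, sub_zero, norm_emb,
      norm_emb] at h4
    refine h4.trans (mul_le_mul_of_nonneg_right ?_ (norm_nonneg _))
    rw [← abs_mul]
    exact le_abs_self _
  · have h1 : vel (Finset.Icc n₀ N) (Xf M α q) (ph M) w₀ Y t z = 0 := by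
      unfold vel
      refine Finset.sum_eq_zero fun k hk => ?_
      have : Xf M α q k z = 0 := by
        by_contra h2
        have h3 := Xf_small h2
        have hk' := (Finset.mem_Icc.1 hk).1
        refine hz ?_
        rw [Prod.norm_def]
        exact max_le (h3.1.trans (pow_lt_aux hD.hn k hk').le)
          (h3.2.trans (two_lt_aux hD.hn k hk').le)
      rw [this, smul_zero]
    rw [h1, norm_zero]
    positivity

/-- continuation -/
theorem cont_step (hD : Dat M n₀ w₀ r₀) {C : ℝ} (hT : IsOp (TT M n₀ α q) C)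
    (hα : 0 ≤ α) (hq : 0 ≤ q) (hq2 : q < 2) {a : ℝ} (ha : 0 ≤ a) {v : ℝ → V → V}
    {p : ℝ → V → ℝ} (hv : IsModSol (TT M n₀ α q) (Ico 0 a) v p) (hv0 : v 0 = par w₀) {B : ℝ}
    (hB : ∀ t ∈ Ico 0 a, ∀ x, ‖v t x‖ ≤ B ∧ ‖fderiv ℝ (v t) x‖ ≤ B) :
    ∃ N₂ : ℕ, ∀ N ≥ N₂, ∃ τ > 0, ∀ Z Y, Fl M n₀ α q w₀ N Z Y → Good M w₀ N Y (a + τ) := by
  obtain ⟨CX, hCX, hX⟩ := vel_bound M hα hq hq2
  set L : ℝ := |C| * |B| with hL
  have hL0 : 0 ≤ L := by positivity
  have hM : (0:ℝ) ≤ M := M.cast_nonneg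
  obtain ⟨N₂, hN₂⟩ := pow_unbounded_of_one_lt (2 * (8 * M + 2) * Real.exp (L * a) / r₀)
    (one_lt_two (α := ℝ))
  refine ⟨N₂, fun N hN => ?_⟩
  set R : ℝ := (8 * M + 2) / 2 ^ N with hR
  have hR0 : 0 < R := by positivity
  have hRr : 2 * R * Real.exp (L * a) ≤ r₀ := by
    have h1 : (2:ℝ) ^ N₂ ≤ 2 ^ N := pow_le_pow_right₀ (by norm_num) hN
    have h2 := hN₂.trans_le h1
    rw [div_lt_iff₀ hD.pos] at h2
    have h3 : 2 * R * Real.exp (L * a) = (2 * (8 * M + 2) * Real.exp (L * a)) / 2 ^ N := by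
      rw [hR]; ring
    rw [h3, div_le_iff₀ (by positivity)]
    linarith
  have hRr0 : 2 * R ≤ r₀ := by
    have h1 : 1 ≤ Real.exp (L * a) := Real.one_le_exp (by positivity)
    nlinarith
  set τ : ℝ := R / (4 * CX) with hτ
  have hτ0 : 0 < τ := by positivity
  refine ⟨τ, hτ0, fun Z Y hF => ?_⟩
  -- points of the support stay away from the origin
  have hQ0 : ∀ z, w₀ (Y 0 z) ≠ 0 → 2 * R ≤ ‖z‖ := by
    intro z hz
    rw [hF.zero'] at hz
    have h1 := (hD.supp z hz).1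
    have h2 := (le_abs_self _).trans (norm_fst_le z)
    linarith
  have hQ : ∀ t, t ≤ a → Good M w₀ N Y t → ∀ r, 0 ≤ r → r < t → ∀ z, w₀ (Y r z) ≠ 0 →
      2 * R ≤ ‖z‖ := by
    intro t hta hG r hr0 hrt z hz
    have h1 := isModSol (α := α) (q := q) hD hF hG
    have hs0 : sol w₀ Y 0 = v 0 := by
      rw [hv0]
      have e : wt w₀ Y 0 = w₀ := by
        funext y
        unfold wt
        rw [hF.zero']
      unfold sol
      rw [e]
    have h2 := Pool.Agent.Zk71.MB.unique hT h1 (hv.mono hta) hs0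
    have h3 := hF.expBound hr0 (L := L) (fun r' hr' z' => by
      have hr2 : r' ∈ Ico 0 t := ⟨hr'.1, hr'.2.trans_lt hrt⟩
      refine speed hD hT hF (fun y hy => hG r' ⟨hr'.1, (hr'.2.trans_lt hrt).le⟩ y hy) ?_ z'
      intro x
      rw [h2 r' hr2]
      exact hB r' ⟨hr2.1, hr2.2.trans_le hta⟩ x) (Y r z)
    rw [hF.left] at h3
    have h4 := (hD.supp _ hz).1
    have h5 := (le_abs_self _).trans (norm_fst_le (Y r z))
    have h6 : Real.exp (L * r) ≤ Real.exp (L * a) := by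
      apply Real.exp_le_exp.2
      exact mul_le_mul_of_nonneg_left (by linarith) hL0
    have h7 : ‖z‖ * Real.exp (L * r) ≤ ‖z‖ * Real.exp (L * a) :=
      mul_le_mul_of_nonneg_left h6 (norm_nonneg _)
    have h8 : 2 * R * Real.exp (L * a) ≤ ‖z‖ * Real.exp (L * a) := by linarith
    exact le_of_mul_le_mul_right h8 (Real.exp_pos _)
  have hstep : ∀ t, 0 ≤ t → t ≤ a → Good M w₀ N Y t → Good M w₀ N Y (t + τ) := by
    intro t ht0 hta hG s hs z hz
    by_contra hne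
    obtain ⟨r, hr0, hrs, hsr, hr⟩ : ∃ r, 0 ≤ r ∧ r ≤ s ∧ s - r ≤ 2 * τ ∧
        ∀ z, w₀ (Y r z) ≠ 0 → 2 * R ≤ ‖z‖ := by
      rcases lt_or_ge s t with h | h
      · exact ⟨s, hs.1, le_refl s, by linarith, hQ t hta hG s hs.1 h⟩
      · rcases le_or_gt t τ with h' | h'
        · exact ⟨0, le_refl 0, hs.1, by linarith [hs.2], hQ0⟩
        · exact ⟨t - τ, by linarith, by linarith, by linarith [hs.2],
            hQ t hta hG (t - τ) (by linarith) (by linarith)⟩
    have h1 := hr (Z r (Y s z)) (by rw [hF.right]; exact hne)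
    have h2 := hF.disp (hX w₀ hD.abs_le (Finset.Icc n₀ N) Y) r s (Y s z)
    rw [hF.left] at h2
    have h3 : |r - s| ≤ 2 * τ := by
      rw [_root_.abs_le]; constructor <;> linarith
    have h4 : CX * |r - s| ≤ CX * (2 * τ) := mul_le_mul_of_nonneg_left h3 hCX.le
    have h5 : CX * (2 * τ) = R / 2 := by
      rw [hτ]; field_simp; ring
    have h6 : ‖Z r (Y s z)‖ ≤ ‖Z r (Y s z) - z‖ + ‖z‖ := by
      have := norm_add_le (Z r (Y s z) - z) z
      simpa using this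
    have h7 : ‖z‖ ≤ R := hz
    linarith
  have hG0 : Good M w₀ N Y 0 := by
    intro s hs z hz
    have hs0 : s = 0 := le_antisymm hs.2 hs.1
    subst hs0
    by_contra hne
    have h1 := hQ0 z hne
    have h7 : ‖z‖ ≤ R := hz
    linarith
  have hind : ∀ j : ℕ, (j:ℝ) * τ ≤ a → Good M w₀ N Y (j * τ) := by
    intro j
    induction j with
    | zero => intro _; simpa using hG0
    | succ j ih =>
      intro hj
      push_cast at hj ⊢
      have h1 : (j:ℝ) * τ ≤ a := by nlinarith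
      have h2 := hstep (j * τ) (by positivity) h1 (ih h1)
      have e : ((j:ℝ) + 1) * τ = j * τ + τ := by ring
      rw [e]
      exact h2
  set j := ⌊a / τ⌋₊ with hj
  have h1 : (j:ℝ) ≤ a / τ := Nat.floor_le (by positivity)
  have h2 : a / τ < j + 1 := Nat.lt_floor_add_one _
  rw [le_div_iff₀ hτ0] at h1
  rw [div_lt_iff₀ hτ0] at h2
  have h3 := hstep (j * τ) (by positivity) h1 (hind j h1)
  exact hstep a ha (le_refl a) (h3.mono (by linarith))

end Pool.Agent.Zk27.MB
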