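import Pool.Agent.Zk27.MB.Bas

/-! The rescaled copies -/

open MeasureTheory Set
open scoped ContDiff

namespace Pool.Agent.Zk27.MB

open Pool.Agent.H708R2.EulerSign

section
variable {E : Type*} [NormedAddCommGroup E] [NormedSpace ℝ E]

lemma cp_smooth (M n : ℕ) {f : ℝ × ℝ → E} (hf : ContDiff ℝ ∞ f) : ContDiff ℝ ∞ (cp M n f) := by
  unfold cp
  refine ContDiff.sum fun j _ => contDiff_const.smul ?_
  refine hf.comp (ContDiff.prodMk ?_ ?_)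
  · exact (contDiff_const.mul contDiff_fst).add contDiff_const
  · exact contDiff_const.mul contDiff_snd

/-- a copy is nonzero only near the origin -/
lemma copy_small {M n : ℕ} {j : ℕ} (hj : j ∈ Finset.range (M + 1)) {z : ℝ × ℝ}
    (h : |2 ^ n * z.1 + 8 * j| ≤ 2 ∧ |2 ^ n * z.2| ≤ 2) :
    |z.1| ≤ (8 * M + 2) / 2 ^ n ∧ |z.2| ≤ 2 / 2 ^ n := by
  have h2 : (0:ℝ) < 2 ^ n := by positivity
  have hj' : (j:ℝ) ≤ M := by
    have := Finset.mem_range.1 hj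
    exact_mod_cast Nat.lt_succ_iff.1 this
  have hj0 : (0:ℝ) ≤ j := j.cast_nonneg
  obtain ⟨h1, h3⟩ := h
  constructor
  · have e : |z.1| * 2 ^ n = |2 ^ n * z.1| := by rw [abs_mul, abs_of_pos h2, mul_comm]
    rw [le_div_iff₀ h2, e]
    rw [abs_le] at h1 ⊢
    constructor <;> nlinarith
  · have e : |z.2| * 2 ^ n = |2 ^ n * z.2| := by rw [abs_mul, abs_of_pos h2, mul_comm]
    rw [le_div_iff₀ h2, e]
    exact h3

lemma cp_small {M n : ℕ} {f : ℝ × ℝ → E} (hs : ∀ z, f z ≠ 0 → |z.1| ≤ 2 ∧ |z.2| ≤ 2)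
    {z : ℝ × ℝ} (h : cp M n f z ≠ 0) :
    |z.1| ≤ (8 * M + 2) / 2 ^ n ∧ |z.2| ≤ 2 / 2 ^ n := by
  unfold cp at h
  obtain ⟨j, hj, h1⟩ := Finset.exists_ne_zero_of_sum_ne_zero h
  have h2 : f (2 ^ n * z.1 + 8 * j, 2 ^ n * z.2) ≠ 0 := fun h2 => h1 (by rw [h2, smul_zero])
  exact copy_small hj (hs _ h2)

lemma cp_compact {M n : ℕ} {f : ℝ × ℝ → E} (hs : ∀ z, f z ≠ 0 → |z.1| ≤ 2 ∧ |z.2| ≤ 2) :
    HasCompactSupport (cp M n f) := by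
  refine HasCompactSupport.intro
    ((isCompact_Icc (a := (-((8 * M + 2) / 2 ^ n) : ℝ)) (b := (8 * M + 2) / 2 ^ n)).prod
    (isCompact_Icc (a := (-(2 / 2 ^ n):ℝ)) (b := 2 / 2 ^ n))) fun z hz => ?_
  by_contra h
  have := cp_small hs h
  exact hz ⟨abs_le.1 this.1, abs_le.1 this.2⟩

lemma cp_norm {M n : ℕ} {f : ℝ × ℝ → E} {C : ℝ} (hC : ∀ z, ‖f z‖ ≤ C) (z : ℝ × ℝ) :
    ‖cp M n f z‖ ≤ 2 ^ M * C := by
  unfold cp
  refine (norm_sum_le _ _).trans ?_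
  have h1 : ∀ j ∈ Finset.range (M + 1),
      ‖((-1 : ℝ) ^ j * (M.choose j : ℝ)) • f (2 ^ n * z.1 + 8 * j, 2 ^ n * z.2)‖
        ≤ (M.choose j : ℝ) * C := by
    intro j _
    rw [norm_smul, norm_mul, norm_pow, norm_neg, norm_one, one_pow, one_mul]
    rw [Real.norm_of_nonneg (Nat.cast_nonneg _)]
    exact mul_le_mul_of_nonneg_left (hC _) (Nat.cast_nonneg _)
  refine (Finset.sum_le_sum h1).trans ?_
  rw [← Finset.sum_mul]
  have h2 : ∑ j ∈ Finset.range (M + 1), (M.choose j : ℝ) = 2 ^ M := by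
    have := Nat.sum_range_choose M
    exact_mod_cast this
  rw [h2]

lemma cp_clm {F : Type*} [NormedAddCommGroup F] [NormedSpace ℝ F] (M n : ℕ) (f : ℝ × ℝ → E)
    (L : E →L[ℝ] F) (z : ℝ × ℝ) : L (cp M n f z) = cp M n (fun z => L (f z)) z := by
  unfold cp
  rw [map_sum]
  refine Finset.sum_congr rfl fun j _ => ?_
  rw [map_smul]

end

lemma phi_supp2 (z : ℝ × ℝ) (h : phi z ≠ 0) : |z.1| ≤ 2 ∧ |z.2| ≤ 2 := by
  obtain ⟨a, b, c⟩ := phi_supp h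
  exact ⟨abs_le.2 ⟨by linarith, by linarith⟩, by linarith⟩

lemma ph_smooth (M k : ℕ) : ContDiff ℝ ∞ (ph M k) := by
  unfold ph
  exact contDiff_const.mul (cp_smooth M k phi_smooth)

lemma ph_small {M k : ℕ} {z : ℝ × ℝ} (h : ph M k z ≠ 0) :
    |z.1| ≤ (8 * M + 2) / 2 ^ k ∧ |z.2| ≤ 2 / 2 ^ k := by
  refine cp_small (f := phi) phi_supp2 fun h1 => h ?_
  unfold ph; rw [h1, mul_zero]

lemma ph_compact (M k : ℕ) : HasCompactSupport (ph M k) := by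
  exact (cp_compact (M := M) (n := k) (f := phi) phi_supp2).mul_left (f := fun _ => (4:ℝ) ^ k)

lemma Xf_smooth (M : ℕ) (α q : ℝ) (k : ℕ) : ContDiff ℝ ∞ (Xf M α q k) := by
  have h := (contDiff_const (c := α * q ^ k * (1 / 2) ^ k)).smul (cp_smooth M k V0_smooth)
  exact h

lemma Xf_small {M : ℕ} {α q : ℝ} {k : ℕ} {z : ℝ × ℝ} (h : Xf M α q k z ≠ 0) :
    |z.1| ≤ (8 * M + 2) / 2 ^ k ∧ |z.2| ≤ 2 / 2 ^ k := by
  refine cp_small (f := V0) (fun _ h => V0_supp h) fun h1 => h ?_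
  unfold Xf; rw [h1, smul_zero]

lemma Xf_compact (M : ℕ) (α q : ℝ) (k : ℕ) : HasCompactSupport (Xf M α q k) := by
  exact (cp_compact (M := M) (n := k) (f := V0) (fun _ h => V0_supp h)).smul_left
    (f := fun _ => α * q ^ k * (1 / 2) ^ k)

lemma Xf_fderiv (M : ℕ) (α q : ℝ) (k : ℕ) (z v : ℝ × ℝ) : fderiv ℝ (Xf M α q k) z v =
    (α * q ^ k * (1 / 2) ^ k) • ∑ j ∈ Finset.range (M + 1),
      ((-1 : ℝ) ^ j * (M.choose j : ℝ)) •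
        fderiv ℝ V0 (2 ^ k * z.1 + 8 * j, 2 ^ k * z.2) ((2:ℝ) ^ k • v) := by
  have h : HasFDerivAt (Xf M α q k) ((α * q ^ k * (1 / 2) ^ k) • ∑ j ∈ Finset.range (M + 1),
      ((-1 : ℝ) ^ j * (M.choose j : ℝ)) •
        (fderiv ℝ V0 (2 ^ k * z.1 + 8 * j, 2 ^ k * z.2)).comp
          ((2:ℝ) ^ k • ContinuousLinearMap.id ℝ (ℝ × ℝ))) z := by
    have h0 : ∀ j ∈ Finset.range (M + 1), HasFDerivAt (fun z : ℝ × ℝ =>
        ((-1 : ℝ) ^ j * (M.choose j : ℝ)) • V0 (2 ^ k * z.1 + 8 * j, 2 ^ k * z.2))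
        (((-1 : ℝ) ^ j * (M.choose j : ℝ)) •
        (fderiv ℝ V0 (2 ^ k * z.1 + 8 * j, 2 ^ k * z.2)).comp
          ((2:ℝ) ^ k • ContinuousLinearMap.id ℝ (ℝ × ℝ))) z := ?_
    · exact (HasFDerivAt.fun_sum h0).fun_const_smul _
    intro j _
    refine HasFDerivAt.fun_const_smul ?_ _
    refine HasFDerivAt.comp z
      (V0_smooth.differentiable (by simp) _).hasFDerivAt ?_
    have h1 : HasFDerivAt (fun z : ℝ × ℝ => (2:ℝ) ^ k • z + (8 * (j:ℝ), (0:ℝ)))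
        ((2:ℝ) ^ k • ContinuousLinearMap.id ℝ (ℝ × ℝ)) z :=
      (((hasFDerivAt_id (𝕜 := ℝ) z).fun_const_smul ((2:ℝ) ^ k))).add_const _
    have e : (fun z : ℝ × ℝ => (2:ℝ) ^ k • z + (8 * (j:ℝ), (0:ℝ)))
        = fun z : ℝ × ℝ => (2 ^ k * z.1 + 8 * j, 2 ^ k * z.2) := by
      funext w
      ext <;> simp
    rw [e] at h1
    exact h1
  rw [h.fderiv]
  simp

lemma Xf_div (M : ℕ) (α q : ℝ) (k : ℕ) (z : ℝ × ℝ) :
    (fderiv ℝ (Xf M α q k) z (1, 0)).1 + (fderiv ℝ (Xf M α q k) z (0, 1)).2 = 0 := by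
  rw [Xf_fderiv, Xf_fderiv]
  have e : ∀ (s : Finset ℕ) (c : ℕ → ℝ) (f : ℕ → ℝ × ℝ),
      (∑ j ∈ s, c j • f j).1 = ∑ j ∈ s, c j * (f j).1 := by
    intro s c f
    rw [Prod.fst_sum]; rfl
  have e' : ∀ (s : Finset ℕ) (c : ℕ → ℝ) (f : ℕ → ℝ × ℝ),
      (∑ j ∈ s, c j • f j).2 = ∑ j ∈ s, c j * (f j).2 := by
    intro s c f
    rw [Prod.snd_sum]; rfl
  rw [Prod.smul_fst, Prod.smul_snd, e, e', ← smul_add, ← Finset.sum_add_distrib]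
  rw [Finset.sum_eq_zero, smul_zero]
  intro j _
  rw [← mul_add, map_smul, map_smul, Prod.smul_fst, Prod.smul_snd, ← smul_add, V0_div, smul_zero,
    mul_zero]

lemma Xf_norm (M : ℕ) {α q C : ℝ} (hα : 0 ≤ α) (hq : 0 ≤ q) (k : ℕ) (hC : ∀ z, ‖V0 z‖ ≤ C)
    (z : ℝ × ℝ) : ‖Xf M α q k z‖ ≤ α * 2 ^ M * C * (q / 2) ^ k := by
  unfold Xf
  rw [norm_smul, Real.norm_of_nonneg (by positivity)]
  calc α * q ^ k * (1 / 2) ^ k * ‖cp M k V0 z‖ ≤ α * q ^ k * (1 / 2) ^ k * (2 ^ M * C) :=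
        mul_le_mul_of_nonneg_left (cp_norm hC z) (by positivity)
    _ = α * 2 ^ M * C * (q / 2) ^ k := by rw [div_pow, div_pow, one_pow]; ring

end Pool.Agent.Zk27.MB
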