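import Pool.Agent.Zk27.MB.Defs
import Pool.Agent.R739.ET.Wr

/-! Profiles, blocks and the operator: definitions -/

open MeasureTheory Set
open scoped ContDiff

namespace Pool.Agent.Zk27.MB

open Pool.Agent.H708R2.EulerSign
open Pool.Agent.R739.ET (wr)

/-- a smooth cut-off: `1` on `[-1, 1]`, `0` outside of `(-2, 2)` -/
noncomputable def eta (s : ℝ) : ℝ := Real.smoothTransition (2 - s) * Real.smoothTransition (2 + s)

/-- `s ↦ s` on `[-1, 1]`, cut off -/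
noncomputable def mu (s : ℝ) : ℝ := s * eta s

/-- the derivative of `mu`: `1` on `(-1, 1)` -/
noncomputable def kap (s : ℝ) : ℝ := deriv mu s

/-- the planar hyperbolic flow `(-x, y)`, cut off: divergence free, compact support -/
noncomputable def V0 (z : ℝ × ℝ) : ℝ × ℝ := (-(mu z.1 * kap z.2), kap z.1 * mu z.2)

/-- the bump at `(5/4, 0)` -/
noncomputable def phiB : ContDiffBump ((5 / 4, 0) : ℝ × ℝ) := ⟨1 / 8, 1 / 4, by norm_num, by norm_num⟩

/-- the normalised bump with support `[1, 3/2] × [-1/4, 1/4]` -/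
noncomputable def phi (z : ℝ × ℝ) : ℝ := phiB.normed volume z

/-- `2^{-n}`-rescaled finite difference of `f` -/
noncomputable def cp {E : Type*} [AddCommGroup E] [Module ℝ E] (M n : ℕ) (f : ℝ × ℝ → E)
    (z : ℝ × ℝ) : E :=
  ∑ j ∈ Finset.range (M + 1),
    ((-1 : ℝ) ^ j * (M.choose j : ℝ)) • f (2 ^ n * z.1 + 8 * j, 2 ^ n * z.2)

/-- the planar coordinates of a point of the torus -/
noncomputable def pr (x : V) : ℝ × ℝ := (wr (x 0), wr (x 1))

/-- the block: a periodic field, independent of the third coordinate -/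
noncomputable def blk (M n : ℕ) (f : ℝ × ℝ → V) (x : V) : V := cp M n f (pr x)

/-- the profile of the vertical fields -/
noncomputable def F0 (z : ℝ × ℝ) : V := ![0, 0, phi z]

/-- the profile of the horizontal fields -/
noncomputable def G0 (z : ℝ × ℝ) : V := ![(V0 z).1, (V0 z).2, 0]

/-- the scalar product over a period cell -/
noncomputable def ip (u g : V → V) : ℝ := ∫ x in Dom, ∑ i, u x i * g x i

/-- the operator built on two families of fields with weights `b` -/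
noncomputable def opr (b : ℕ → ℝ) (F G : ℕ → V → V) (u : V → V) (x : V) : V :=
  ∑' n, b n • (ip u (F n) • G n x + ip u (G n) • F n x)

/-- families of divergence free fields at scale `2^{-n}` with `M` vanishing moments -/
structure Blocks (M n₀ : ℕ) (C : ℝ) (F : ℕ → V → V) : Prop where
  smooth : ∀ n, ContDiff ℝ ∞ (F n)
  per : ∀ n, Periodic3 (F n)
  div : ∀ n x, divergence (F n) x = 0
  bound : ∀ n, ∀ k ≤ M + 1, ∀ x, ‖iteratedFDeriv ℝ k (F n) x‖ ≤ C * 2 ^ ((n₀ + n) * k)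
  l2 : ∀ n, ∫ x in Dom, sq3 (F n x) ≤ C ^ 2 * (1 / 4) ^ (n₀ + n)
  mom : ∀ n, ∀ k ≤ M, ∀ (u : V → V) (B : ℝ), ContDiff ℝ k u → Periodic3 u →
    (∀ x, ‖iteratedFDeriv ℝ k u x‖ ≤ B) →
    |ip u (F n)| ≤ C * B * ((1 / 4) ^ (n₀ + n) * (1 / 2) ^ ((n₀ + n) * k))

/-- an operator of small norm `ε` on `L²` and on `C^k` for `k ≤ M`, which gains `1 - δ`
derivatives -/
structure IsSmall (M : ℕ) (ε δ : ℝ) (T : (V → V) → V → V) : Prop where
  per : ∀ u, Continuous u → Periodic3 u → Periodic3 (T u)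
  add : ∀ u w, Continuous u → Periodic3 u → Continuous w → Periodic3 w →
    T (fun x => u x + w x) = fun x => T u x + T w x
  smul : ∀ (a : ℝ) u, Continuous u → Periodic3 u → T (fun x => a • u x) = fun x => a • T u x
  symm : ∀ u w, Continuous u → Periodic3 u → Continuous w → Periodic3 w → ip (T u) w = ip u (T w)
  div : ∀ u, ContDiff ℝ 1 u → Periodic3 u → ∀ x, divergence (T u) x = 0
  l2 : ∀ u, Continuous u → Periodic3 u →
    ∫ x in Dom, sq3 (T u x) ≤ ε ^ 2 * ∫ x in Dom, sq3 (u x)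
  ck : ∀ k ≤ M, ∀ u (B : ℝ), ContDiff ℝ k u → Periodic3 u → (∀ x, ‖iteratedFDeriv ℝ k u x‖ ≤ B) →
    ContDiff ℝ k (T u) ∧ (∀ x, ‖iteratedFDeriv ℝ k (T u) x‖ ≤ ε * B) ∧
    ∀ x y, ‖iteratedFDeriv ℝ k (T u) x - iteratedFDeriv ℝ k (T u) y‖ ≤ ε * B * ‖x - y‖ ^ (1 - δ)

/-- `(Z, Y)` is the flow (with its inverse) of the planar field
`∑_{k ∈ s} (∫ φ_k w₀(Y_t)) X_k` -/
structure IsFlow (s : Finset ℕ) (X : ℕ → ℝ × ℝ → ℝ × ℝ) (φ : ℕ → ℝ × ℝ → ℝ) (w₀ : ℝ × ℝ → ℝ)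
    (Z Y : ℝ → ℝ × ℝ → ℝ × ℝ) : Prop where
  smoothZ : ContDiff ℝ ∞ (fun q : ℝ × (ℝ × ℝ) => Z q.1 q.2)
  smoothY : ContDiff ℝ ∞ (fun q : ℝ × (ℝ × ℝ) => Y q.1 q.2)
  zero : ∀ p, Z 0 p = p
  left : ∀ t p, Z t (Y t p) = p
  right : ∀ t p, Y t (Z t p) = p
  ode : ∀ t p, HasDerivAt (fun t => Z t p)
        (∑ k ∈ s, (∫ x, φ k x * w₀ (Y t x)) • X k (Z t p)) t

/-- the planar fields of the cascade -/
noncomputable def Xf (M : ℕ) (α q : ℝ) (k : ℕ) (z : ℝ × ℝ) : ℝ × ℝ :=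
  (α * q ^ k * (1 / 2) ^ k) • cp M k V0 z

/-- the averaging functions of the cascade -/
noncomputable def ph (M : ℕ) (k : ℕ) (z : ℝ × ℝ) : ℝ := 4 ^ k * cp M k phi z

end Pool.Agent.Zk27.MB
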