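import Pool.Agent.Zk27.MB.Dyn

/-! Second version: the number of vanishing moments grows with the scale -/

open MeasureTheory Set
open scoped ContDiff

namespace Pool.Agent.Zk27.MB

open Pool.Agent.H708R2.EulerSign

/-- families of divergence free fields at scale `2^{-n}` with `n / D` vanishing moments -/
structure Blocks2 (D n₀ : ℕ) (F : ℕ → V → V) : Prop where
  smooth : ∀ n, ContDiff ℝ ∞ (F n)
  per : ∀ n, Periodic3 (F n)
  div : ∀ n x, divergence (F n) x = 0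
  bound : ∀ k : ℕ, ∃ C > 0, ∀ n x,
    ‖iteratedFDeriv ℝ k (F n) x‖ ≤ C * 2 ^ ((n₀ + n) / D) * 2 ^ ((n₀ + n) * k)
  l2 : ∃ C > 0, ∀ n, ∫ x in Dom, sq3 (F n x) ≤ C ^ 2 * 4 ^ ((n₀ + n) / D) * (1 / 4) ^ (n₀ + n)
  mom : ∀ k : ℕ, ∃ C > 0, ∀ n, ∀ (u : V → V) (B : ℝ), ContDiff ℝ k u → Periodic3 u →
    (∀ j ≤ k, ∀ x, ‖iteratedFDeriv ℝ j u x‖ ≤ B) →
    |ip u (F n)| ≤ C * B * 2 ^ ((n₀ + n) / D) * ((1 / 4) ^ (n₀ + n) * (1 / 2) ^ ((n₀ + n) * k))

/-- `T` is linear, symmetric, bounded on `L²`, with divergence free values, and gains `1 - δ`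
derivatives on every space `C^k` -/
structure IsOrd (δ : ℝ) (T : (V → V) → V → V) : Prop where
  per : ∀ u, Continuous u → Periodic3 u → Periodic3 (T u)
  add : ∀ u w, Continuous u → Periodic3 u → Continuous w → Periodic3 w →
    T (fun x => u x + w x) = fun x => T u x + T w x
  smul : ∀ (a : ℝ) u, Continuous u → Periodic3 u → T (fun x => a • u x) = fun x => a • T u x
  symm : ∀ u w, Continuous u → Periodic3 u → Continuous w → Periodic3 w → ip (T u) w = ip u (T w)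
  div : ∀ u, ContDiff ℝ 1 u → Periodic3 u → ∀ x, divergence (T u) x = 0
  l2 : ∃ C > 0, ∀ u, Continuous u → Periodic3 u →
    ∫ x in Dom, sq3 (T u x) ≤ C ^ 2 * ∫ x in Dom, sq3 (u x)
  ck : ∀ k : ℕ, ∃ C > 0, ∀ u (B : ℝ), ContDiff ℝ k u → Periodic3 u →
    (∀ j ≤ k, ∀ x, ‖iteratedFDeriv ℝ j u x‖ ≤ B) →
    ContDiff ℝ k (T u) ∧ (∀ x, ‖iteratedFDeriv ℝ k (T u) x‖ ≤ C * B) ∧
    ∀ x y, ‖iteratedFDeriv ℝ k (T u) x - iteratedFDeriv ℝ k (T u) y‖ ≤ C * B * ‖x - y‖ ^ (1 - δ)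

/-- the planar fields of the cascade -/
noncomputable def Xg (D : ℕ) (α q : ℝ) (k : ℕ) : ℝ × ℝ → ℝ × ℝ := Xf (k / D) α q k

/-- the averaging functions of the cascade -/
noncomputable def pg (D : ℕ) (k : ℕ) : ℝ × ℝ → ℝ := ph (k / D) k

end Pool.Agent.Zk27.MB
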