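import Pool.Agent.Zk27.MB.Dyn

/-! Third version: uniformly bounded coefficients, general weights, sharp modulus of continuity -/

open MeasureTheory Set
open scoped ContDiff

namespace Pool.Agent.Zk27.MB

open Pool.Agent.H708R2.EulerSign

/-- the nodes `0, 2, 4, 8, …` -/
noncomputable def node (j : ℕ) : ℝ := if j = 0 then 0 else 2 ^ j

/-- the coefficients `c_0 = 1`, `c_j = - L_j(0)` (Lagrange basis for the nodes `2, 4, …, 2^M`) -/
noncomputable def coef (M j : ℕ) : ℝ :=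
  if j = 0 then 1 else -∏ i ∈ (Finset.Icc 1 M).erase j, node i / (node i - node j)

/-- the rescaled combination of copies of `f` at the scale `2^{-n}` with `n / 4` vanishing
moments in the first variable -/
noncomputable def cl {E : Type*} [AddCommGroup E] [Module ℝ E] (n : ℕ) (f : ℝ × ℝ → E)
    (z : ℝ × ℝ) : E :=
  ∑ j ∈ Finset.range (n / 4 + 1), coef (n / 4) j • f (2 ^ n * z.1 + 8 * node j, 2 ^ n * z.2)

/-- the block: a periodic field, independent of the third coordinate -/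
noncomputable def bl (n : ℕ) (f : ℝ × ℝ → V) (x : V) : V := cl n f (pr x)

/-- families of divergence free fields at scale `2^{-n}` with many vanishing moments -/
structure Blocks3 (n₀ : ℕ) (F : ℕ → V → V) : Prop where
  smooth : ∀ n, ContDiff ℝ ∞ (F n)
  per : ∀ n, Periodic3 (F n)
  div : ∀ n x, divergence (F n) x = 0
  bound : ∀ k : ℕ, ∃ C > 0, ∀ n x, ‖iteratedFDeriv ℝ k (F n) x‖ ≤ C * 2 ^ ((n₀ + n) * k)
  l2 : ∃ C > 0, ∀ n, ∫ x in Dom, sq3 (F n x) ≤ C ^ 2 * (1 / 4) ^ (n₀ + n)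
  mom : ∀ k : ℕ, ∃ C > 0, ∀ n, ∀ (u : V → V) (B : ℝ), ContDiff ℝ k u → Periodic3 u →
    (∀ j ≤ k, ∀ x, ‖iteratedFDeriv ℝ j u x‖ ≤ B) →
    |ip u (F n)| ≤ C * B * ((1 / 4) ^ (n₀ + n) * (1 / 2) ^ ((n₀ + n) * k))

/-- `T` is linear, symmetric, bounded on `L²`, with divergence free values, bounded on every `C^k`,
and the derivatives of order `k` of `T u` have the modulus of continuity `om` if `u` is `C^k` -/
structure IsReg (om : ℝ → ℝ) (T : (V → V) → V → V) : Prop where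
  per : ∀ u, Continuous u → Periodic3 u → Periodic3 (T u)
  add : ∀ u w, Continuous u → Periodic3 u → Continuous w → Periodic3 w →
    T (fun x => u x + w x) = fun x => T u x + T w x
  smul : ∀ (a : ℝ) u, Continuous u → Periodic3 u → T (fun x => a • u x) = fun x => a • T u x
  symm : ∀ u w, Continuous u → Periodic3 u → Continuous w → Periodic3 w → ip (T u) w = ip u (T w)
  div : ∀ u, ContDiff ℝ 1 u → Periodic3 u → ∀ x, divergence (T u) x = 0
  l2 : ∃ C > 0, ∀ u, Continuous u → Periodic3 u →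
    ∫ x in Dom, sq3 (T u x) ≤ C ^ 2 * ∫ x in Dom, sq3 (u x)
  ck : ∀ k : ℕ, ∃ C > 0, ∀ u (B : ℝ), ContDiff ℝ k u → Periodic3 u →
    (∀ j ≤ k, ∀ x, ‖iteratedFDeriv ℝ j u x‖ ≤ B) →
    ContDiff ℝ k (T u) ∧ (∀ x, ‖iteratedFDeriv ℝ k (T u) x‖ ≤ C * B) ∧
    ∀ x y, x ≠ y →
      ‖iteratedFDeriv ℝ k (T u) x - iteratedFDeriv ℝ k (T u) y‖ ≤ C * B * om ‖x - y‖

/-- a modulus of continuity for which Osgood's condition fails -/
structure NonOsgood (om : ℝ → ℝ) : Prop where
  pos : ∀ r, 0 < r → 0 < om r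
  mono : ∀ r s, 0 < r → r ≤ s → om r ≤ om s
  anti : ∀ r s, 0 < r → r ≤ s → om s / s ≤ om r / r
  int : IntegrableOn (fun r => 1 / om r) (Ioc 0 1)

end Pool.Agent.Zk27.MB
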