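import Pool.Agent.H708R2.EulerSign.Uniq

/-! Euler-type equations with a transporting velocity `u + T u`: definitions -/

open MeasureTheory Set
open scoped ContDiff

namespace Pool.Agent.Zk27.MB

open Pool.Agent.H708R2.EulerSign

/-- `(u, q)` is a classical solution, for the times in `I`, of
`∂ₜ u + (curl u) × (u + T u) + ∇ q = 0`, `div u = 0` on `𝕋³`. -/
structure IsModSol (T : (V → V) → V → V) (I : Set ℝ) (u : ℝ → V → V) (q : ℝ → V → ℝ) : Prop where
  contDiffOn_u : ContDiffOn ℝ 1 (fun z : ℝ × V => u z.1 z.2) (I ×ˢ univ)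
  contDiffOn_q : ContDiffOn ℝ 1 (fun z : ℝ × V => q z.1 z.2) (I ×ˢ univ)
  periodic_u : ∀ t ∈ I, Periodic3 (u t)
  periodic_q : ∀ t ∈ I, Periodic3 (q t)
  div_free : ∀ t ∈ I, ∀ x, divergence (u t) x = 0
  momentum : ∀ t ∈ I, ∀ x i,
    derivWithin (fun s => u s x i) I t
      + ∑ j, (u t x j + T (u t) x j) *
          (fderiv ℝ (u t) x (Pi.single j 1) i - fderiv ℝ (u t) x (Pi.single i 1) j)
      + fderiv ℝ (q t) x (Pi.single i 1) = 0

/-- What is needed of the operator `T` for the uniqueness of classical solutions. -/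
structure IsOp (T : (V → V) → V → V) (C : ℝ) : Prop where
  cont : ∀ u, Continuous u → Periodic3 u → Continuous (T u) ∧ Periodic3 (T u)
  sub : ∀ u w, Continuous u → Periodic3 u → Continuous w → Periodic3 w →
    T (fun x => u x - w x) = fun x => T u x - T w x
  l2 : ∀ u, Continuous u → Periodic3 u →
    ∫ x in Dom, sq3 (T u x) ≤ C ^ 2 * ∫ x in Dom, sq3 (u x)
  c1 : ∀ u (B : ℝ), ContDiff ℝ 1 u → Periodic3 u → (∀ x, ‖u x‖ ≤ B) → (∀ x, ‖fderiv ℝ u x‖ ≤ B) →
    ContDiff ℝ 1 (T u) ∧ ∀ x, ‖fderiv ℝ (T u) x‖ ≤ C * B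
  div : ∀ u, ContDiff ℝ 1 u → Periodic3 u → ∀ x, divergence (T u) x = 0

end Pool.Agent.Zk27.MB
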