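import Pool.Agent.Zk27.MB.Cp

/-! The planar flows: transport, supports, displacement -/

open MeasureTheory Set
open scoped ContDiff

namespace Pool.Agent.Zk27.MB

open Pool.Agent.H708R2.EulerSign

/-- the planar velocity -/
noncomputable def vel (s : Finset ℕ) (X : ℕ → ℝ × ℝ → ℝ × ℝ) (φ : ℕ → ℝ × ℝ → ℝ) (w₀ : ℝ × ℝ → ℝ)
    (Y : ℝ → ℝ × ℝ → ℝ × ℝ) (t : ℝ) (z : ℝ × ℝ) : ℝ × ℝ :=
  ∑ k ∈ s, (∫ x, φ k x * w₀ (Y t x)) • X k z

variable {s : Finset ℕ} {X : ℕ → ℝ × ℝ → ℝ × ℝ} {φ : ℕ → ℝ × ℝ → ℝ} {w₀ : ℝ × ℝ → ℝ}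
  {Z Y : ℝ → ℝ × ℝ → ℝ × ℝ}

lemma IsFlow.hasDerivAt_Z (h : IsFlow s X φ w₀ Z Y) (t : ℝ) (p : ℝ × ℝ) :
    HasDerivAt (fun t => Z t p) (vel s X φ w₀ Y t (Z t p)) t := h.ode t p

lemma IsFlow.zero' (h : IsFlow s X φ w₀ Z Y) (p : ℝ × ℝ) : Y 0 p = p := by
  have := h.right 0 p
  rwa [h.zero] at this

lemma IsFlow.smoothYt (h : IsFlow s X φ w₀ Z Y) (t : ℝ) : ContDiff ℝ ∞ (Y t) :=
  h.smoothY.comp (contDiff_const.prodMk contDiff_id)

lemma IsFlow.smoothZt (h : IsFlow s X φ w₀ Z Y) (t : ℝ) : ContDiff ℝ ∞ (Z t) :=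
  h.smoothZ.comp (contDiff_const.prodMk contDiff_id)

lemma IsFlow.hasDerivAt_Y (h : IsFlow s X φ w₀ Z Y) (t : ℝ) (z : ℝ × ℝ) :
    HasDerivAt (fun t => Y t z) (-(fderiv ℝ (Y t) z (vel s X φ w₀ Y t z))) t := by
  set F : ℝ × (ℝ × ℝ) → ℝ × ℝ := fun q => Y q.1 q.2 with hF
  have hFd : HasFDerivAt F (fderiv ℝ F (t, z)) (t, z) :=
    (h.smoothY.differentiable (by simp) (t, z)).hasFDerivAt
  have h1 : HasDerivAt (fun r => Y r z) (fderiv ℝ F (t, z) (1, 0)) t := by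
    have h2 : HasDerivAt (fun r : ℝ => (r, z)) (1, 0) t :=
      (hasDerivAt_id t).prodMk (hasDerivAt_const t z)
    exact HasFDerivAt.comp_hasDerivAt (f := fun r : ℝ => (r, z)) t hFd h2
  have h3 : ∀ v, fderiv ℝ (Y t) z v = fderiv ℝ F (t, z) (0, v) := by
    intro v
    have h4 : HasFDerivAt (Y t) ((fderiv ℝ F (t, z)).comp (ContinuousLinearMap.inr ℝ ℝ (ℝ × ℝ))) z :=
      HasFDerivAt.comp (g := F) (f := fun y => (t, y)) z hFd (hasFDerivAt_prodMk_right t z)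
    rw [h4.fderiv]
    rfl
  have h5 : fderiv ℝ F (t, z) (1, vel s X φ w₀ Y t z) = 0 := by
    have h6 : HasDerivAt (fun r : ℝ => (r, Z r (Y t z))) (1, vel s X φ w₀ Y t (Z t (Y t z))) t :=
      (hasDerivAt_id t).prodMk (h.hasDerivAt_Z t (Y t z))
    rw [h.left] at h6
    have h7 : HasFDerivAt F (fderiv ℝ F (t, z)) ((fun r : ℝ => (r, Z r (Y t z))) t) := by
      simp only [h.left]; exact hFd
    have h8 := HasFDerivAt.comp_hasDerivAt t h7 h6
    have h9 : (F ∘ fun r : ℝ => (r, Z r (Y t z))) = fun _ => Y t z := by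
      funext r
      simp only [Function.comp, hF, h.right]
    rw [h9] at h8
    exact h8.unique (hasDerivAt_const t _)
  rw [h3]
  have e : ((1 : ℝ), vel s X φ w₀ Y t z) = (1, 0) + (0, vel s X φ w₀ Y t z) := by simp
  rw [e, map_add] at h5
  rw [← eq_neg_of_add_eq_zero_left h5]
  exact h1

/-- the transport equation -/
lemma IsFlow.transport (h : IsFlow s X φ w₀ Z Y) (hw : ContDiff ℝ ∞ w₀) (t : ℝ) (z : ℝ × ℝ) :
    HasDerivAt (fun t => w₀ (Y t z)) (-(fderiv ℝ (fun y => w₀ (Y t y)) z (vel s X φ w₀ Y t z))) t := by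
  have h1 : HasFDerivAt w₀ (fderiv ℝ w₀ (Y t z)) (Y t z) :=
    (hw.differentiable (by simp) _).hasFDerivAt
  have h2 := HasFDerivAt.comp_hasDerivAt t h1 (h.hasDerivAt_Y t z)
  have h3 : fderiv ℝ (fun y => w₀ (Y t y)) z = (fderiv ℝ w₀ (Y t z)).comp (fderiv ℝ (Y t) z) :=
    (HasFDerivAt.comp z h1 ((h.smoothYt t).differentiable (by simp) z).hasFDerivAt).fderiv
  rw [h3]
  rw [map_neg] at h2
  exact h2

/-- the flow is the identity where all fields vanish -/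
lemma IsFlow.fix (h : IsFlow s X φ w₀ Z Y) {z : ℝ × ℝ} (hz : ∀ k ∈ s, X k z = 0) (t : ℝ) :
    Y t z = z := by
  have h1 : ∀ t, HasDerivAt (fun t => Y t z) 0 t := by
    intro t
    have h2 := h.hasDerivAt_Y t z
    have h3 : vel s X φ w₀ Y t z = 0 := by
      unfold vel
      exact Finset.sum_eq_zero fun k hk => by rw [hz k hk, smul_zero]
    rw [h3, map_zero, neg_zero] at h2
    exact h2
  have h4 := is_const_of_deriv_eq_zero (f := fun t => Y t z)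
    (fun t => (h1 t).differentiableAt) (fun t => (h1 t).deriv) t 0
  rw [h4, h.zero']

/-- displacement is bounded by the maximal speed -/
lemma IsFlow.disp (h : IsFlow s X φ w₀ Z Y) {C : ℝ} (hC : ∀ t z, ‖vel s X φ w₀ Y t z‖ ≤ C)
    (t r : ℝ) (p : ℝ × ℝ) : ‖Z t p - Z r p‖ ≤ C * |t - r| := by
  have := convex_univ.norm_image_sub_le_of_norm_hasDerivWithin_le (f := fun t => Z t p)
    (f' := fun t => vel s X φ w₀ Y t (Z t p)) (C := C) (x := r) (y := t)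
    (fun t _ => (h.hasDerivAt_Z t p).hasDerivWithinAt) (fun t _ => hC t _) (mem_univ _) (mem_univ _)
  rwa [Real.norm_eq_abs] at this

/-- if the speed at `z` is at most `L ‖z‖` for the times in `[0, t]`, then points do not approach
the origin faster than exponentially -/
lemma IsFlow.expBound (h : IsFlow s X φ w₀ Z Y) {L t : ℝ} (ht : 0 ≤ t)
    (hL : ∀ r ∈ Icc 0 t, ∀ z, ‖vel s X φ w₀ Y r z‖ ≤ L * ‖z‖) (p : ℝ × ℝ) :
    ‖p‖ ≤ ‖Z t p‖ * Real.exp (L * t) := by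
  have h1 : ∀ σ ∈ Icc (0:ℝ) t, HasDerivAt (fun σ => Z (t - σ) p) (-(vel s X φ w₀ Y (t - σ) (Z (t - σ) p))) σ := by
    intro σ _
    have h2 := (h.hasDerivAt_Z (t - σ) p).scomp σ ((hasDerivAt_id σ).const_sub t)
    simp only [neg_smul, one_smul] at h2
    exact h2
  have h3 := norm_le_gronwallBound_of_norm_deriv_right_le (f := fun σ => Z (t - σ) p)
    (f' := fun σ => -(vel s X φ w₀ Y (t - σ) (Z (t - σ) p))) (δ := ‖Z t p‖) (K := L) (ε := 0)
    (a := 0) (b := t) (fun σ hσ => (h1 σ hσ).continuousAt.continuousWithinAt)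
    (fun σ hσ => (h1 σ (Ico_subset_Icc_self hσ)).hasDerivWithinAt) (by simp)
    (fun σ hσ => by
      rw [norm_neg, add_zero]
      exact hL _ ⟨by linarith [hσ.2], by linarith [hσ.1]⟩ _) t ⟨ht, le_refl t⟩
  simp only [sub_self, sub_zero, h.zero] at h3
  rw [gronwallBound_ε0] at h3
  exact h3

end Pool.Agent.Zk27.MB
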