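import Pool.Agent.Zk20.FR.C

/-! The front lemma (module FR, helper20) -/

set_option autoImplicit false

open MeasureTheory Set
open scoped ContDiff

namespace Pool.Agent.Zk27.MB

open Pool.Agent.Zk20.FR

/-- `w = 1` in the cone `|y| ≤ x / 2` for `2^{-n} ≤ x ≤ 3/8` at the times in `[t_n, T]` -/
def Cl (w₀ : ℝ × ℝ → ℝ) (Y : ℝ → ℝ × ℝ → ℝ × ℝ) (T : ℝ) (tt : ℕ → ℝ) (n : ℕ) : Prop :=
  ∀ s, 0 ≤ s → s ≤ T → tt n ≤ s → ∀ z : ℝ × ℝ, (1 / 2) ^ n ≤ z.1 → z.1 ≤ 3 / 8 → |z.2| ≤ z.1 / 2 →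
    w₀ (Y s z) = 1

/-- the step of the induction -/
theorem cl_step {M n₀ N : ℕ} (hn₀ : 2 ≤ n₀) {α q K : ℝ} (hα : 0 < α) (hq1 : 1 < q)
    (hK : ∀ s, |kap s| ≤ K) (hqK : 2 * (K * (1 + q) + 1) ≤ 1 / (q - 1))
    {w₀ : ℝ × ℝ → ℝ} (h01 : ∀ z, 0 ≤ w₀ z ∧ w₀ z ≤ 1) {r₀ : ℝ} (hr : 0 < r₀)
    (hs : ∀ z, w₀ z ≠ 0 → r₀ ≤ z.1) {Z Y : ℝ → ℝ × ℝ → ℝ × ℝ}
    (hF : IsFlow (Finset.Icc n₀ N) (Xf M α q) (ph M) w₀ Z Y) {T : ℝ} {tt : ℕ → ℝ} {n nb : ℕ}
    (hn : n₀ ≤ n) (hN : n + 1 ≤ N) (hbig : 2 * q ^ n₀ ≤ q ^ (n + 1))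
    (htt : tt (n + 1) = tt n + Real.log 2 / (α * q ^ n))
    (htt0 : nb ≤ n → 0 ≤ tt n)
    (hw1 : ∀ z : ℝ × ℝ, (1 / 2) ^ nb ≤ z.1 → z.1 ≤ 1 / 2 → |z.2| ≤ 1 / 2 → w₀ z = 1)
    (hC : Cl w₀ Y T tt n) : Cl w₀ Y T tt (n + 1) := by
  intro s hs0 hsT hts z hz1 hz2 hz3
  have hq0 : 0 < q := by linarith
  have hK0 : 0 ≤ K := (abs_nonneg _).trans (hK 0)
  have hlam : 0 < α * q ^ n := by positivity
  have hlog : 0 < Real.log 2 := Real.log_pos (by norm_num)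
  have hτ : 0 < Real.log 2 / (α * q ^ n) := by positivity
  have hb4 : ((1 : ℝ) / 2) ^ n ≤ 1 / 4 := by
    calc ((1 : ℝ) / 2) ^ n ≤ (1 / 2) ^ 2 := pow_le_pow_of_le_one (by norm_num) (by norm_num) (by omega)
      _ = 1 / 4 := by norm_num
  have hb0 : (0 : ℝ) < (1 / 2) ^ n := by positivity
  have hbs : ((1 : ℝ) / 2) ^ (n + 1) = (1 / 2) ^ n / 2 := by ring
  rcases le_or_gt ((1 / 2) ^ n) z.1 with hcase | hcase
  · exact hC s hs0 hsT (by linarith) z hcase hz2 hz3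
  set f : ℝ → ℝ × ℝ := fun t => Z t (Y s z) with hf
  have hfs : f s = z := hF.left s z
  set m : ℝ := max 0 (s - Real.log 2 / (α * q ^ n)) with hm
  have hm0 : 0 ≤ m := le_max_left _ _
  have hms : m ≤ s := max_le hs0 (by linarith)
  have hmt : tt n ≤ m := le_trans (by linarith) (le_max_right _ _)
  have hone : ∀ t ∈ Icc m s, ∀ k ∈ Finset.Icc n₀ N, k ≤ n → cc M w₀ Y k t = 1 := by
    intro t ht k hk hkn
    refine cc_one hα.le hq0.le hK h01 hr hs hF k (hm0.trans ht.1) fun y h1 h2 h3 => ?_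
    have h2k : (0 : ℝ) < 2 ^ k := by positivity
    have hk0 : n₀ ≤ k := (Finset.mem_Icc.mp hk).1
    have hhk := half_pow_mul k
    have e1 : ((1 : ℝ) / 2) ^ k < y.1 := by
      have : (1 / 2 : ℝ) ^ k * 1 < (1 / 2) ^ k * (2 ^ k * y.1) := mul_lt_mul_of_pos_left h1 (by positivity)
      rw [← mul_assoc, hhk] at this
      linarith
    have e2 : y.1 < 3 / 2 * (1 / 2 : ℝ) ^ k := by
      have : (1 / 2 : ℝ) ^ k * (2 ^ k * y.1) < (1 / 2) ^ k * (3 / 2) := mul_lt_mul_of_pos_left h2 (by positivity)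
      rw [← mul_assoc, hhk] at this
      linarith
    have e3 : |y.2| < 1 / 4 * (1 / 2 : ℝ) ^ k := by
      rw [abs_mul, abs_of_pos h2k] at h3
      have : (1 / 2 : ℝ) ^ k * (2 ^ k * |y.2|) < (1 / 2) ^ k * (1 / 4) := mul_lt_mul_of_pos_left h3 (by positivity)
      rw [← mul_assoc, hhk] at this
      linarith
    have e4 : ((1 : ℝ) / 2) ^ k ≤ 1 / 4 := by
      calc ((1 : ℝ) / 2) ^ k ≤ (1 / 2) ^ 2 := pow_le_pow_of_le_one (by norm_num) (by norm_num) (by omega)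
        _ = 1 / 4 := by norm_num
    have e5 : ((1 : ℝ) / 2) ^ n ≤ (1 / 2) ^ k := pow_le_pow_of_le_one (by norm_num) (by norm_num) hkn
    exact hC t (hm0.trans ht.1) (ht.2.trans hsT) (hmt.trans ht.1) y (by linarith) (by linarith) (by linarith)
  have hd1 : ∀ t, HasDerivAt (fun t => (f t).1)
      (∑ k ∈ Finset.Icc n₀ N, cc M w₀ Y k t * (Xf M α q k (f t)).1) t := fun t => ode_fst hF t _
  have hd2 : ∀ t, HasDerivAt (fun t => (f t).2)
      (∑ k ∈ Finset.Icc n₀ N, cc M w₀ Y k t * (Xf M α q k (f t)).2) t := fun t => ode_snd hF t _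
  have hU : ∀ t ∈ Icc m s, (1 / 2) ^ n / 4 < (f t).1 → (f t).1 < (1 / 2) ^ n → |(f t).2| < (f t).1 →
      (∑ k ∈ Finset.Icc n₀ N, cc M w₀ Y k t * (Xf M α q k (f t)).1) ≤ -(α * q ^ n * (f t).1) ∧
      0 ≤ (f t).2 * (∑ k ∈ Finset.Icc n₀ N, cc M w₀ Y k t * (Xf M α q k (f t)).2) := by
    intro t ht h1 h2 h3
    have ht0 : 0 ≤ t := hm0.trans ht.1
    have hterm := fun k (hk : k ∈ Finset.Icc n₀ N) => term_strip (M := M) (n := n) (k := k) hα.le hq0.le hK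
      (cc_nonneg hα.le hq0.le hK h01 hr hs hF k ht0) (cc_le_one hα.le hq0.le hK h01 hr hs hF k ht0)
      (hone t ht k hk) (z := f t) (by linarith) h2 h3
    have hsum := sum_gg hK0 hq1 hqK hn (by omega : n ≤ N) hbig
    have hx : 0 < (f t).1 := by linarith
    constructor
    · refine (Finset.sum_le_sum fun k hk => (hterm k hk).1).trans ?_
      rw [Finset.sum_neg_distrib, ← Finset.sum_mul, ← Finset.mul_sum]
      have : α * q ^ n * (f t).1 ≤ α * (∑ k ∈ Finset.Icc n₀ N, gg K q n k) * (f t).1 :=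
        mul_le_mul_of_nonneg_right (mul_le_mul_of_nonneg_left hsum hα.le) hx.le
      linarith
    · rw [Finset.mul_sum]
      refine le_trans ?_ (Finset.sum_le_sum fun k hk => (hterm k hk).2)
      rw [← Finset.sum_mul, ← Finset.mul_sum]
      have : 0 ≤ ∑ k ∈ Finset.Icc n₀ N, gg K q n k := le_trans (by positivity) hsum
      positivity
  have c1 : Continuous (fun t => (f t).1) := continuous_iff_continuousAt.mpr fun t => (hd1 t).continuousAt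
  have hYr : ∀ t, Y t (f t) = Y s z := fun t => hF.right t _
  by_cases hex : ∃ t ∈ Icc m s, (1 / 2) ^ n ≤ (f t).1
  · obtain ⟨t1, ht1, ht1'⟩ := hex
    have hcomp : IsCompact (Icc m s ∩ {t | (1 / 2) ^ n ≤ (f t).1}) :=
      isCompact_Icc.inter_right (isClosed_le continuous_const c1)
    obtain ⟨t2, ⟨ht2, ht2'⟩, hgr⟩ := hcomp.exists_isGreatest ⟨t1, ht1, ht1'⟩
    have ht2'' : (1 / 2) ^ n ≤ (f t2).1 := ht2'
    have hlt : ∀ t ∈ Ioc t2 s, (f t).1 < (1 / 2) ^ n := by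
      intro t ht
      by_contra hcon
      push Not at hcon
      have := hgr ⟨⟨ht2.1.trans ht.1.le, ht.2⟩, hcon⟩
      linarith [ht.1]
    obtain ⟨t3, ht3, ht3'⟩ := intermediate_value_Icc' ht2.2 c1.continuousOn
      (show (1 / 2) ^ n ∈ Icc (f s).1 (f t2).1 from ⟨by rw [hfs]; exact hcase.le, ht2''⟩)
    have h32 : t3 = t2 := by
      refine le_antisymm (hgr ⟨⟨ht2.1.trans ht3.1, ht3.2⟩, ?_⟩) ht3.1
      simp only at ht3'
      exact ht3'.symm.le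
    rw [h32] at ht3'
    simp only at ht3'
    obtain ⟨g1, g2⟩ := strip (m := t2) (s := s) hlam.le hb0 hd1 hd2
      (fun t ht => hU t ⟨ht2.1.trans ht.1, ht.2⟩) (by rw [hfs]; linarith) (by rw [hfs]; exact hz3) hlt
      t2 ⟨le_rfl, ht2.2⟩
    rw [hfs] at g2
    have := hC t2 (hm0.trans ht2.1) (ht2.2.trans hsT) (hmt.trans ht2.1) (f t2) ht2''
      (by rw [ht3']; linarith) (by rw [ht3']; linarith)
    rw [hYr] at this
    exact this
  · push Not at hex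
    obtain ⟨g1, g2⟩ := strip (m := m) (s := s) hlam.le hb0 hd1 hd2 hU (by rw [hfs]; linarith)
      (by rw [hfs]; exact hz3) (fun t ht => hex t ⟨ht.1.le, ht.2⟩) m ⟨le_rfl, hms⟩
    rw [hfs] at g1 g2
    have hxm := hex m ⟨le_rfl, hms⟩
    have hz0 : 0 < z.1 := by linarith
    rcases le_or_gt 0 (s - Real.log 2 / (α * q ^ n)) with hc | hc
    · exfalso
      have hm' : m = s - Real.log 2 / (α * q ^ n) := max_eq_right hc
      have e1 : α * q ^ n * (s - m) = Real.log 2 := by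
        rw [hm', sub_sub_cancel]; field_simp
      rw [e1, Real.exp_log (by norm_num)] at g1
      linarith
    · have hm' : m = 0 := max_eq_left hc.le
      have hf0 : f m = Y s z := by rw [hm', hf]; exact hF.zero _
      rw [← hf0]
      have hnb : n + 1 ≤ nb := by
        by_contra hcon
        have := htt0 (by omega)
        linarith
      have e1 : 1 ≤ Real.exp (α * q ^ n * (s - m)) := Real.one_le_exp (mul_nonneg hlam.le (by linarith))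
      have e2 : z.1 ≤ (f m).1 := by
        calc z.1 = z.1 * 1 := (mul_one _).symm
          _ ≤ z.1 * Real.exp (α * q ^ n * (s - m)) := mul_le_mul_of_nonneg_left e1 hz0.le
          _ ≤ _ := g1
      have e3 : ((1 : ℝ) / 2) ^ nb ≤ (1 / 2) ^ (n + 1) :=
        pow_le_pow_of_le_one (by norm_num) (by norm_num) hnb
      exact hw1 _ (by linarith) (by linarith) (by linarith)

/-- **The front lemma.** -/
theorem front (M n₀ : ℕ) (hn₀ : 8 * M + 2 < 2 ^ n₀) (α q K : ℝ) (hα : 0 < α) (hq1 : 1 < q)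
    (hq2 : q < 2) (hK : ∀ s, |kap s| ≤ K) (hqK : 2 * (K * (1 + q) + 1) ≤ 1 / (q - 1)) :
    ∃ (w₀ : ℝ × ℝ → ℝ) (r₀ T₁ : ℝ), ContDiff ℝ ∞ w₀ ∧ (∀ z, 0 ≤ w₀ z ∧ w₀ z ≤ 1) ∧ 0 < r₀ ∧ 0 < T₁ ∧
      (∀ z, w₀ z ≠ 0 → r₀ ≤ z.1 ∧ z.1 < 1 ∧ |z.2| < 1) ∧
      ∃ N₁, ∀ N ≥ N₁, ∀ Z Y, IsFlow (Finset.Icc n₀ N) (Xf M α q) (ph M) w₀ Z Y →
        w₀ (Y T₁ ((1 / 2) ^ N, 0)) = 1 := by
  have hq0 : 0 < q := by linarith
  have hK0 : 0 ≤ K := (abs_nonneg _).trans (hK 0)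
  have hlog : 0 < Real.log 2 := Real.log_pos (by norm_num)
  have hn2 : 2 ≤ n₀ := by
    by_contra hcon
    have : n₀ = 0 ∨ n₀ = 1 := by omega
    rcases this with rfl | rfl <;> norm_num at hn₀
    omega
  -- the base scale
  obtain ⟨m₁, hm₁⟩ := pow_unbounded_of_one_lt (2 * q ^ n₀) hq1
  set kb : ℕ := max n₀ m₁ with hkb
  have hkb0 : n₀ ≤ kb := le_max_left _ _
  have hbig : ∀ n, kb ≤ n → 2 * q ^ n₀ ≤ q ^ (n + 1) := fun n hn =>
    hm₁.le.trans (pow_le_pow_right₀ hq1.le (by omega))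
  set CX : ℝ := α * (2 ^ M * (2 * K)) * (1 - q / 2)⁻¹ with hCX
  have hCX0 : 0 ≤ CX := by
    have : 0 < 1 - q / 2 := by linarith
    positivity
  have hqi : 0 < 1 - q⁻¹ := by
    have : q⁻¹ < 1 := inv_lt_one_of_one_lt₀ hq1
    linarith
  set A : ℝ := Real.log 2 / α * (1 - q⁻¹)⁻¹ with hA
  have hA0 : 0 < A := by positivity
  obtain ⟨m₂, hm₂⟩ := exists_pow_lt_of_lt_one (x := (1 / 2) ^ (kb + 1) / (CX * A + 1)) (by positivity)
    (inv_lt_one_of_one_lt₀ hq1)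
  set nb : ℕ := max m₂ (kb + 1) with hnb
  have hnb1 : kb + 1 ≤ nb := le_max_right _ _
  have hqn : q⁻¹ ^ nb ≤ q⁻¹ ^ m₂ :=
    pow_le_pow_of_le_one (by positivity) (inv_le_one_of_one_le₀ hq1.le) (le_max_left _ _)
  set T₁ : ℝ := A * q⁻¹ ^ nb with hT₁
  have hT0 : 0 < T₁ := by positivity
  have hsmall : CX * T₁ ≤ (1 / 2) ^ (kb + 1) := by
    have h1 : q⁻¹ ^ nb ≤ (1 / 2) ^ (kb + 1) / (CX * A + 1) := hqn.trans hm₂.le
    rw [le_div_iff₀ (by positivity)] at h1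
    have h2 : 0 ≤ q⁻¹ ^ nb := by positivity
    rw [hT₁]
    nlinarith only [h1, h2]
  obtain ⟨w₀, hw, h01, hsupp, hw1⟩ := exists_w ((1 / 2) ^ (nb + 1)) (by positivity)
  have hr0 : (0 : ℝ) < (1 / 2) ^ (nb + 1) := by positivity
  have hw1' : ∀ z : ℝ × ℝ, (1 / 2) ^ nb ≤ z.1 → z.1 ≤ 1 / 2 → |z.2| ≤ 1 / 2 → w₀ z = 1 := by
    intro z h1 h2 h3
    refine hw1 z ?_ h2 h3
    have : (2 : ℝ) * (1 / 2) ^ (nb + 1) = (1 / 2) ^ nb := by ring
    rw [this]; exact h1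
  refine ⟨w₀, (1 / 2) ^ (nb + 1), T₁, hw, h01, hr0, hT0, hsupp, nb, fun N hN Z Y hF => ?_⟩
  have hs : ∀ z, w₀ z ≠ 0 → (1 / 2) ^ (nb + 1) ≤ z.1 := fun z hz => (hsupp z hz).1
  set tt : ℕ → ℝ := fun n => A * (q⁻¹ ^ nb - q⁻¹ ^ n) with htt
  have hstep : ∀ n, tt (n + 1) = tt n + Real.log 2 / (α * q ^ n) := by
    intro n
    have e1 : Real.log 2 / (α * q ^ n) = A * (q⁻¹ ^ n * (1 - q⁻¹)) := by
      rw [hA, inv_pow]
      have h7 : (1 - q⁻¹)⁻¹ * (1 - q⁻¹) = 1 := inv_mul_cancel₀ hqi.ne'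
      calc Real.log 2 / (α * q ^ n) = Real.log 2 / α * (q ^ n)⁻¹ * 1 := by
            rw [mul_one, div_eq_mul_inv, div_eq_mul_inv, mul_inv, mul_assoc]
        _ = Real.log 2 / α * (q ^ n)⁻¹ * ((1 - q⁻¹)⁻¹ * (1 - q⁻¹)) := by rw [h7]
        _ = _ := by ring
    rw [e1, htt]
    simp only
    rw [pow_succ]; ring
  have hbase : Cl w₀ Y T₁ tt kb := by
    intro s h0 hsT _ z h1 h2 h3
    have hd := displacement hα.le hq0.le hq2 hK h01 hr0 hs hF (Y s z) h0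
    rw [hF.left] at hd
    have hd' : ‖z - Y s z‖ ≤ (1 / 2) ^ (kb + 1) :=
      hd.trans ((mul_le_mul_of_nonneg_left hsT hCX0).trans hsmall)
    rw [Prod.norm_def, max_le_iff, Real.norm_eq_abs, Real.norm_eq_abs, Prod.fst_sub, Prod.snd_sub,
      abs_le, abs_le] at hd'
    obtain ⟨⟨d1, d2⟩, d3, d4⟩ := hd'
    have e1 : ((1 : ℝ) / 2) ^ (kb + 1) = (1 / 2) ^ kb / 2 := by ring
    have e2 : ((1 : ℝ) / 2) ^ kb ≤ 1 / 4 := by
      calc ((1 : ℝ) / 2) ^ kb ≤ (1 / 2) ^ 2 :=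
            pow_le_pow_of_le_one (by norm_num) (by norm_num) (by omega)
        _ = 1 / 4 := by norm_num
    have e3 : ((1 : ℝ) / 2) ^ nb ≤ (1 / 2) ^ (kb + 1) :=
      pow_le_pow_of_le_one (by norm_num) (by norm_num) hnb1
    obtain ⟨h4, h5⟩ := abs_le.mp h3
    exact hw1' _ (by linarith) (by linarith) (abs_le.mpr ⟨by linarith, by linarith⟩)
  have hall : ∀ n, kb ≤ n → n ≤ N → Cl w₀ Y T₁ tt n := by
    intro n hn
    induction n, hn using Nat.le_induction with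
    | base => exact fun _ => hbase
    | succ n hn ih =>
      intro hnN
      refine cl_step hn2 hα hq1 hK hqK h01 hr0 hs hF (hkb0.trans hn) hnN (hbig n hn) (hstep n) ?_ hw1'
        (ih (by omega))
      intro h
      rw [htt]
      simp only
      refine mul_nonneg hA0.le (sub_nonneg.mpr ?_)
      exact pow_le_pow_of_le_one (by positivity) (inv_le_one_of_one_le₀ hq1.le) h
  have hNC := hall N (by omega) le_rfl
  refine hNC T₁ hT0.le le_rfl ?_ _ le_rfl ?_ ?_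
  · rw [htt, hT₁]
    simp only
    have : 0 ≤ A * q⁻¹ ^ N := by positivity
    linarith
  · calc ((1 : ℝ) / 2) ^ N ≤ (1 / 2) ^ 2 :=
          pow_le_pow_of_le_one (by norm_num) (by norm_num) (by omega)
      _ ≤ 3 / 8 := by norm_num
  · simp only [abs_zero]
    positivity

end Pool.Agent.Zk27.MB
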