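import Pool.Agent.Zk27.MB.Cut3
import Pool.Agent.Zk20.FR.B2

/-! The front lemma, third version: abstract fields (module FR3, helper20) -/

set_option autoImplicit false

open MeasureTheory Set
open scoped ContDiff

namespace Pool.Agent.Zk20.FR

open Pool.Agent.Zk27.MB

/-- the hypotheses on the fields -/
structure Fld (a : ℕ → ℝ) (K : ℝ) (X : ℕ → ℝ × ℝ → ℝ × ℝ) (φ : ℕ → ℝ × ℝ → ℝ) (B : ℕ → ℝ) : Prop where
  ha : ∀ n, 0 ≤ a n
  hK : ∀ s, |kap s| ≤ K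
  hX : ∀ k, ContDiff ℝ ∞ (X k)
  hXc : ∀ k, HasCompactSupport (X k)
  hXr : ∀ k z, 0 ≤ z.1 → X k z = (a k * (1 / 2) ^ k) • V0 (2 ^ k * z.1, 2 ^ k * z.2)
  hφ : ∀ k, Continuous (φ k)
  hφc : ∀ k, HasCompactSupport (φ k)
  hφr : ∀ k z, 0 ≤ z.1 → φ k z = 4 ^ k * phi (2 ^ k * z.1, 2 ^ k * z.2)
  hB : Summable B
  hXB : ∀ k z, ‖X k z‖ ≤ B k

/-- The averages. -/
noncomputable def ca (φ : ℕ → ℝ × ℝ → ℝ) (w₀ : ℝ × ℝ → ℝ) (Y : ℝ → ℝ × ℝ → ℝ × ℝ) (k : ℕ) (t : ℝ) :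
    ℝ := ∫ x, φ k x * w₀ (Y t x)

section

variable {n₀ N : ℕ} {a B : ℕ → ℝ} {K : ℝ} {X : ℕ → ℝ × ℝ → ℝ × ℝ} {φ : ℕ → ℝ × ℝ → ℝ}
  {w₀ : ℝ × ℝ → ℝ} {Z Y : ℝ → ℝ × ℝ → ℝ × ℝ}

lemma ode_fst3 (hF : IsFlow (Finset.Icc n₀ N) X φ w₀ Z Y) (t : ℝ) (p : ℝ × ℝ) :
    HasDerivAt (fun t => (Z t p).1)
      (∑ k ∈ Finset.Icc n₀ N, ca φ w₀ Y k t * (X k (Z t p)).1) t := by
  have h := (ContinuousLinearMap.fst ℝ ℝ ℝ).hasFDerivAt.comp_hasDerivAt t (hF.ode t p)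
  have e : (ContinuousLinearMap.fst ℝ ℝ ℝ) (∑ k ∈ Finset.Icc n₀ N, (∫ x, φ k x * w₀ (Y t x)) •
      X k (Z t p)) = ∑ k ∈ Finset.Icc n₀ N, ca φ w₀ Y k t * (X k (Z t p)).1 := by
    rw [map_sum]
    rfl
  rw [e] at h
  exact h

lemma ode_snd3 (hF : IsFlow (Finset.Icc n₀ N) X φ w₀ Z Y) (t : ℝ) (p : ℝ × ℝ) :
    HasDerivAt (fun t => (Z t p).2)
      (∑ k ∈ Finset.Icc n₀ N, ca φ w₀ Y k t * (X k (Z t p)).2) t := by
  have h := (ContinuousLinearMap.snd ℝ ℝ ℝ).hasFDerivAt.comp_hasDerivAt t (hF.ode t p)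
  have e : (ContinuousLinearMap.snd ℝ ℝ ℝ) (∑ k ∈ Finset.Icc n₀ N, (∫ x, φ k x * w₀ (Y t x)) •
      X k (Z t p)) = ∑ k ∈ Finset.Icc n₀ N, ca φ w₀ Y k t * (X k (Z t p)).2 := by
    rw [map_sum]
    rfl
  rw [e] at h
  exact h

lemma ca_bound (hf : Fld a K X φ B) (h01 : ∀ z, |w₀ z| ≤ 1) (k : ℕ) (t : ℝ) :
    |ca φ w₀ Y k t| ≤ ∫ x, |φ k x| := by
  have hi : Integrable (fun x => |φ k x|) :=
    ((hf.hφ k).integrable_of_hasCompactSupport (hf.hφc k)).abs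
  have hgoal : ‖∫ x, φ k x * w₀ (Y t x)‖ ≤ ∫ x, |φ k x| := by
    refine norm_integral_le_of_norm_le hi (Filter.Eventually.of_forall fun x => ?_)
    rw [Real.norm_eq_abs, abs_mul]
    exact mul_le_of_le_one_right (abs_nonneg _) (h01 _)
  exact hgoal

lemma fld_fst (hf : Fld a K X φ B) (k : ℕ) : ∃ L : ℝ, 0 ≤ L ∧ ∀ z : ℝ × ℝ, |(X k z).1| ≤ L * |z.1| := by
  obtain ⟨C, hC⟩ := ContDiff.lipschitzWith_of_hasCompactSupport (hf.hXc k) (hf.hX k) (by simp)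
  refine ⟨C, C.2, fun z => ?_⟩
  have h0 : (X k (0, z.2)).1 = 0 := by
    rw [hf.hXr k (0, z.2) le_rfl]
    simp [V0, mu]
  have h1 := hC.dist_le_mul z (0, z.2)
  rw [dist_eq_norm, dist_eq_norm] at h1
  have h2 : ‖z - (0, z.2)‖ = |z.1| := by
    rw [Prod.norm_def]
    simp
  rw [h2] at h1
  have h3 : |(X k z).1| = |(X k z - X k (0, z.2)).1| := by
    rw [Prod.fst_sub, h0, sub_zero]
  rw [h3]
  exact (norm_fst_le (X k z - X k (0, z.2))).trans h1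

/-- the right half-plane is invariant -/
lemma pos3 (hf : Fld a K X φ B) (h01 : ∀ z, |w₀ z| ≤ 1)
    (hF : IsFlow (Finset.Icc n₀ N) X φ w₀ Z Y) {p : ℝ × ℝ} (hp : 0 < p.1) {t : ℝ}
    (ht : 0 ≤ t) : 0 < (Z t p).1 := by
  choose Lk hLk0 hLk using fun k => fld_fst hf k
  set L : ℝ := ∑ k ∈ Finset.Icc n₀ N, (∫ x, |φ k x|) * Lk k with hL
  set x : ℝ → ℝ := fun t => (Z t p).1 with hx
  set x' : ℝ → ℝ := fun t => ∑ k ∈ Finset.Icc n₀ N, ca φ w₀ Y k t * (X k (Z t p)).1 with hx'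
  have hder : ∀ t, HasDerivAt x (x' t) t := fun t => ode_fst3 hF t p
  have hbd : ∀ t, |x' t| ≤ L * |x t| := by
    intro t
    rw [hx', hL, Finset.sum_mul]
    refine (Finset.abs_sum_le_sum_abs _ _).trans (Finset.sum_le_sum fun k _ => ?_)
    rw [abs_mul, mul_assoc]
    exact mul_le_mul (ca_bound hf h01 k t) (hLk k _) (abs_nonneg _) (integral_nonneg fun _ => abs_nonneg _)
  have hmono : Monotone (fun t => x t ^ 2 * Real.exp (2 * L * t)) := by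
    have hd : ∀ t, HasDerivAt (fun t => x t ^ 2 * Real.exp (2 * L * t))
        (2 * x t * x' t * Real.exp (2 * L * t) + x t ^ 2 * (Real.exp (2 * L * t) * (2 * L))) t := by
      intro t
      have h1 : HasDerivAt (fun t => x t ^ 2) (2 * x t * x' t) t := by
        have h9 := (hder t).fun_pow 2
        simpa using h9
      have h2 : HasDerivAt (fun t => Real.exp (2 * L * t)) (Real.exp (2 * L * t) * (2 * L)) t := by
        have h3 : HasDerivAt (fun t : ℝ => 2 * L * t) (2 * L) t := by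
          simpa using (hasDerivAt_id t).const_mul (2 * L)
        exact h3.exp
      exact h1.mul h2
    refine monotone_of_deriv_nonneg (fun t => (hd t).differentiableAt) fun t => ?_
    rw [(hd t).deriv]
    have h1 : -(L * |x t|) ≤ x' t ∧ x' t ≤ L * |x t| := abs_le.mp (hbd t)
    have h2 : 0 ≤ 2 * x t * x' t + x t ^ 2 * (2 * L) := by
      rcases le_total 0 (x t) with h | h
      · rw [abs_of_nonneg h] at h1
        nlinarith only [h1.1, h]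
      · rw [abs_of_nonpos h] at h1
        nlinarith only [h1.2, h]
    have h3 := (Real.exp_pos (2 * L * t)).le
    have : 2 * x t * x' t * Real.exp (2 * L * t) + x t ^ 2 * (Real.exp (2 * L * t) * (2 * L)) =
        (2 * x t * x' t + x t ^ 2 * (2 * L)) * Real.exp (2 * L * t) := by ring
    rw [this]
    exact mul_nonneg h2 h3
  by_contra hcon
  push Not at hcon
  have hx0 : 0 < x 0 := by
    rw [hx]; simp only; rw [hF.zero]; exact hp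
  have hcont : ContinuousOn x (Icc 0 t) := fun s _ => (hder s).continuousAt.continuousWithinAt
  obtain ⟨t1, ht1, h1⟩ := intermediate_value_Icc' ht hcont ⟨hcon, hx0.le⟩
  have := hmono ht1.1
  simp only [h1] at this
  have h2 : 0 < x 0 ^ 2 * Real.exp (2 * L * 0) := by positivity
  simp only [ne_eq, OfNat.ofNat_ne_zero, not_false_eq_true, zero_pow, zero_mul] at this
  linarith

/-- no mass on the left -/
lemma w_left3 (hf : Fld a K X φ B) (h01 : ∀ z, |w₀ z| ≤ 1) (hs : ∀ z, w₀ z ≠ 0 → 0 < z.1)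
    (hF : IsFlow (Finset.Icc n₀ N) X φ w₀ Z Y) {z : ℝ × ℝ} (hz : z.1 ≤ 0) {t : ℝ}
    (ht : 0 ≤ t) : w₀ (Y t z) = 0 := by
  by_contra hne
  have h1 := hs _ hne
  have h2 := pos3 hf h01 hF (p := Y t z) h1 ht
  rw [hF.left] at h2
  linarith

lemma ca_eq (hf : Fld a K X φ B) (h01 : ∀ z, |w₀ z| ≤ 1) (hs : ∀ z, w₀ z ≠ 0 → 0 < z.1)
    (hF : IsFlow (Finset.Icc n₀ N) X φ w₀ Z Y) (k : ℕ) {t : ℝ} (ht : 0 ≤ t) :
    ca φ w₀ Y k t = ∫ z : ℝ × ℝ, 4 ^ k * phi (2 ^ k * z.1, 2 ^ k * z.2) * w₀ (Y t z) := by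
  unfold ca
  congr 1
  funext z
  rcases le_or_gt z.1 0 with h | h
  · rw [w_left3 hf h01 hs hF h ht, mul_zero, mul_zero]
  · rw [hf.hφr k z h.le]

lemma ca_abs (hf : Fld a K X φ B) (h01 : ∀ z, |w₀ z| ≤ 1) (hs : ∀ z, w₀ z ≠ 0 → 0 < z.1)
    (hF : IsFlow (Finset.Icc n₀ N) X φ w₀ Z Y) (k : ℕ) {t : ℝ} (ht : 0 ≤ t) :
    |ca φ w₀ Y k t| ≤ 1 := by
  rw [ca_eq hf h01 hs hF k ht, ← phi_int_scaled k, ← Real.norm_eq_abs]
  refine norm_integral_le_of_norm_le (phi_integrable_scaled k)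
    (Filter.Eventually.of_forall fun z => ?_)
  have h0 : 0 ≤ 4 ^ k * phi (2 ^ k * z.1, 2 ^ k * z.2) := mul_nonneg (by positivity) (phi_nonneg _)
  rw [Real.norm_eq_abs, abs_mul, abs_of_nonneg h0]
  exact mul_le_of_le_one_right h0 (h01 _)

lemma ca_half (hf : Fld a K X φ B)
    (h01 : ∀ z, |w₀ z| ≤ 1) (hw : Continuous w₀) (hs : ∀ z, w₀ z ≠ 0 → 0 < z.1)
    (hF : IsFlow (Finset.Icc n₀ N) X φ w₀ Z Y) (k : ℕ) {t : ℝ} (ht : 0 ≤ t)
    (h : ∀ z : ℝ × ℝ, 1 < 2 ^ k * z.1 → 2 ^ k * z.1 < 3 / 2 → |2 ^ k * z.2| < 1 / 4 →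
      1 / 2 ≤ w₀ (Y t z)) : 1 / 2 ≤ ca φ w₀ Y k t := by
  rw [ca_eq hf h01 hs hF k ht]
  have e : (1 : ℝ) / 2 = ∫ z : ℝ × ℝ, 4 ^ k * phi (2 ^ k * z.1, 2 ^ k * z.2) * (1 / 2) := by
    rw [integral_mul_const, phi_int_scaled, one_mul]
  rw [e]
  have hYc : Continuous (fun z => w₀ (Y t z)) := hw.comp (hF.smoothYt t).continuous
  refine integral_mono ((phi_integrable_scaled k).mul_const _) ?_ fun z => ?_
  · refine (phi_integrable_scaled k).mul_bdd (c := 1) hYc.aestronglyMeasurable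
      (Filter.Eventually.of_forall fun z => ?_)
    rw [Real.norm_eq_abs]
    exact h01 _
  · show 4 ^ k * phi (2 ^ k * z.1, 2 ^ k * z.2) * (1 / 2) ≤
      4 ^ k * phi (2 ^ k * z.1, 2 ^ k * z.2) * w₀ (Y t z)
    by_cases hp : phi (2 ^ k * z.1, 2 ^ k * z.2) = 0
    · rw [hp, mul_zero, zero_mul, zero_mul]
    · obtain ⟨h1, h2, h3⟩ := phi_supp hp
      exact mul_le_mul_of_nonneg_left (h z h1 h2 h3) (mul_nonneg (by positivity) (phi_nonneg _))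

/-- displacement -/
lemma displacement3 (hf : Fld a K X φ B)
    (h01 : ∀ z, |w₀ z| ≤ 1) (hs : ∀ z, w₀ z ≠ 0 → 0 < z.1)
    (hF : IsFlow (Finset.Icc n₀ N) X φ w₀ Z Y) (p : ℝ × ℝ) {s : ℝ} (h0 : 0 ≤ s) :
    ‖Z s p - p‖ ≤ (∑' k, B k) * s := by
  have hB0 : ∀ k, 0 ≤ B k := fun k => (norm_nonneg _).trans (hf.hXB k 0)
  have key := Convex.norm_image_sub_le_of_norm_hasDerivWithin_le (f := fun t => Z t p)
    (f' := fun t => ∑ k ∈ Finset.Icc n₀ N, (∫ x, φ k x * w₀ (Y t x)) • X k (Z t p))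
    (C := ∑' k, B k) (s := Icc 0 s) (x := 0) (y := s)
    (fun t _ => (hF.ode t p).hasDerivWithinAt) ?_ (convex_Icc 0 s) ⟨le_rfl, h0⟩ ⟨h0, le_rfl⟩
  · simp only [hF.zero, sub_zero, Real.norm_eq_abs, abs_of_nonneg h0] at key
    exact key
  · intro t ht
    refine (norm_sum_le _ _).trans ?_
    have hterm : ∀ k ∈ Finset.Icc n₀ N, ‖(∫ x, φ k x * w₀ (Y t x)) • X k (Z t p)‖ ≤ B k := by
      intro k _
      rw [norm_smul]
      have h1 : ‖∫ x, φ k x * w₀ (Y t x)‖ ≤ 1 := by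
        rw [Real.norm_eq_abs]
        exact ca_abs hf h01 hs hF k ht.1
      calc _ ≤ 1 * B k := mul_le_mul h1 (hf.hXB k _) (norm_nonneg _) (by norm_num)
        _ = _ := one_mul _
    exact (Finset.sum_le_sum hterm).trans (hf.hB.sum_le_tsum _ (fun k _ => hB0 k))

lemma sum_gh3 (ha : ∀ n, 0 ≤ a n) (hK0 : 0 ≤ K) {n : ℕ} (hN : n ≤ N)
    (hbig : 4 * K * (a (n + 1) + a (n + 2)) ≤ ∑ k ∈ Finset.Icc n₀ n, a k) :
    (∑ k ∈ Finset.Icc n₀ n, a k) / 4 ≤ ∑ k ∈ Finset.Icc n₀ N, a k * gh K 1 n k := by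
  have e1 : ∀ k ∈ Finset.Icc n₀ N, (1 / 2) * (if k ≤ n then a k else 0) -
      (if k = n + 1 then K * a k else 0)
      - (if k = n + 2 then K * a k else 0) ≤ a k * gh K 1 n k := by
    intro k _
    unfold gh
    have hKk : 0 ≤ K * a k := mul_nonneg hK0 (ha k)
    rw [one_pow, mul_one]
    split_ifs <;> first | (exfalso; omega) | linarith
  refine le_trans ?_ (Finset.sum_le_sum e1)
  rw [Finset.sum_sub_distrib, Finset.sum_sub_distrib, ← Finset.mul_sum]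
  have s1 : ∑ k ∈ Finset.Icc n₀ N, (if k ≤ n then a k else 0) = ∑ k ∈ Finset.Icc n₀ n, a k := by
    rw [← Finset.sum_filter]
    refine Finset.sum_congr ?_ fun _ _ => rfl
    ext k
    simp only [Finset.mem_filter, Finset.mem_Icc]
    omega
  have s2 : ∀ m : ℕ, ∑ k ∈ Finset.Icc n₀ N, (if k = m then K * a k else 0) ≤ K * a m := by
    intro m
    rw [Finset.sum_ite_eq' (Finset.Icc n₀ N) m]
    split_ifs
    · exact le_rfl
    · exact mul_nonneg hK0 (ha m)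
  rw [s1]
  have h1 := s2 (n + 1)
  have h2 := s2 (n + 2)
  linarith

/-- each term of the field in the strip -/
lemma term_strip3 (hf : Fld a K X φ B) {n k : ℕ} {c : ℝ}
    (hc1 : |c| ≤ 1) (hc : k ≤ n → 1 / 2 ≤ c) {z : ℝ × ℝ} (h1 : (1 / 4) * (1 / 2) ^ n < z.1)
    (h2 : z.1 < (1 / 2) ^ n) (h3 : |z.2| < z.1) :
    c * (X k z).1 ≤ -(a k * gh K 1 n k * z.1) ∧
      a k * gh K 1 n k * z.2 ^ 2 ≤ z.2 * (c * (X k z).2) := by
  have hz : 0 < z.1 := lt_trans (by positivity) h1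
  have e : X k z = Xf 0 (a k) 1 k z := by
    rw [hf.hXr k z hz.le]
    unfold Xf
    rw [cp_right 0 k hz, one_pow, mul_one]
  rw [e]
  exact term_strip2 (hf.ha k) zero_le_one hf.hK hc1 hc h1 h2 h3

end

/-- `w ≥ 1/2` in the cone `|y| ≤ x / 2` for `2^{-n} ≤ x ≤ 3/8` at the times in `[t_n, T]` -/
def Cl3 (w₀ : ℝ × ℝ → ℝ) (Y : ℝ → ℝ × ℝ → ℝ × ℝ) (T : ℝ) (tt : ℕ → ℝ) (n : ℕ) : Prop :=
  ∀ s, 0 ≤ s → s ≤ T → tt n ≤ s → ∀ z : ℝ × ℝ, (1 / 2) ^ n ≤ z.1 → z.1 ≤ 3 / 8 → |z.2| ≤ z.1 / 2 →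
    1 / 2 ≤ w₀ (Y s z)

/-- the step of the induction -/
theorem cl_step3 {n₀ N : ℕ} (hn₀ : 2 ≤ n₀) {a B : ℕ → ℝ} {K : ℝ} {X : ℕ → ℝ × ℝ → ℝ × ℝ}
    {φ : ℕ → ℝ × ℝ → ℝ} (hfl : Fld a K X φ B)
    {w₀ : ℝ × ℝ → ℝ} (hw : Continuous w₀) (h01 : ∀ z, |w₀ z| ≤ 1)
    (hs : ∀ z, w₀ z ≠ 0 → 0 < z.1) {Z Y : ℝ → ℝ × ℝ → ℝ × ℝ}
    (hF : IsFlow (Finset.Icc n₀ N) X φ w₀ Z Y) {T : ℝ} {tt : ℕ → ℝ} {n nb : ℕ}
    (hn : n₀ ≤ n) (hN : n + 1 ≤ N) {lam : ℝ} (hlam : 0 < lam)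
    (hsum : lam ≤ ∑ k ∈ Finset.Icc n₀ N, a k * gh K 1 n k)
    (htt : tt (n + 1) = tt n + Real.log 2 / lam)
    (htt0 : nb ≤ n → 0 ≤ tt n)
    (hw1 : ∀ z : ℝ × ℝ, (1 / 2) ^ nb ≤ z.1 → z.1 ≤ 1 / 2 → |z.2| ≤ 1 / 2 → 1 / 2 ≤ w₀ z)
    (hC : Cl3 w₀ Y T tt n) : Cl3 w₀ Y T tt (n + 1) := by
  intro s hs0 hsT hts z hz1 hz2 hz3
  have hlog : 0 < Real.log 2 := Real.log_pos (by norm_num)
  have hτ : 0 < Real.log 2 / lam := by positivity
  have hb4 : ((1 : ℝ) / 2) ^ n ≤ 1 / 4 := by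
    calc ((1 : ℝ) / 2) ^ n ≤ (1 / 2) ^ 2 := pow_le_pow_of_le_one (by norm_num) (by norm_num) (by omega)
      _ = 1 / 4 := by norm_num
  have hb0 : (0 : ℝ) < (1 / 2) ^ n := by positivity
  have hbs : ((1 : ℝ) / 2) ^ (n + 1) = (1 / 2) ^ n / 2 := by ring
  rcases le_or_gt ((1 / 2) ^ n) z.1 with hcase | hcase
  · exact hC s hs0 hsT (by linarith) z hcase hz2 hz3
  set f : ℝ → ℝ × ℝ := fun t => Z t (Y s z) with hf
  have hfs : f s = z := hF.left s z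
  set m : ℝ := max 0 (s - Real.log 2 / lam) with hm
  have hm0 : 0 ≤ m := le_max_left _ _
  have hms : m ≤ s := max_le hs0 (by linarith)
  have hmt : tt n ≤ m := le_trans (by linarith) (le_max_right _ _)
  have hone : ∀ t ∈ Icc m s, ∀ k ∈ Finset.Icc n₀ N, k ≤ n → 1 / 2 ≤ ca φ w₀ Y k t := by
    intro t ht k hk hkn
    refine ca_half hfl h01 hw hs hF k (hm0.trans ht.1) fun y h1 h2 h3 => ?_
    have h2k : (0 : ℝ) < 2 ^ k := by positivity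
    have hk0 : n₀ ≤ k := (Finset.mem_Icc.mp hk).1
    have hhk := half_pow_mul k
    have e1 : ((1 : ℝ) / 2) ^ k < y.1 := by
      have : (1 / 2 : ℝ) ^ k * 1 < (1 / 2) ^ k * (2 ^ k * y.1) := mul_lt_mul_of_pos_left h1 (by positivity)
      rw [← mul_assoc, hhk] at this
      linarith
    have e2 : y.1 < 3 / 2 * (1 / 2 : ℝ) ^ k := by
      have : (1 / 2 : ℝ) ^ k * (2 ^ k * y.1) < (1 / 2) ^ k * (3 / 2) := mul_lt_mul_of_pos_left h2 (by positivity)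
      rw [← mul_assoc, hhk] at this
      linarith
    have e3 : |y.2| < 1 / 4 * (1 / 2 : ℝ) ^ k := by
      rw [abs_mul, abs_of_pos h2k] at h3
      have : (1 / 2 : ℝ) ^ k * (2 ^ k * |y.2|) < (1 / 2) ^ k * (1 / 4) := mul_lt_mul_of_pos_left h3 (by positivity)
      rw [← mul_assoc, hhk] at this
      linarith
    have e4 : ((1 : ℝ) / 2) ^ k ≤ 1 / 4 := by
      calc ((1 : ℝ) / 2) ^ k ≤ (1 / 2) ^ 2 := pow_le_pow_of_le_one (by norm_num) (by norm_num) (by omega)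
        _ = 1 / 4 := by norm_num
    have e5 : ((1 : ℝ) / 2) ^ n ≤ (1 / 2) ^ k := pow_le_pow_of_le_one (by norm_num) (by norm_num) hkn
    exact hC t (hm0.trans ht.1) (ht.2.trans hsT) (hmt.trans ht.1) y (by linarith) (by linarith) (by linarith)
  have hd1 : ∀ t, HasDerivAt (fun t => (f t).1)
      (∑ k ∈ Finset.Icc n₀ N, ca φ w₀ Y k t * (X k (f t)).1) t := fun t => ode_fst3 hF t _
  have hd2 : ∀ t, HasDerivAt (fun t => (f t).2)
      (∑ k ∈ Finset.Icc n₀ N, ca φ w₀ Y k t * (X k (f t)).2) t := fun t => ode_snd3 hF t _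
  have hU : ∀ t ∈ Icc m s, (1 / 2) ^ n / 4 < (f t).1 → (f t).1 < (1 / 2) ^ n → |(f t).2| < (f t).1 →
      (∑ k ∈ Finset.Icc n₀ N, ca φ w₀ Y k t * (X k (f t)).1) ≤ -(lam * (f t).1) ∧
      0 ≤ (f t).2 * (∑ k ∈ Finset.Icc n₀ N, ca φ w₀ Y k t * (X k (f t)).2) := by
    intro t ht h1 h2 h3
    have ht0 : 0 ≤ t := hm0.trans ht.1
    have hterm := fun k (hk : k ∈ Finset.Icc n₀ N) => term_strip3 hfl (n := n) (k := k)
      (ca_abs hfl h01 hs hF k ht0)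
      (hone t ht k hk) (z := f t) (by linarith) h2 h3
    have hx : 0 < (f t).1 := by linarith
    constructor
    · refine (Finset.sum_le_sum fun k hk => (hterm k hk).1).trans ?_
      rw [Finset.sum_neg_distrib, ← Finset.sum_mul]
      have : lam * (f t).1 ≤ (∑ k ∈ Finset.Icc n₀ N, a k * gh K 1 n k) * (f t).1 :=
        mul_le_mul_of_nonneg_right hsum hx.le
      linarith
    · rw [Finset.mul_sum]
      refine le_trans ?_ (Finset.sum_le_sum fun k hk => (hterm k hk).2)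
      rw [← Finset.sum_mul]
      have : 0 ≤ ∑ k ∈ Finset.Icc n₀ N, a k * gh K 1 n k := hlam.le.trans hsum
      positivity
  have c1 : Continuous (fun t => (f t).1) := continuous_iff_continuousAt.mpr fun t => (hd1 t).continuousAt
  have hYr : ∀ t, Y t (f t) = Y s z := fun t => hF.right t _
  by_cases hex : ∃ t ∈ Icc m s, (1 / 2) ^ n ≤ (f t).1
  · obtain ⟨t1, ht1, ht1'⟩ := hex
    have hcomp : IsCompact (Icc m s ∩ {t | (1 / 2) ^ n ≤ (f t).1}) :=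
      isCompact_Icc.inter_right (isClosed_le continuous_const c1)
    obtain ⟨t2, ⟨ht2, ht2'⟩, hgr⟩ := hcomp.exists_isGreatest ⟨t1, ht1, ht1'⟩
    have ht2'' : (1 / 2) ^ n ≤ (f t2).1 := ht2'
    have hlt : ∀ t ∈ Ioc t2 s, (f t).1 < (1 / 2) ^ n := by
      intro t ht
      by_contra hcon
      push Not at hcon
      have := hgr ⟨⟨ht2.1.trans ht.1.le, ht.2⟩, hcon⟩
      linarith [ht.1]
    obtain ⟨t3, ht3, ht3'⟩ := intermediate_value_Icc' ht2.2 c1.continuousOn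
      (show (1 / 2) ^ n ∈ Icc (f s).1 (f t2).1 from ⟨by rw [hfs]; exact hcase.le, ht2''⟩)
    have h32 : t3 = t2 := by
      refine le_antisymm (hgr ⟨⟨ht2.1.trans ht3.1, ht3.2⟩, ?_⟩) ht3.1
      simp only at ht3'
      exact ht3'.symm.le
    rw [h32] at ht3'
    simp only at ht3'
    obtain ⟨g1, g2⟩ := strip (m := t2) (s := s) hlam.le hb0 hd1 hd2
      (fun t ht => hU t ⟨ht2.1.trans ht.1, ht.2⟩) (by rw [hfs]; linarith) (by rw [hfs]; exact hz3) hlt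
      t2 ⟨le_rfl, ht2.2⟩
    rw [hfs] at g2
    have := hC t2 (hm0.trans ht2.1) (ht2.2.trans hsT) (hmt.trans ht2.1) (f t2) ht2''
      (by rw [ht3']; linarith) (by rw [ht3']; linarith)
    rw [hYr] at this
    exact this
  · push Not at hex
    obtain ⟨g1, g2⟩ := strip (m := m) (s := s) hlam.le hb0 hd1 hd2 hU (by rw [hfs]; linarith)
      (by rw [hfs]; exact hz3) (fun t ht => hex t ⟨ht.1.le, ht.2⟩) m ⟨le_rfl, hms⟩
    rw [hfs] at g1 g2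
    have hxm := hex m ⟨le_rfl, hms⟩
    have hz0 : 0 < z.1 := by linarith
    rcases le_or_gt 0 (s - Real.log 2 / lam) with hc | hc
    · exfalso
      have hm' : m = s - Real.log 2 / lam := max_eq_right hc
      have e1 : lam * (s - m) = Real.log 2 := by
        rw [hm', sub_sub_cancel]; field_simp
      rw [e1, Real.exp_log (by norm_num)] at g1
      linarith
    · have hm' : m = 0 := max_eq_left hc.le
      have hf0 : f m = Y s z := by rw [hm', hf]; exact hF.zero _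
      rw [← hf0]
      have hnb : n + 1 ≤ nb := by
        by_contra hcon
        have := htt0 (by omega)
        linarith
      have e1 : 1 ≤ Real.exp (lam * (s - m)) := Real.one_le_exp (mul_nonneg hlam.le (by linarith))
      have e2 : z.1 ≤ (f m).1 := by
        calc z.1 = z.1 * 1 := (mul_one _).symm
          _ ≤ z.1 * Real.exp (lam * (s - m)) := mul_le_mul_of_nonneg_left e1 hz0.le
          _ ≤ _ := g1
      have e3 : ((1 : ℝ) / 2) ^ nb ≤ (1 / 2) ^ (n + 1) :=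
        pow_le_pow_of_le_one (by norm_num) (by norm_num) hnb
      exact hw1 _ (by linarith) (by linarith) (by linarith)

end Pool.Agent.Zk20.FR

namespace Pool.Agent.Zk27.MB

open Pool.Agent.H708R2.EulerSign

/-- **The front lemma, third version.** -/
theorem front3 (n₀ : ℕ) (hn₀ : 6 ≤ n₀) (a : ℕ → ℝ) (K : ℝ) (ha : ∀ n, 0 ≤ a n)
    (hK : ∀ s, |kap s| ≤ K) (hS : Summable fun n => 1 / ∑ k ∈ Finset.Icc n₀ n, a k)
    (hS0 : ∃ k₀ ≥ n₀, ∀ n ≥ k₀, 0 < ∑ k ∈ Finset.Icc n₀ n, a k ∧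
      4 * K * (a (n + 1) + a (n + 2)) ≤ ∑ k ∈ Finset.Icc n₀ n, a k)
    (X : ℕ → ℝ × ℝ → ℝ × ℝ) (φ : ℕ → ℝ × ℝ → ℝ) (hX : ∀ k, ContDiff ℝ ∞ (X k))
    (hXc : ∀ k, HasCompactSupport (X k))
    (hXr : ∀ k z, 0 ≤ z.1 → X k z = (a k * (1 / 2) ^ k) • V0 (2 ^ k * z.1, 2 ^ k * z.2))
    (hφ : ∀ k, Continuous (φ k)) (hφc : ∀ k, HasCompactSupport (φ k))
    (hφr : ∀ k z, 0 ≤ z.1 → φ k z = 4 ^ k * phi (2 ^ k * z.1, 2 ^ k * z.2))
    (B : ℕ → ℝ) (hB : Summable B) (hXB : ∀ k z, ‖X k z‖ ≤ B k) :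
    ∃ (x₁ T₁ : ℝ) (N₁ : ℕ), 0 < x₁ ∧ x₁ < 1 / 2 ∧ 0 < T₁ ∧
      ∀ w₀ : ℝ × ℝ → ℝ, ContDiff ℝ ∞ w₀ → (∀ z, |w₀ z| ≤ 1) →
        (∀ z, w₀ z ≠ 0 → 0 < z.1 ∧ z.1 < 1 ∧ |z.2| < 1) →
        (∀ z, x₁ ≤ z.1 → z.1 ≤ 1 / 2 → |z.2| ≤ 1 / 2 → 1 / 2 ≤ w₀ z) →
        ∀ N ≥ N₁, ∀ Z Y, IsFlow (Finset.Icc n₀ N) X φ w₀ Z Y →
          1 / 2 ≤ w₀ (Y T₁ ((1 / 2) ^ N, 0)) := by
  have hfl : Pool.Agent.Zk20.FR.Fld a K X φ B := ⟨ha, hK, hX, hXc, hXr, hφ, hφc, hφr, hB, hXB⟩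
  have hK0 : 0 ≤ K := (abs_nonneg _).trans (hK 0)
  have hlog : 0 < Real.log 2 := Real.log_pos (by norm_num)
  have hB0 : ∀ k, 0 ≤ B k := fun k => (norm_nonneg _).trans (hXB k 0)
  obtain ⟨kb, hkb0, hkb⟩ := hS0
  set S : ℕ → ℝ := fun n => ∑ k ∈ Finset.Icc n₀ n, a k with hSd
  have hSnn : ∀ n, 0 ≤ S n := fun n => Finset.sum_nonneg fun k _ => ha k
  set τ : ℕ → ℝ := fun n => Real.log 2 / (S n / 4) with hτ
  have hτ0 : ∀ n, 0 ≤ τ n := fun n => div_nonneg hlog.le (by linarith [hSnn n])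
  have hτS : Summable τ := by
    have : τ = fun n => (4 * Real.log 2) * (1 / S n) := by
      funext n
      rw [hτ]
      simp only
      rw [div_div_eq_mul_div, mul_one_div, mul_comm (Real.log 2)]
    rw [this]
    exact hS.mul_left _
  set CX : ℝ := ∑' k, B k with hCX
  have hCX0 : 0 ≤ CX := tsum_nonneg hB0
  -- the scale `nb`
  have hten : Filter.Tendsto (fun m => ∑' k, τ k - ∑ k ∈ Finset.range m, τ k) Filter.atTop (nhds 0) := by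
    have := (hτS.hasSum.tendsto_sum_nat).const_sub (∑' k, τ k)
    rwa [sub_self] at this
  have hev : ∀ᶠ m in Filter.atTop, ∑' k, τ k - ∑ k ∈ Finset.range m, τ k <
      (1 / 2) ^ (kb + 1) / (CX + 1) := hten.eventually (gt_mem_nhds (by positivity))
  obtain ⟨nb, hnb2, hnb1⟩ := (hev.and (Filter.eventually_ge_atTop (kb + 1))).exists
  set T₁ : ℝ := ∑' k, τ k - ∑ k ∈ Finset.range nb, τ k with hT₁
  have hle : ∀ m, ∑ k ∈ Finset.range m, τ k ≤ ∑' k, τ k := fun m =>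
    hτS.sum_le_tsum _ fun k _ => hτ0 k
  have hT0 : 0 < T₁ := by
    have h1 := hle (nb + 1)
    rw [Finset.sum_range_succ] at h1
    have h2 : 0 < τ nb := div_pos hlog (by linarith [(hkb nb (by omega)).1])
    rw [hT₁]
    linarith
  have hsmall : CX * T₁ ≤ (1 / 2) ^ (kb + 1) := by
    have h1 : T₁ ≤ (1 / 2) ^ (kb + 1) / (CX + 1) := hnb2.le
    rw [le_div_iff₀ (by positivity)] at h1
    nlinarith only [h1, hT0]
  have hx1 : ((1 : ℝ) / 2) ^ nb < 1 / 2 := by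
    calc ((1 : ℝ) / 2) ^ nb ≤ (1 / 2) ^ 2 :=
          pow_le_pow_of_le_one (by norm_num) (by norm_num) (by omega)
      _ < 1 / 2 := by norm_num
  refine ⟨(1 / 2) ^ nb, T₁, nb, by positivity, hx1, hT0, fun w₀ hwS h01 hsupp hw1' N hN Z Y hF => ?_⟩
  have hs : ∀ z, w₀ z ≠ 0 → 0 < z.1 := fun z hz => (hsupp z hz).1
  have hw : Continuous w₀ := hwS.continuous
  set tt : ℕ → ℝ := fun n => ∑ k ∈ Finset.range n, τ k - ∑ k ∈ Finset.range nb, τ k with htt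
  have hstep : ∀ n, tt (n + 1) = tt n + Real.log 2 / (S n / 4) := by
    intro n
    rw [htt]
    simp only
    rw [Finset.sum_range_succ]
    have : τ n = Real.log 2 / (S n / 4) := rfl
    rw [← this]
    ring
  have hbase : Pool.Agent.Zk20.FR.Cl3 w₀ Y T₁ tt kb := by
    intro s h0 hsT _ z h1 h2 h3
    have hd := Pool.Agent.Zk20.FR.displacement3 hfl h01 hs hF (Y s z) h0
    rw [hF.left] at hd
    have hd' : ‖z - Y s z‖ ≤ (1 / 2) ^ (kb + 1) :=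
      hd.trans ((mul_le_mul_of_nonneg_left hsT hCX0).trans hsmall)
    rw [Prod.norm_def, max_le_iff, Real.norm_eq_abs, Real.norm_eq_abs, Prod.fst_sub, Prod.snd_sub,
      abs_le, abs_le] at hd'
    obtain ⟨⟨d1, d2⟩, d3, d4⟩ := hd'
    have e1 : ((1 : ℝ) / 2) ^ (kb + 1) = (1 / 2) ^ kb / 2 := by ring
    have e2 : ((1 : ℝ) / 2) ^ kb ≤ 1 / 4 := by
      calc ((1 : ℝ) / 2) ^ kb ≤ (1 / 2) ^ 2 :=
            pow_le_pow_of_le_one (by norm_num) (by norm_num) (by omega)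
        _ = 1 / 4 := by norm_num
    have e3 : ((1 : ℝ) / 2) ^ nb ≤ (1 / 2) ^ (kb + 1) :=
      pow_le_pow_of_le_one (by norm_num) (by norm_num) hnb1
    obtain ⟨h4, h5⟩ := abs_le.mp h3
    exact hw1' _ (by linarith) (by linarith) (abs_le.mpr ⟨by linarith, by linarith⟩)
  have hall : ∀ n, kb ≤ n → n ≤ N → Pool.Agent.Zk20.FR.Cl3 w₀ Y T₁ tt n := by
    intro n hn
    induction n, hn using Nat.le_induction with
    | base => exact fun _ => hbase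
    | succ n hn ih =>
      intro hnN
      obtain ⟨hp, hbig⟩ := hkb n hn
      refine Pool.Agent.Zk20.FR.cl_step3 (by omega : 2 ≤ n₀) hfl hw h01 hs hF (hkb0.trans hn)
        hnN (lam := S n / 4) (by linarith)
        (Pool.Agent.Zk20.FR.sum_gh3 ha hK0 (by omega : n ≤ N) hbig) (hstep n) ?_ hw1'
        (ih (by omega))
      intro h
      rw [htt]
      simp only
      refine sub_nonneg.mpr (Finset.sum_le_sum_of_subset_of_nonneg ?_ fun k _ _ => hτ0 k)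
      exact Finset.range_mono h
  have hNC := hall N (by omega) le_rfl
  refine hNC T₁ hT0.le le_rfl ?_ _ le_rfl ?_ ?_
  · rw [htt, hT₁]
    simp only
    linarith [hle N]
  · calc ((1 : ℝ) / 2) ^ N ≤ (1 / 2) ^ 2 :=
          pow_le_pow_of_le_one (by norm_num) (by norm_num) (by omega)
      _ ≤ 3 / 8 := by norm_num
  · simp only [abs_zero]
    positivity

end Pool.Agent.Zk27.MB
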