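import Pool.Agent.Zk27.MB.Cut

/-! The operator built on two families of blocks is symmetric and small (module O2) -/

set_option autoImplicit false

open MeasureTheory Set Filter
open scoped ContDiff

namespace Pool.Agent.Zk27.MB

open Pool.Agent.H708R2.EulerSign

namespace O2

lemma intOn {f : V → ℝ} (hf : Continuous f) : IntegrableOn f Dom :=
  (hf.continuousOn.integrableOn_compact dom_bdd.isCompact_closure).mono_set subset_closure

lemma cont_dot {u g : V → V} (hu : Continuous u) (hg : Continuous g) :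
    Continuous fun x => ∑ i, u x i * g x i := by fun_prop

lemma ip_comm (u g : V → V) : ip u g = ip g u := by
  unfold ip
  refine integral_congr_ae (Eventually.of_forall fun x => ?_)
  simp only [mul_comm]

lemma ip_self (u : V → V) : ip u u = ∫ x in Dom, sq3 (u x) := by
  unfold ip sq3
  refine integral_congr_ae (Eventually.of_forall fun x => ?_)
  simp only [sq]

lemma ip_add {u w g : V → V} (hu : Continuous u) (hw : Continuous w) (hg : Continuous g) :
    ip (fun x => u x + w x) g = ip u g + ip w g := by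
  unfold ip
  rw [← integral_add (intOn (cont_dot hu hg)) (intOn (cont_dot hw hg))]
  refine integral_congr_ae (Eventually.of_forall fun x => ?_)
  simp only [Pi.add_apply, add_mul, Finset.sum_add_distrib]

lemma ip_smul (a : ℝ) (u g : V → V) : ip (fun x => a • u x) g = a * ip u g := by
  unfold ip
  rw [← integral_const_mul]
  refine integral_congr_ae (Eventually.of_forall fun x => ?_)
  simp only [Pi.smul_apply, smul_eq_mul, mul_assoc, Finset.mul_sum]

lemma ip_self_nonneg (u : V → V) : 0 ≤ ip u u := by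
  rw [ip_self]
  exact integral_nonneg fun x => sq3_nonneg _

/-- Cauchy-Schwarz -/
lemma ip_sq_le {u g : V → V} (hu : Continuous u) (hg : Continuous g) :
    ip u g ^ 2 ≤ ip u u * ip g g := by
  have key : ∀ t : ℝ, 0 ≤ (ip g g) * (t * t) + (2 * ip u g) * t + ip u u := by
    intro t
    have h1 : ip (fun x => u x + t • g x) (fun x => u x + t • g x) =
        (ip g g) * (t * t) + (2 * ip u g) * t + ip u u := by
      have hg' : Continuous fun x => t • g x := by fun_prop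
      rw [ip_add hu hg' (by fun_prop), ip_smul, ip_comm u, ip_comm g, ip_add hu hg' hu,
        ip_add hu hg' hg, ip_smul, ip_smul, ip_comm g u]
      ring
    rw [← h1]
    exact ip_self_nonneg _
  have h := discrim_le_zero key
  unfold discrim at h
  nlinarith

lemma abs_ip_le {u g : V → V} (hu : Continuous u) (hg : Continuous g) :
    |ip u g| ≤ Real.sqrt (ip u u) * Real.sqrt (ip g g) := by
  rw [← Real.sqrt_mul (ip_self_nonneg u)]
  exact Real.abs_le_sqrt (ip_sq_le hu hg)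

/-- the terms of the operator -/
noncomputable def tm (n₀ : ℕ) (β q : ℝ) (F G : ℕ → V → V) (u : V → V) (n : ℕ) (x : V) : V :=
  (β * (2 * q) ^ (n₀ + n)) • (ip u (F n) • G n x + ip u (G n) • F n x)

section

variable {M n₀ : ℕ} {C q δ β B : ℝ} {F G : ℕ → V → V} {u w : V → V}

lemma opr_eq (u : V → V) (x : V) :
    opr (fun n => β * (2 * q) ^ (n₀ + n)) F G u x = ∑' n, tm n₀ β q F G u n x := rfl

lemma pow_id (q : ℝ) (N : ℕ) : (2 * q) ^ N * (1 / 4) ^ N = (q / 2) ^ N := by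
  rw [← mul_pow]; congr 1; ring

lemma coef_le (hF : Blocks M n₀ C F) (hq : 0 < q) (hβ : 0 ≤ β) {k : ℕ}
    (hk : k ≤ M) (hu : ContDiff ℝ k u) (hp : Periodic3 u)
    (hB : ∀ x, ‖iteratedFDeriv ℝ k u x‖ ≤ B) (n : ℕ) :
    β * (2 * q) ^ (n₀ + n) * |ip u (F n)| ≤
      β * C * B * (q / 2) ^ (n₀ + n) * (1 / 2) ^ ((n₀ + n) * k) := by
  have h1 := hF.mom n k hk u B hu hp hB
  have h2 : 0 ≤ β * (2 * q) ^ (n₀ + n) := by positivity
  calc β * (2 * q) ^ (n₀ + n) * |ip u (F n)|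
      ≤ β * (2 * q) ^ (n₀ + n) * (C * B * ((1 / 4) ^ (n₀ + n) * (1 / 2) ^ ((n₀ + n) * k))) :=
        mul_le_mul_of_nonneg_left h1 h2
    _ = β * C * B * ((2 * q) ^ (n₀ + n) * (1 / 4) ^ (n₀ + n)) * (1 / 2) ^ ((n₀ + n) * k) := by ring
    _ = _ := by rw [pow_id]

lemma itd_tm (hF : Blocks M n₀ C F) (hG : Blocks M n₀ C G) (j : ℕ) (u : V → V) (n : ℕ) (x : V) :
    iteratedFDeriv ℝ j (tm n₀ β q F G u n) x = (β * (2 * q) ^ (n₀ + n)) •
      (ip u (F n) • iteratedFDeriv ℝ j (G n) x + ip u (G n) • iteratedFDeriv ℝ j (F n) x) := by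
  have hf : ContDiffAt ℝ j (F n) x := ((hF.smooth n).of_le (by exact_mod_cast le_top)).contDiffAt
  have hg : ContDiffAt ℝ j (G n) x := ((hG.smooth n).of_le (by exact_mod_cast le_top)).contDiffAt
  have e : tm n₀ β q F G u n = (β * (2 * q) ^ (n₀ + n)) •
      ((ip u (F n) • G n) + (ip u (G n) • F n)) := rfl
  have hg' : ContDiffAt ℝ j (ip u (F n) • G n) x := hg.const_smul (ip u (F n))
  have hf' : ContDiffAt ℝ j (ip u (G n) • F n) x := hf.const_smul (ip u (G n))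
  have hs : ContDiffAt ℝ j (ip u (F n) • G n + ip u (G n) • F n) x := hg'.add hf'
  rw [e, iteratedFDeriv_const_smul_apply hs, iteratedFDeriv_add_apply hg' hf',
    iteratedFDeriv_const_smul_apply hg, iteratedFDeriv_const_smul_apply hf]

lemma tm_smooth (hF : Blocks M n₀ C F) (hG : Blocks M n₀ C G) (u : V → V) (n : ℕ) :
    ContDiff ℝ ∞ (tm n₀ β q F G u n) := by
  have e : tm n₀ β q F G u n = (β * (2 * q) ^ (n₀ + n)) •
      ((ip u (F n) • G n) + (ip u (G n) • F n)) := rfl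
  rw [e]
  have hg' : ContDiff ℝ ∞ (ip u (F n) • G n) := (hG.smooth n).const_smul (ip u (F n))
  have hf' : ContDiff ℝ ∞ (ip u (G n) • F n) := (hF.smooth n).const_smul (ip u (G n))
  exact (hg'.add hf').const_smul (β * (2 * q) ^ (n₀ + n))

lemma itd_tm_le (hF : Blocks M n₀ C F) (hG : Blocks M n₀ C G) (hq : 0 < q)
    (hβ : 0 ≤ β) {k j : ℕ} (hk : k ≤ M) (hj : j ≤ M + 1) (hu : ContDiff ℝ k u) (hp : Periodic3 u)
    (hB : ∀ x, ‖iteratedFDeriv ℝ k u x‖ ≤ B) (n : ℕ) (x : V) :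
    ‖iteratedFDeriv ℝ j (tm n₀ β q F G u n) x‖ ≤
      2 * β * C ^ 2 * B * (q / 2) ^ (n₀ + n) *
        ((1 / 2) ^ ((n₀ + n) * k) * 2 ^ ((n₀ + n) * j)) := by
  have h1 := coef_le hF hq hβ hk hu hp hB n
  have h2 := coef_le hG hq hβ hk hu hp hB n
  have h3 := hF.bound n j hj x
  have h4 := hG.bound n j hj x
  have hb : 0 ≤ β * (2 * q) ^ (n₀ + n) := by positivity
  rw [itd_tm hF hG, norm_smul, Real.norm_of_nonneg hb]
  have h5 : ‖ip u (F n) • iteratedFDeriv ℝ j (G n) x + ip u (G n) • iteratedFDeriv ℝ j (F n) x‖ ≤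
      |ip u (F n)| * (C * 2 ^ ((n₀ + n) * j)) + |ip u (G n)| * (C * 2 ^ ((n₀ + n) * j)) := by
    refine (norm_add_le _ _).trans (add_le_add ?_ ?_)
    · rw [norm_smul, Real.norm_eq_abs]
      exact mul_le_mul_of_nonneg_left h4 (abs_nonneg _)
    · rw [norm_smul, Real.norm_eq_abs]
      exact mul_le_mul_of_nonneg_left h3 (abs_nonneg _)
  have h6 : 0 ≤ C * 2 ^ ((n₀ + n) * j) := (norm_nonneg _).trans h3
  calc β * (2 * q) ^ (n₀ + n) * ‖ip u (F n) • iteratedFDeriv ℝ j (G n) x +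
        ip u (G n) • iteratedFDeriv ℝ j (F n) x‖
      ≤ β * (2 * q) ^ (n₀ + n) * (|ip u (F n)| * (C * 2 ^ ((n₀ + n) * j)) +
        |ip u (G n)| * (C * 2 ^ ((n₀ + n) * j))) := mul_le_mul_of_nonneg_left h5 hb
    _ = (β * (2 * q) ^ (n₀ + n) * |ip u (F n)|) * (C * 2 ^ ((n₀ + n) * j)) +
        (β * (2 * q) ^ (n₀ + n) * |ip u (G n)|) * (C * 2 ^ ((n₀ + n) * j)) := by ring
    _ ≤ (β * C * B * (q / 2) ^ (n₀ + n) * (1 / 2) ^ ((n₀ + n) * k)) * (C * 2 ^ ((n₀ + n) * j)) +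
        (β * C * B * (q / 2) ^ (n₀ + n) * (1 / 2) ^ ((n₀ + n) * k)) * (C * 2 ^ ((n₀ + n) * j)) :=
        add_le_add (mul_le_mul_of_nonneg_right h1 h6) (mul_le_mul_of_nonneg_right h2 h6)
    _ = _ := by ring

lemma half_pow_le {k j N : ℕ} (hj : j ≤ k) : ((1 / 2 : ℝ)) ^ (N * k) * 2 ^ (N * j) ≤ 1 := by
  have h1 : (2 : ℝ) ^ (N * j) ≤ 2 ^ (N * k) :=
    pow_le_pow_right₀ (by norm_num) (Nat.mul_le_mul_left _ hj)
  calc ((1 / 2 : ℝ)) ^ (N * k) * 2 ^ (N * j) ≤ (1 / 2 : ℝ) ^ (N * k) * 2 ^ (N * k) :=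
        mul_le_mul_of_nonneg_left h1 (by positivity)
    _ = 1 := by rw [← mul_pow]; norm_num

lemma B_nonneg {k : ℕ} (hB : ∀ x : V, ‖iteratedFDeriv ℝ k u x‖ ≤ B) : 0 ≤ B :=
  (norm_nonneg _).trans (hB 0)

lemma itd_tm_le' (hF : Blocks M n₀ C F) (hG : Blocks M n₀ C G) (hq : 0 < q)
    (hβ : 0 ≤ β) {k j : ℕ} (hk : k ≤ M) (hj : j ≤ k) (hu : ContDiff ℝ k u) (hp : Periodic3 u)
    (hB : ∀ x, ‖iteratedFDeriv ℝ k u x‖ ≤ B) (n : ℕ) (x : V) :
    ‖iteratedFDeriv ℝ j (tm n₀ β q F G u n) x‖ ≤ 2 * β * C ^ 2 * B * (q / 2) ^ (n₀ + n) := by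
  have hB0 := B_nonneg hB
  refine (itd_tm_le hF hG hq hβ hk (by omega) hu hp hB n x).trans ?_
  have h0 : 0 ≤ 2 * β * C ^ 2 * B * (q / 2) ^ (n₀ + n) := by positivity
  exact (mul_le_mul_of_nonneg_left (half_pow_le hj) h0).trans_eq (mul_one _)

lemma summ_pow {r : ℝ} (h0 : 0 < r) (h1 : r < 1) (a : ℝ) :
    Summable fun n : ℕ => a * r ^ (n₀ + n) := by
  have h : (fun n : ℕ => a * r ^ (n₀ + n)) = fun n => (a * r ^ n₀) * r ^ n := by
    funext n; rw [pow_add]; ring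
  rw [h]
  exact (summable_geometric_of_lt_one h0.le h1).mul_left _

/-- the operator on functions of class `C^k` -/
lemma contDiff_opr (hF : Blocks M n₀ C F) (hG : Blocks M n₀ C G) (hq : 0 < q) (hq2 : q < 2)
    (hβ : 0 ≤ β) {k : ℕ} (hk : k ≤ M) (hu : ContDiff ℝ k u) (hp : Periodic3 u)
    (hB : ∀ x, ‖iteratedFDeriv ℝ k u x‖ ≤ B) :
    ContDiff ℝ k (opr (fun n => β * (2 * q) ^ (n₀ + n)) F G u) ∧
    ∀ j ≤ k, iteratedFDeriv ℝ j (opr (fun n => β * (2 * q) ^ (n₀ + n)) F G u) =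
      fun x => ∑' n, iteratedFDeriv ℝ j (tm n₀ β q F G u n) x := by
  have hs : ∀ i, ContDiff ℝ ((k : ℕ∞) : WithTop ℕ∞) (tm n₀ β q F G u i) := fun i =>
    (tm_smooth hF hG u i).of_le (by exact_mod_cast le_top)
  have hv : ∀ j : ℕ, (j : ℕ∞) ≤ (k : ℕ∞) → Summable
      ((fun _ n => 2 * β * C ^ 2 * B * (q / 2) ^ (n₀ + n) : ℕ → ℕ → ℝ) j) := fun j _ =>
    summ_pow (by positivity) (by linarith) _
  constructor
  · have h := contDiff_tsum (𝕜 := ℝ) (N := (k : ℕ∞)) hs hv (fun j i x hj =>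
      itd_tm_le' hF hG hq hβ hk (by exact_mod_cast hj) hu hp hB i x)
    exact h
  · intro j hj
    exact iteratedFDeriv_tsum (𝕜 := ℝ) (N := (k : ℕ∞)) hs hv (fun j i x hj =>
      itd_tm_le' hF hG hq hβ hk (by exact_mod_cast hj) hu hp hB i x) (by exact_mod_cast hj)

/-- the case `k = 0` -/
lemma tm_le (hF : Blocks M n₀ C F) (hG : Blocks M n₀ C G) (hq : 0 < q) (hβ : 0 ≤ β)
    (hu : Continuous u) (hp : Periodic3 u) (hB : ∀ x, ‖u x‖ ≤ B) (n : ℕ) (x : V) :
    ‖tm n₀ β q F G u n x‖ ≤ 2 * β * C ^ 2 * B * (q / 2) ^ (n₀ + n) := by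
  have h := itd_tm_le' (k := 0) (j := 0) hF hG hq hβ (Nat.zero_le M) le_rfl
    (by simpa using hu) hp (B := B)
    (fun x => by rw [norm_iteratedFDeriv_zero]; exact hB x) n x
  rwa [norm_iteratedFDeriv_zero] at h

lemma tm_summable (hF : Blocks M n₀ C F) (hG : Blocks M n₀ C G) (hq : 0 < q) (hq2 : q < 2)
    (hβ : 0 ≤ β) (hu : Continuous u) (hp : Periodic3 u) (x : V) :
    Summable fun n => tm n₀ β q F G u n x := by
  obtain ⟨B, -, hB⟩ := hp.bounded hu
  exact Summable.of_norm_bounded (summ_pow (by positivity) (by linarith) _)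
    (fun n => tm_le hF hG hq hβ hu hp hB n x)

lemma opr_cont (hF : Blocks M n₀ C F) (hG : Blocks M n₀ C G) (hq : 0 < q) (hq2 : q < 2)
    (hβ : 0 ≤ β) (hu : Continuous u) (hp : Periodic3 u) :
    Continuous (opr (fun n => β * (2 * q) ^ (n₀ + n)) F G u) := by
  obtain ⟨B, -, hB⟩ := hp.bounded hu
  have h := (contDiff_opr (k := 0) hF hG hq hq2 hβ (Nat.zero_le M) (by simpa using hu) hp (B := B)
    (fun x => by rw [norm_iteratedFDeriv_zero]; exact hB x)).1
  exact h.continuous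

lemma opr_per (hF : Blocks M n₀ C F) (hG : Blocks M n₀ C G) (b : ℕ → ℝ) (u : V → V) :
    Periodic3 (opr b F G u) := by
  intro i x
  unfold opr
  simp only [hF.per _ i x, hG.per _ i x]

lemma opr_add (hF : Blocks M n₀ C F) (hG : Blocks M n₀ C G) (hq : 0 < q) (hq2 : q < 2)
    (hβ : 0 ≤ β) (hu : Continuous u) (hp : Periodic3 u) (hw : Continuous w) (hpw : Periodic3 w) :
    opr (fun n => β * (2 * q) ^ (n₀ + n)) F G (fun x => u x + w x) =
      fun x => opr (fun n => β * (2 * q) ^ (n₀ + n)) F G u x +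
        opr (fun n => β * (2 * q) ^ (n₀ + n)) F G w x := by
  funext x
  rw [opr_eq, opr_eq, opr_eq, ← (tm_summable hF hG hq hq2 hβ hu hp x).tsum_add
    (tm_summable hF hG hq hq2 hβ hw hpw x)]
  refine tsum_congr fun n => ?_
  unfold tm
  rw [ip_add hu hw (hF.smooth n).continuous, ip_add hu hw (hG.smooth n).continuous]
  rw [← smul_add]
  congr 1
  rw [add_smul, add_smul]
  abel

lemma opr_smul (b : ℕ → ℝ) (a : ℝ) (u : V → V) :
    opr b F G (fun x => a • u x) = fun x => a • opr b F G u x := by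
  funext x
  unfold opr
  rw [← tsum_const_smul'']
  refine tsum_congr fun n => ?_
  rw [ip_smul, ip_smul, smul_comm a (b n)]
  congr 1
  rw [smul_add, smul_smul, smul_smul]

lemma abs_dot_le (y z : V) : |∑ i, y i * z i| ≤ 3 * (‖y‖ * ‖z‖) := by
  refine (Finset.abs_sum_le_sum_abs _ _).trans ?_
  have h : ∀ i ∈ (Finset.univ : Finset (Fin 3)), |y i * z i| ≤ ‖y‖ * ‖z‖ := fun i _ => by
    rw [abs_mul]
    exact mul_le_mul (norm_le_pi_norm y i) (norm_le_pi_norm z i) (abs_nonneg _) (norm_nonneg _)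
  refine (Finset.sum_le_sum h).trans ?_
  simp

/-- the bilinear form of the operator -/
lemma ip_opr (hF : Blocks M n₀ C F) (hG : Blocks M n₀ C G) (hq : 0 < q) (hq2 : q < 2)
    (hβ : 0 ≤ β) (hu : Continuous u) (hp : Periodic3 u) (hw : Continuous w) (hpw : Periodic3 w) :
    ip (opr (fun n => β * (2 * q) ^ (n₀ + n)) F G u) w =
      ∑' n, β * (2 * q) ^ (n₀ + n) * (ip u (F n) * ip w (G n) + ip u (G n) * ip w (F n)) := by
  obtain ⟨B, hB0, hB⟩ := hp.bounded hu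
  obtain ⟨W, hW0, hW⟩ := hpw.bounded hw
  have hc : ∀ n, Continuous fun x => ∑ i, tm n₀ β q F G u n x i * w x i := fun n =>
    cont_dot (tm_smooth hF hG u n).continuous hw
  have hle : ∀ n x, ‖∑ i, tm n₀ β q F G u n x i * w x i‖ ≤
      3 * (2 * β * C ^ 2 * B * (q / 2) ^ (n₀ + n) * W) := fun n x => by
    rw [Real.norm_eq_abs]
    refine (abs_dot_le _ _).trans ?_
    have h1 := tm_le hF hG hq hβ hu hp hB n x
    have h2 := mul_le_mul h1 (hW x) (norm_nonneg _) ((norm_nonneg _).trans h1)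
    linarith
  have e1 : ∀ n, ∫ x in Dom, ∑ i, tm n₀ β q F G u n x i * w x i =
      β * (2 * q) ^ (n₀ + n) * (ip u (F n) * ip w (G n) + ip u (G n) * ip w (F n)) := by
    intro n
    have h1 : ip (tm n₀ β q F G u n) w =
        β * (2 * q) ^ (n₀ + n) * (ip u (F n) * ip w (G n) + ip u (G n) * ip w (F n)) := by
      unfold tm
      rw [ip_smul, ip_add (by have := (hG.smooth n).continuous; fun_prop)
        (by have := (hF.smooth n).continuous; fun_prop) hw, ip_smul, ip_smul,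
        ip_comm (G n) w, ip_comm (F n) w]
    exact h1
  simp only [← e1]
  rw [integral_tsum_of_summable_integral_norm (fun n => intOn (hc n))]
  · unfold ip
    refine integral_congr_ae (Eventually.of_forall fun x => ?_)
    have hs := tm_summable hF hG hq hq2 hβ hu hp x
    have hi : ∀ i, (∑' n, tm n₀ β q F G u n x) i = ∑' n, tm n₀ β q F G u n x i := fun i =>
      tsum_apply hs
    have hsi : ∀ i, Summable fun n => tm n₀ β q F G u n x i := fun i => (Pi.summable.1 hs) i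
    simp only [opr_eq, hi]
    rw [Summable.tsum_finsetSum (fun i _ => (hsi i).mul_right _)]
    refine Finset.sum_congr rfl fun i _ => ?_
    rw [tsum_mul_right]
  · refine Summable.of_nonneg_of_le (fun n => integral_nonneg fun x => norm_nonneg _)
      (fun n => ?_) ((summ_pow (n₀ := n₀) (by positivity : 0 < q / 2) (by linarith)
        ((volume Dom).toReal * (3 * (2 * β * C ^ 2 * B * W)))))
    have h1 : ∫ x in Dom, ‖∑ i, tm n₀ β q F G u n x i * w x i‖ ≤
        ∫ _ in Dom, 3 * (2 * β * C ^ 2 * B * (q / 2) ^ (n₀ + n) * W) := by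
      refine integral_mono (intOn (hc n).norm) (intOn continuous_const) (fun x => hle n x)
    refine h1.trans_eq ?_
    rw [setIntegral_const, smul_eq_mul, measureReal_def]
    ring

/-- the bound on `L²` -/
lemma opr_l2 (hF : Blocks M n₀ C F) (hG : Blocks M n₀ C G) (hC : 0 < C) (hq : 0 < q) (hq2 : q < 2)
    (hβ : 0 ≤ β) (hu : Continuous u) (hp : Periodic3 u) :
    ∫ x in Dom, sq3 (opr (fun n => β * (2 * q) ^ (n₀ + n)) F G u x) ≤
      (∑' n, 2 * β * C ^ 2 * (q / 2) ^ (n₀ + n)) ^ 2 * ∫ x in Dom, sq3 (u x) := by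
  set T := opr (fun n => β * (2 * q) ^ (n₀ + n)) F G u with hT
  have hTc : Continuous T := opr_cont hF hG hq hq2 hβ hu hp
  have hTp : Periodic3 T := opr_per hF hG _ u
  rw [← ip_self, ← ip_self]
  set E := ip u u
  set W := ip T T with hW
  have hE : 0 ≤ E := ip_self_nonneg u
  have hW0 : 0 ≤ W := ip_self_nonneg T
  have hfl : ∀ {H : ℕ → V → V}, Blocks M n₀ C H → ∀ n, Real.sqrt (ip (H n) (H n)) ≤
      C * (1 / 2) ^ (n₀ + n) := fun {H} hH n => by
    rw [ip_self]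
    refine Real.sqrt_le_iff.2 ⟨by positivity, (hH.l2 n).trans_eq ?_⟩
    rw [mul_pow, ← pow_mul, mul_comm (n₀ + n) 2, pow_mul]
    norm_num
  have hterm : ∀ {H : ℕ → V → V}, Blocks M n₀ C H → ∀ {v : V → V}, Continuous v → ∀ n,
      |ip v (H n)| ≤ Real.sqrt (ip v v) * (C * (1 / 2) ^ (n₀ + n)) := fun {H} hH {v} hv n =>
    (abs_ip_le hv (hH.smooth n).continuous).trans
      (mul_le_mul_of_nonneg_left (hfl hH n) (Real.sqrt_nonneg _))
  have hsum : W ≤ Real.sqrt E * Real.sqrt W * ∑' n, 2 * β * C ^ 2 * (q / 2) ^ (n₀ + n) := by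
    have h1 : W = ∑' n, β * (2 * q) ^ (n₀ + n) *
        (ip u (F n) * ip T (G n) + ip u (G n) * ip T (F n)) :=
      ip_opr hF hG hq hq2 hβ hu hp hTc hTp
    rw [h1, ← tsum_mul_left]
    have hs : Summable fun n => Real.sqrt E * Real.sqrt W *
        (2 * β * C ^ 2 * (q / 2) ^ (n₀ + n)) :=
      (summ_pow (by positivity) (by linarith) _).mul_left _
    rw [← h1]
    have hb : ∀ n, ‖β * (2 * q) ^ (n₀ + n) *
        (ip u (F n) * ip T (G n) + ip u (G n) * ip T (F n))‖ ≤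
        Real.sqrt E * Real.sqrt W * (2 * β * C ^ 2 * (q / 2) ^ (n₀ + n)) := fun n => by
      have hbn : 0 ≤ β * (2 * q) ^ (n₀ + n) := by positivity
      rw [norm_mul, Real.norm_of_nonneg hbn, Real.norm_eq_abs]
      have h2 : |ip u (F n) * ip T (G n) + ip u (G n) * ip T (F n)| ≤
          2 * ((Real.sqrt E * (C * (1 / 2) ^ (n₀ + n))) *
            (Real.sqrt W * (C * (1 / 2) ^ (n₀ + n)))) := by
        refine (abs_add_le _ _).trans ?_
        rw [abs_mul, abs_mul]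
        have h3 := mul_le_mul (hterm hF hu n) (hterm hG hTc n) (abs_nonneg _) (by positivity)
        have h4 := mul_le_mul (hterm hG hu n) (hterm hF hTc n) (abs_nonneg _) (by positivity)
        linarith
      refine (mul_le_mul_of_nonneg_left h2 hbn).trans_eq ?_
      have h5 : (1 / 2 : ℝ) ^ (n₀ + n) * (1 / 2) ^ (n₀ + n) = (1 / 4) ^ (n₀ + n) := by
        rw [← mul_pow]; norm_num
      rw [← pow_id q (n₀ + n), ← h5]
      ring
    calc W = _ := h1
      _ ≤ ‖∑' n, β * (2 * q) ^ (n₀ + n) *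
          (ip u (F n) * ip T (G n) + ip u (G n) * ip T (F n))‖ := Real.le_norm_self _
      _ ≤ _ := tsum_of_norm_bounded hs.hasSum hb
  set K := ∑' n, 2 * β * C ^ 2 * (q / 2) ^ (n₀ + n) with hK
  have hK0 : 0 ≤ K := tsum_nonneg fun n => by positivity
  have h6 : Real.sqrt W ≤ K * Real.sqrt E := by
    rcases (Real.sqrt_nonneg W).eq_or_lt with h | h
    · rw [← h]; positivity
    · have h7 : Real.sqrt W * Real.sqrt W = W := Real.mul_self_sqrt hW0
      have h8 : Real.sqrt W * Real.sqrt W ≤ Real.sqrt W * (K * Real.sqrt E) := by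
        rw [h7]; linarith
      exact le_of_mul_le_mul_left h8 h
  calc W = Real.sqrt W ^ 2 := (Real.sq_sqrt hW0).symm
    _ ≤ (K * Real.sqrt E) ^ 2 := pow_le_pow_left₀ (Real.sqrt_nonneg _) h6 2
    _ = K ^ 2 * E := by rw [mul_pow, Real.sq_sqrt hE]

/-- the trace as a continuous linear functional -/
noncomputable def trL : (V →L[ℝ] V) →L[ℝ] ℝ :=
  ∑ i, (ContinuousLinearMap.proj (R := ℝ) (φ := fun _ : Fin 3 => ℝ) i).comp
    (ContinuousLinearMap.apply ℝ V (Pi.single i 1 : V))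

lemma trL_apply (A : V →L[ℝ] V) : trL A = ∑ i, A (Pi.single i 1) i := by
  simp [trL]

lemma div_tm (hF : Blocks M n₀ C F) (hG : Blocks M n₀ C G) (u : V → V) (n : ℕ) (x : V) :
    divergence (tm n₀ β q F G u n) x = 0 := by
  have hf : HasFDerivAt (F n) (fderiv ℝ (F n) x) x :=
    ((hF.smooth n).differentiable (by simp)).differentiableAt.hasFDerivAt
  have hg : HasFDerivAt (G n) (fderiv ℝ (G n) x) x :=
    ((hG.smooth n).differentiable (by simp)).differentiableAt.hasFDerivAt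
  have h : HasFDerivAt (tm n₀ β q F G u n) ((β * (2 * q) ^ (n₀ + n)) •
      (ip u (F n) • fderiv ℝ (G n) x + ip u (G n) • fderiv ℝ (F n) x)) x :=
    ((hg.const_smul (ip u (F n))).add (hf.const_smul (ip u (G n)))).const_smul
      (β * (2 * q) ^ (n₀ + n))
  have h1 := hF.div n x
  have h2 := hG.div n x
  rw [divergence_eq_sum] at h1 h2 ⊢
  rw [h.fderiv, ← trL_apply, map_smul, map_add, map_smul, map_smul, trL_apply, trL_apply, h1, h2]
  simp

lemma opr_div (hM : 1 ≤ M) (hF : Blocks M n₀ C F) (hG : Blocks M n₀ C G) (hq : 0 < q) (hq2 : q < 2)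
    (hβ : 0 ≤ β) (hu : ContDiff ℝ 1 u) (hp : Periodic3 u) (x : V) :
    divergence (opr (fun n => β * (2 * q) ^ (n₀ + n)) F G u) x = 0 := by
  obtain ⟨B, -, hB⟩ := hp.fderiv.bounded (hu.continuous_fderiv one_ne_zero)
  have hB' : ∀ x, ‖iteratedFDeriv ℝ 1 u x‖ ≤ B := fun x => by
    rw [norm_iteratedFDeriv_one]; exact hB x
  have hd : ∀ n x, HasFDerivAt (tm n₀ β q F G u n) (fderiv ℝ (tm n₀ β q F G u n) x) x :=
    fun n x => ((tm_smooth hF hG u n).differentiable (by simp)).differentiableAt.hasFDerivAt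
  have hle : ∀ n x, ‖fderiv ℝ (tm n₀ β q F G u n) x‖ ≤
      2 * β * C ^ 2 * B * (q / 2) ^ (n₀ + n) := fun n x => by
    rw [← norm_iteratedFDeriv_one]
    exact itd_tm_le' (k := 1) hF hG hq hβ hM le_rfl (by exact_mod_cast hu) hp hB' n x
  have hs : Summable fun n : ℕ => 2 * β * C ^ 2 * B * (q / 2) ^ (n₀ + n) :=
    summ_pow (by positivity) (by linarith) _
  have h := hasFDerivAt_tsum hs hd hle (tm_summable hF hG hq hq2 hβ hu.continuous hp x) x
  have e : (opr (fun n => β * (2 * q) ^ (n₀ + n)) F G u) =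
      fun y => ∑' n, tm n₀ β q F G u n y := rfl
  have hs' : Summable fun n => fderiv ℝ (tm n₀ β q F G u n) x :=
    Summable.of_norm_bounded hs fun n => hle n x
  rw [divergence_eq_sum, e, h.fderiv, ← trL_apply, ContinuousLinearMap.map_tsum _ hs']
  have h0 : ∀ n, trL (fderiv ℝ (tm n₀ β q F G u n) x) = 0 := fun n => by
    rw [trL_apply, ← divergence_eq_sum]
    exact div_tm hF hG u n x
  simp [h0]

/-- the Hölder bound for one block -/
lemma block_holder (hF : Blocks M n₀ C F) (hC : 0 < C) (hδ : 0 < δ) (hδ1 : δ ≤ 1) {k : ℕ}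
    (hk : k ≤ M) (n : ℕ) (x y : V) :
    ‖iteratedFDeriv ℝ k (F n) x - iteratedFDeriv ℝ k (F n) y‖ ≤
      2 * C * 2 ^ ((n₀ + n) * k) * (((2 : ℝ) ^ (n₀ + n) * ‖x - y‖) ^ (1 - δ)) := by
  set s := (2 : ℝ) ^ (n₀ + n) * ‖x - y‖ with hs
  have hs0 : 0 ≤ s := by positivity
  have h1 : ‖iteratedFDeriv ℝ k (F n) x - iteratedFDeriv ℝ k (F n) y‖ ≤
      2 * C * 2 ^ ((n₀ + n) * k) := by
    refine (norm_sub_le _ _).trans ?_
    have h2 := hF.bound n k (by omega) x
    have h3 := hF.bound n k (by omega) y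
    linarith
  have h2 : ‖iteratedFDeriv ℝ k (F n) x - iteratedFDeriv ℝ k (F n) y‖ ≤
      C * 2 ^ ((n₀ + n) * k) * s := by
    have hd : ∀ z ∈ (univ : Set V), DifferentiableAt ℝ (iteratedFDeriv ℝ k (F n)) z := fun z _ =>
      ((hF.smooth n).differentiable_iteratedFDeriv (by exact_mod_cast WithTop.coe_lt_top _)).differentiableAt
    have hb : ∀ z ∈ (univ : Set V), ‖fderiv ℝ (iteratedFDeriv ℝ k (F n)) z‖ ≤
        C * 2 ^ ((n₀ + n) * (k + 1)) := fun z _ => by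
      rw [norm_fderiv_iteratedFDeriv]
      exact hF.bound n (k + 1) (by omega) z
    have h3 := convex_univ.norm_image_sub_le_of_norm_fderiv_le hd hb (mem_univ y) (mem_univ x)
    refine h3.trans_eq ?_
    rw [hs, mul_add, mul_one, pow_add]
    ring
  have h3 : min 1 s ≤ s ^ (1 - δ) := by
    rcases le_or_gt s 1 with h | h
    · refine (min_le_right _ _).trans ?_
      rcases hs0.eq_or_lt with h0 | h0
      · rw [← h0]; positivity
      · calc s = s ^ (1 : ℝ) := (Real.rpow_one s).symm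
          _ ≤ s ^ (1 - δ) := Real.rpow_le_rpow_of_exponent_ge h0 h (by linarith)
    · exact (min_le_left _ _).trans (Real.one_le_rpow h.le (by linarith))
  have hA : 0 ≤ C * 2 ^ ((n₀ + n) * k) := by positivity
  have h4 : ‖iteratedFDeriv ℝ k (F n) x - iteratedFDeriv ℝ k (F n) y‖ ≤
      2 * C * 2 ^ ((n₀ + n) * k) * min 1 s := by
    rcases le_total 1 s with h | h
    · rw [min_eq_left h]; linarith
    · rw [min_eq_right h]
      nlinarith [mul_nonneg hA hs0]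
  exact h4.trans (mul_le_mul_of_nonneg_left h3 (by positivity))

lemma pow_rpow (N : ℕ) (d : ℝ) (hd : 0 ≤ d) :
    (q / 2) ^ N * ((2 : ℝ) ^ N * d) ^ (1 - δ) = (q / 2 ^ δ) ^ N * d ^ (1 - δ) := by
  rw [Real.mul_rpow (by positivity) hd, Real.rpow_sub (by positivity), Real.rpow_one,
    ← mul_assoc]
  congr 1
  rw [← Real.rpow_natCast 2 N, ← Real.rpow_mul (by norm_num), mul_comm (N : ℝ) δ,
    Real.rpow_mul (by norm_num), Real.rpow_natCast, Real.rpow_natCast, div_pow, div_pow]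
  have h1 : (2 : ℝ) ^ N ≠ 0 := by positivity
  have h2 : ((2 : ℝ) ^ δ) ^ N ≠ 0 := by positivity
  field_simp

lemma itd_tm_holder (hF : Blocks M n₀ C F) (hG : Blocks M n₀ C G) (hC : 0 < C) (hq : 0 < q)
    (hδ : 0 < δ) (hδ1 : δ ≤ 1) (hβ : 0 ≤ β) {k : ℕ} (hk : k ≤ M) (hu : ContDiff ℝ k u)
    (hp : Periodic3 u) (hB : ∀ x, ‖iteratedFDeriv ℝ k u x‖ ≤ B) (n : ℕ) (x y : V) :
    ‖iteratedFDeriv ℝ k (tm n₀ β q F G u n) x - iteratedFDeriv ℝ k (tm n₀ β q F G u n) y‖ ≤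
      4 * β * C ^ 2 * B * ‖x - y‖ ^ (1 - δ) * (q / 2 ^ δ) ^ (n₀ + n) := by
  have hB0 := B_nonneg hB
  have h1 := coef_le hF hq hβ hk hu hp hB n
  have h2 := coef_le hG hq hβ hk hu hp hB n
  have h3 := block_holder hF hC hδ hδ1 hk n x y
  have h4 := block_holder hG hC hδ hδ1 hk n x y
  set s := ((2 : ℝ) ^ (n₀ + n) * ‖x - y‖) ^ (1 - δ) with hs
  have hs0 : 0 ≤ s := by positivity
  have hb : 0 ≤ β * (2 * q) ^ (n₀ + n) := by positivity
  rw [itd_tm hF hG, itd_tm hF hG, ← smul_sub, norm_smul, Real.norm_of_nonneg hb]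
  have e : ip u (F n) • iteratedFDeriv ℝ k (G n) x + ip u (G n) • iteratedFDeriv ℝ k (F n) x -
      (ip u (F n) • iteratedFDeriv ℝ k (G n) y + ip u (G n) • iteratedFDeriv ℝ k (F n) y) =
      ip u (F n) • (iteratedFDeriv ℝ k (G n) x - iteratedFDeriv ℝ k (G n) y) +
      ip u (G n) • (iteratedFDeriv ℝ k (F n) x - iteratedFDeriv ℝ k (F n) y) := by
    rw [smul_sub, smul_sub]; abel
  rw [e]
  have h5 : ‖ip u (F n) • (iteratedFDeriv ℝ k (G n) x - iteratedFDeriv ℝ k (G n) y) +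
      ip u (G n) • (iteratedFDeriv ℝ k (F n) x - iteratedFDeriv ℝ k (F n) y)‖ ≤
      |ip u (F n)| * (2 * C * 2 ^ ((n₀ + n) * k) * s) +
      |ip u (G n)| * (2 * C * 2 ^ ((n₀ + n) * k) * s) := by
    refine (norm_add_le _ _).trans (add_le_add ?_ ?_)
    · rw [norm_smul, Real.norm_eq_abs]
      exact mul_le_mul_of_nonneg_left h4 (abs_nonneg _)
    · rw [norm_smul, Real.norm_eq_abs]
      exact mul_le_mul_of_nonneg_left h3 (abs_nonneg _)
  have h6 : 0 ≤ 2 * C * 2 ^ ((n₀ + n) * k) * s := by positivity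
  have h7 : (1 / 2 : ℝ) ^ ((n₀ + n) * k) * 2 ^ ((n₀ + n) * k) = 1 := by
    rw [← mul_pow]; norm_num
  calc _ ≤ β * (2 * q) ^ (n₀ + n) * (|ip u (F n)| * (2 * C * 2 ^ ((n₀ + n) * k) * s) +
        |ip u (G n)| * (2 * C * 2 ^ ((n₀ + n) * k) * s)) := mul_le_mul_of_nonneg_left h5 hb
    _ = (β * (2 * q) ^ (n₀ + n) * |ip u (F n)|) * (2 * C * 2 ^ ((n₀ + n) * k) * s) +
        (β * (2 * q) ^ (n₀ + n) * |ip u (G n)|) * (2 * C * 2 ^ ((n₀ + n) * k) * s) := by ring
    _ ≤ (β * C * B * (q / 2) ^ (n₀ + n) * (1 / 2) ^ ((n₀ + n) * k)) *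
          (2 * C * 2 ^ ((n₀ + n) * k) * s) +
        (β * C * B * (q / 2) ^ (n₀ + n) * (1 / 2) ^ ((n₀ + n) * k)) *
          (2 * C * 2 ^ ((n₀ + n) * k) * s) :=
        add_le_add (mul_le_mul_of_nonneg_right h1 h6) (mul_le_mul_of_nonneg_right h2 h6)
    _ = 4 * β * C ^ 2 * B * ((q / 2) ^ (n₀ + n) * s) *
          ((1 / 2 : ℝ) ^ ((n₀ + n) * k) * 2 ^ ((n₀ + n) * k)) := by ring
    _ = 4 * β * C ^ 2 * B * ‖x - y‖ ^ (1 - δ) * (q / 2 ^ δ) ^ (n₀ + n) := by
        rw [h7, hs, pow_rpow _ _ (norm_nonneg _)]; ring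

end

end O2

open O2 in
/-- **The operator is small, symmetric and smoothing.** -/
theorem isSmall (M n₀ : ℕ) (hM : 1 ≤ M) (C q δ : ℝ) (hC : 0 < C) (hq : 0 < q) (hδ : 0 < δ)
    (hδ1 : δ ≤ 1) (hqδ : q < 2 ^ δ) :
    ∃ C' > 0, ∀ F G, Blocks M n₀ C F → Blocks M n₀ C G → ∀ β ≥ 0,
      IsSmall M (C' * β) δ (opr (fun n => β * (2 * q) ^ (n₀ + n)) F G) := by
  have h2δ : (2 : ℝ) ^ δ ≤ 2 := by
    calc (2 : ℝ) ^ δ ≤ 2 ^ (1 : ℝ) := Real.rpow_le_rpow_of_exponent_le (by norm_num) hδ1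
      _ = 2 := Real.rpow_one 2
  have h2p : (0 : ℝ) < 2 ^ δ := by positivity
  have hq2 : q < 2 := hqδ.trans_le h2δ
  have hr0 : 0 < q / 2 ^ δ := by positivity
  have hr1 : q / 2 ^ δ < 1 := by rw [div_lt_one h2p]; exact hqδ
  have hle : ∀ n : ℕ, (q / 2) ^ (n₀ + n) ≤ (q / 2 ^ δ) ^ (n₀ + n) := fun n =>
    pow_le_pow_left₀ (by positivity) (div_le_div_of_nonneg_left hq.le h2p h2δ) _
  have hS : Summable fun n : ℕ => (q / 2 ^ δ) ^ (n₀ + n) := by
    simpa using summ_pow (n₀ := n₀) hr0 hr1 1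
  set S := ∑' n : ℕ, (q / 2 ^ δ) ^ (n₀ + n) with hSd
  have hS0 : 0 < S := hS.tsum_pos (fun n => by positivity) 0 (by positivity)
  have hSr : Summable fun n : ℕ => (q / 2) ^ (n₀ + n) := by
    simpa using summ_pow (n₀ := n₀) (by positivity : 0 < q / 2) (by linarith) 1
  have hSle : ∑' n : ℕ, (q / 2) ^ (n₀ + n) ≤ S := hSr.tsum_le_tsum hle hS
  refine ⟨4 * C ^ 2 * S, by positivity, fun F G hF hG β hβ => ?_⟩
  refine ⟨fun u _ _ => opr_per hF hG _ u, fun u w hu hp hw hpw =>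
    opr_add hF hG hq hq2 hβ hu hp hw hpw, fun a u _ _ => opr_smul _ a u, ?_,
    fun u hu hp x => opr_div hM hF hG hq hq2 hβ hu hp x, ?_, ?_⟩
  · intro u w hu hp hw hpw
    rw [ip_comm u, ip_opr hF hG hq hq2 hβ hu hp hw hpw, ip_opr hF hG hq hq2 hβ hw hpw hu hp]
    exact tsum_congr fun n => by ring
  · intro u hu hp
    refine (opr_l2 hF hG hC hq hq2 hβ hu hp).trans ?_
    refine mul_le_mul_of_nonneg_right ?_ (integral_nonneg fun x => sq3_nonneg _)
    refine pow_le_pow_left₀ (tsum_nonneg fun n => by positivity) ?_ 2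
    rw [tsum_mul_left]
    have h : 0 ≤ β * C ^ 2 * S := by positivity
    have h' : 2 * β * C ^ 2 * ∑' n : ℕ, (q / 2) ^ (n₀ + n) ≤ 2 * β * C ^ 2 * S :=
      mul_le_mul_of_nonneg_left hSle (by positivity)
    linarith
  · intro k hk u B hu hp hB
    have hB0 := B_nonneg hB
    obtain ⟨h1, h2⟩ := contDiff_opr hF hG hq hq2 hβ hk hu hp hB
    have h3 := h2 k le_rfl
    have hs1 : Summable fun n : ℕ => 2 * β * C ^ 2 * B * (q / 2) ^ (n₀ + n) :=
      summ_pow (by positivity) (by linarith) _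
    refine ⟨h1, fun x => ?_, fun x y => ?_⟩
    · rw [h3]
      refine (tsum_of_norm_bounded hs1.hasSum (fun n =>
        itd_tm_le' hF hG hq hβ hk le_rfl hu hp hB n x)).trans ?_
      rw [tsum_mul_left]
      have h' : 2 * β * C ^ 2 * B * ∑' n : ℕ, (q / 2) ^ (n₀ + n) ≤ 2 * β * C ^ 2 * B * S :=
        mul_le_mul_of_nonneg_left hSle (by positivity)
      have h : 0 ≤ β * C ^ 2 * B * S := by positivity
      linarith
    · rw [h3]
      have hsx : ∀ x, Summable fun n => iteratedFDeriv ℝ k (tm n₀ β q F G u n) x := fun x =>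
        Summable.of_norm_bounded hs1 fun n => itd_tm_le' hF hG hq hβ hk le_rfl hu hp hB n x
      show ‖(∑' n, iteratedFDeriv ℝ k (tm n₀ β q F G u n) x) -
        ∑' n, iteratedFDeriv ℝ k (tm n₀ β q F G u n) y‖ ≤ _
      rw [← (hsx x).tsum_sub (hsx y)]
      have hs2 : Summable fun n : ℕ => 4 * β * C ^ 2 * B * ‖x - y‖ ^ (1 - δ) *
          (q / 2 ^ δ) ^ (n₀ + n) := summ_pow hr0 hr1 _
      refine (tsum_of_norm_bounded hs2.hasSum (fun n =>
        itd_tm_holder hF hG hC hq hδ hδ1 hβ hk hu hp hB n x y)).trans_eq ?_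
      rw [tsum_mul_left]
      ring

end Pool.Agent.Zk27.MB
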