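import Pool.Agent.Zk27.MB.Cut2
import Pool.Agent.Zk27.MB.O2

/-! The operator built on two families of blocks whose number of vanishing moments grows with the
scale is symmetric and gains `1 - δ` derivatives on every `C^k` (module O2') -/

set_option autoImplicit false

open MeasureTheory Set Filter
open scoped ContDiff

namespace Pool.Agent.Zk27.MB

open Pool.Agent.H708R2.EulerSign

namespace O2b

open O2 (intOn cont_dot ip_comm ip_self ip_add ip_smul ip_self_nonneg abs_ip_le half_pow_le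
  summ_pow abs_dot_le trL trL_apply pow_rpow)

/-- the properties of the blocks used for one number `k` of derivatives; `m n` is the growth -/
structure Bl (n₀ : ℕ) (m : ℕ → ℝ) (k : ℕ) (C : ℝ) (F : ℕ → V → V) : Prop where
  smooth : ∀ n, ContDiff ℝ ∞ (F n)
  per : ∀ n, Periodic3 (F n)
  div : ∀ n x, divergence (F n) x = 0
  bound : ∀ n, ∀ j ≤ k + 1, ∀ x,
    ‖iteratedFDeriv ℝ j (F n) x‖ ≤ C * m n * 2 ^ ((n₀ + n) * j)
  l2 : ∀ n, ∫ x in Dom, sq3 (F n x) ≤ (C * m n) ^ 2 * (1 / 4) ^ (n₀ + n)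
  mom : ∀ n, ∀ (u : V → V) (B : ℝ), ContDiff ℝ k u → Periodic3 u →
    (∀ j ≤ k, ∀ x, ‖iteratedFDeriv ℝ j u x‖ ≤ B) →
    |ip u (F n)| ≤ C * B * m n * ((1 / 4) ^ (n₀ + n) * (1 / 2) ^ ((n₀ + n) * k))

/-- the two families with the weights -/
structure Dat (n₀ : ℕ) (m b : ℕ → ℝ) (k : ℕ) (C β ρ : ℝ) (F G : ℕ → V → V) : Prop where
  F : Bl n₀ m k C F
  G : Bl n₀ m k C G
  C0 : 0 < C
  m0 : ∀ n, 0 ≤ m n
  β0 : 0 ≤ β
  ρ0 : 0 < ρ
  ρ2 : ρ < 2
  w : ∀ n, |b n| * (m n ^ 2 * (1 / 4) ^ (n₀ + n)) ≤ β * (ρ / 2) ^ (n₀ + n)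

/-- the terms of the operator -/
noncomputable def tm (b : ℕ → ℝ) (F G : ℕ → V → V) (u : V → V) (n : ℕ) (x : V) : V :=
  b n • (ip u (F n) • G n x + ip u (G n) • F n x)

section

variable {n₀ k : ℕ} {m b : ℕ → ℝ} {C δ β ρ B : ℝ} {F G : ℕ → V → V} {u w : V → V}

lemma opr_eq (u : V → V) (x : V) : opr b F G u x = ∑' n, tm b F G u n x := rfl

lemma Dat.symm (h : Dat n₀ m b k C β ρ F G) : Dat n₀ m b k C β ρ G F :=
  ⟨h.G, h.F, h.C0, h.m0, h.β0, h.ρ0, h.ρ2, h.w⟩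

lemma B_nonneg (hB : ∀ j ≤ k, ∀ x, ‖iteratedFDeriv ℝ j u x‖ ≤ B) : 0 ≤ B :=
  (norm_nonneg _).trans (hB 0 (Nat.zero_le k) 0)

lemma coef_le (h : Dat n₀ m b k C β ρ F G) (hu : ContDiff ℝ k u) (hp : Periodic3 u)
    (hB : ∀ j ≤ k, ∀ x, ‖iteratedFDeriv ℝ j u x‖ ≤ B) (n : ℕ) :
    |b n| * |ip u (F n)| * (C * m n) ≤
      β * C ^ 2 * B * (ρ / 2) ^ (n₀ + n) * (1 / 2) ^ ((n₀ + n) * k) := by
  have hB0 := B_nonneg hB
  have h1 := h.F.mom n u B hu hp hB
  have h2 := h.w n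
  have h3 := h.m0 n
  have h4 := h.C0.le
  have h5 : 0 ≤ |b n| := abs_nonneg _
  calc |b n| * |ip u (F n)| * (C * m n)
      ≤ |b n| * (C * B * m n * ((1 / 4) ^ (n₀ + n) * (1 / 2) ^ ((n₀ + n) * k))) * (C * m n) := by
        gcongr
    _ = C ^ 2 * B * (1 / 2) ^ ((n₀ + n) * k) * (|b n| * (m n ^ 2 * (1 / 4) ^ (n₀ + n))) := by ring
    _ ≤ C ^ 2 * B * (1 / 2) ^ ((n₀ + n) * k) * (β * (ρ / 2) ^ (n₀ + n)) := by gcongr
    _ = _ := by ring

lemma itd_tm (h : Dat n₀ m b k C β ρ F G) (j : ℕ) (u : V → V) (n : ℕ) (x : V) :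
    iteratedFDeriv ℝ j (tm b F G u n) x = b n •
      (ip u (F n) • iteratedFDeriv ℝ j (G n) x + ip u (G n) • iteratedFDeriv ℝ j (F n) x) := by
  have hf : ContDiffAt ℝ j (F n) x := ((h.F.smooth n).of_le (by exact_mod_cast le_top)).contDiffAt
  have hg : ContDiffAt ℝ j (G n) x := ((h.G.smooth n).of_le (by exact_mod_cast le_top)).contDiffAt
  have e : tm b F G u n = b n • ((ip u (F n) • G n) + (ip u (G n) • F n)) := rfl
  have hg' : ContDiffAt ℝ j (ip u (F n) • G n) x := hg.const_smul (ip u (F n))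
  have hf' : ContDiffAt ℝ j (ip u (G n) • F n) x := hf.const_smul (ip u (G n))
  have hs : ContDiffAt ℝ j (ip u (F n) • G n + ip u (G n) • F n) x := hg'.add hf'
  rw [e, iteratedFDeriv_const_smul_apply hs, iteratedFDeriv_add_apply hg' hf',
    iteratedFDeriv_const_smul_apply hg, iteratedFDeriv_const_smul_apply hf]

lemma tm_smooth (h : Dat n₀ m b k C β ρ F G) (u : V → V) (n : ℕ) :
    ContDiff ℝ ∞ (tm b F G u n) := by
  have e : tm b F G u n = b n • ((ip u (F n) • G n) + (ip u (G n) • F n)) := rfl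
  rw [e]
  have hg' : ContDiff ℝ ∞ (ip u (F n) • G n) := (h.G.smooth n).const_smul (ip u (F n))
  have hf' : ContDiff ℝ ∞ (ip u (G n) • F n) := (h.F.smooth n).const_smul (ip u (G n))
  exact (hg'.add hf').const_smul (b n)

/-- a bound for a combination of two terms -/
lemma comb_le (h : Dat n₀ m b k C β ρ F G) (hu : ContDiff ℝ k u) (hp : Periodic3 u)
    (hB : ∀ j ≤ k, ∀ x, ‖iteratedFDeriv ℝ j u x‖ ≤ B) (n : ℕ) {E : Type*}
    [NormedAddCommGroup E] [NormedSpace ℝ E] (y z : E) (s : ℝ) (hs : 0 ≤ s)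
    (hy : ‖y‖ ≤ C * m n * s) (hz : ‖z‖ ≤ C * m n * s) :
    ‖b n • (ip u (F n) • y + ip u (G n) • z)‖ ≤
      2 * β * C ^ 2 * B * (ρ / 2) ^ (n₀ + n) * ((1 / 2) ^ ((n₀ + n) * k) * s) := by
  have h1 := coef_le h hu hp hB n
  have h2 := coef_le h.symm hu hp hB n
  have h5 : 0 ≤ |b n| := abs_nonneg _
  rw [norm_smul, Real.norm_eq_abs]
  have h6 : ‖ip u (F n) • y + ip u (G n) • z‖ ≤
      |ip u (F n)| * (C * m n * s) + |ip u (G n)| * (C * m n * s) := by
    refine (norm_add_le _ _).trans (add_le_add ?_ ?_)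
    · rw [norm_smul, Real.norm_eq_abs]
      exact mul_le_mul_of_nonneg_left hy (abs_nonneg _)
    · rw [norm_smul, Real.norm_eq_abs]
      exact mul_le_mul_of_nonneg_left hz (abs_nonneg _)
  calc |b n| * ‖ip u (F n) • y + ip u (G n) • z‖
      ≤ |b n| * (|ip u (F n)| * (C * m n * s) + |ip u (G n)| * (C * m n * s)) :=
        mul_le_mul_of_nonneg_left h6 h5
    _ = (|b n| * |ip u (F n)| * (C * m n)) * s + (|b n| * |ip u (G n)| * (C * m n)) * s := by ring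
    _ ≤ (β * C ^ 2 * B * (ρ / 2) ^ (n₀ + n) * (1 / 2) ^ ((n₀ + n) * k)) * s +
        (β * C ^ 2 * B * (ρ / 2) ^ (n₀ + n) * (1 / 2) ^ ((n₀ + n) * k)) * s :=
        add_le_add (mul_le_mul_of_nonneg_right h1 hs) (mul_le_mul_of_nonneg_right h2 hs)
    _ = _ := by ring

lemma itd_tm_le (h : Dat n₀ m b k C β ρ F G) {j : ℕ} (hj : j ≤ k) (hu : ContDiff ℝ k u)
    (hp : Periodic3 u) (hB : ∀ j ≤ k, ∀ x, ‖iteratedFDeriv ℝ j u x‖ ≤ B) (n : ℕ) (x : V) :
    ‖iteratedFDeriv ℝ j (tm b F G u n) x‖ ≤ 2 * β * C ^ 2 * B * (ρ / 2) ^ (n₀ + n) := by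
  have hB0 := B_nonneg hB
  have hβ := h.β0
  have hρ := h.ρ0
  rw [itd_tm h]
  refine (comb_le h hu hp hB n _ _ (2 ^ ((n₀ + n) * j)) (by positivity)
    (h.G.bound n j (by omega) x) (h.F.bound n j (by omega) x)).trans ?_
  have h0 : 0 ≤ 2 * β * C ^ 2 * B * (ρ / 2) ^ (n₀ + n) := by positivity
  exact (mul_le_mul_of_nonneg_left (half_pow_le hj) h0).trans_eq (mul_one _)

lemma Dat.summ (h : Dat n₀ m b k C β ρ F G) (a : ℝ) :
    Summable fun n : ℕ => a * (ρ / 2) ^ (n₀ + n) :=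
  summ_pow (by have := h.ρ0; positivity) (by have := h.ρ2; linarith) a

/-- the operator on functions of class `C^k` -/
lemma contDiff_opr (h : Dat n₀ m b k C β ρ F G) (hu : ContDiff ℝ k u) (hp : Periodic3 u)
    (hB : ∀ j ≤ k, ∀ x, ‖iteratedFDeriv ℝ j u x‖ ≤ B) :
    ContDiff ℝ k (opr b F G u) ∧
    ∀ j ≤ k, iteratedFDeriv ℝ j (opr b F G u) =
      fun x => ∑' n, iteratedFDeriv ℝ j (tm b F G u n) x := by
  have hs : ∀ i, ContDiff ℝ ((k : ℕ∞) : WithTop ℕ∞) (tm b F G u i) := fun i =>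
    (tm_smooth h u i).of_le (by exact_mod_cast le_top)
  have hv : ∀ j : ℕ, (j : ℕ∞) ≤ (k : ℕ∞) → Summable
      ((fun _ n => 2 * β * C ^ 2 * B * (ρ / 2) ^ (n₀ + n) : ℕ → ℕ → ℝ) j) := fun j _ => h.summ _
  constructor
  · have h := contDiff_tsum (𝕜 := ℝ) (N := (k : ℕ∞)) hs hv (fun j i x hj =>
      itd_tm_le h (by exact_mod_cast hj) hu hp hB i x)
    exact h
  · intro j hj
    exact iteratedFDeriv_tsum (𝕜 := ℝ) (N := (k : ℕ∞)) hs hv (fun j i x hj =>
      itd_tm_le h (by exact_mod_cast hj) hu hp hB i x) (by exact_mod_cast hj)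

lemma zero_bd (hB : ∀ x, ‖u x‖ ≤ B) : ∀ j ≤ 0, ∀ x, ‖iteratedFDeriv ℝ j u x‖ ≤ B := by
  intro j hj x
  obtain rfl : j = 0 := by omega
  rw [norm_iteratedFDeriv_zero]
  exact hB x

/-- the case `k = 0` -/
lemma tm_le (h : Dat n₀ m b 0 C β ρ F G) (hu : Continuous u) (hp : Periodic3 u)
    (hB : ∀ x, ‖u x‖ ≤ B) (n : ℕ) (x : V) :
    ‖tm b F G u n x‖ ≤ 2 * β * C ^ 2 * B * (ρ / 2) ^ (n₀ + n) := by
  have h := itd_tm_le (j := 0) h le_rfl (by simpa using hu) hp (zero_bd hB) n x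
  rwa [norm_iteratedFDeriv_zero] at h

lemma tm_summable (h : Dat n₀ m b 0 C β ρ F G) (hu : Continuous u) (hp : Periodic3 u) (x : V) :
    Summable fun n => tm b F G u n x := by
  obtain ⟨B, -, hB⟩ := hp.bounded hu
  exact Summable.of_norm_bounded (h.summ _) (fun n => tm_le h hu hp hB n x)

lemma opr_cont (h : Dat n₀ m b 0 C β ρ F G) (hu : Continuous u) (hp : Periodic3 u) :
    Continuous (opr b F G u) := by
  obtain ⟨B, -, hB⟩ := hp.bounded hu
  have h := (contDiff_opr (k := 0) h (by simpa using hu) hp (zero_bd hB)).1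
  exact h.continuous

lemma opr_per (h : Dat n₀ m b k C β ρ F G) (u : V → V) : Periodic3 (opr b F G u) := by
  intro i x
  unfold opr
  simp only [h.F.per _ i x, h.G.per _ i x]

lemma opr_add (h : Dat n₀ m b 0 C β ρ F G) (hu : Continuous u) (hp : Periodic3 u)
    (hw : Continuous w) (hpw : Periodic3 w) :
    opr b F G (fun x => u x + w x) = fun x => opr b F G u x + opr b F G w x := by
  funext x
  rw [opr_eq, opr_eq, opr_eq, ← (tm_summable h hu hp x).tsum_add (tm_summable h hw hpw x)]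
  refine tsum_congr fun n => ?_
  unfold tm
  rw [ip_add hu hw (h.F.smooth n).continuous, ip_add hu hw (h.G.smooth n).continuous]
  rw [← smul_add]
  congr 1
  rw [add_smul, add_smul]
  abel

/-- the bilinear form of the operator -/
lemma ip_opr (h : Dat n₀ m b 0 C β ρ F G) (hu : Continuous u) (hp : Periodic3 u)
    (hw : Continuous w) (hpw : Periodic3 w) :
    ip (opr b F G u) w = ∑' n, b n * (ip u (F n) * ip w (G n) + ip u (G n) * ip w (F n)) := by
  obtain ⟨B, hB0, hB⟩ := hp.bounded hu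
  obtain ⟨W, hW0, hW⟩ := hpw.bounded hw
  have hc : ∀ n, Continuous fun x => ∑ i, tm b F G u n x i * w x i := fun n =>
    cont_dot (tm_smooth h u n).continuous hw
  have hle : ∀ n x, ‖∑ i, tm b F G u n x i * w x i‖ ≤
      3 * (2 * β * C ^ 2 * B * (ρ / 2) ^ (n₀ + n) * W) := fun n x => by
    rw [Real.norm_eq_abs]
    refine (abs_dot_le _ _).trans ?_
    have h1 := tm_le h hu hp hB n x
    have h2 := mul_le_mul h1 (hW x) (norm_nonneg _) ((norm_nonneg _).trans h1)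
    linarith
  have e1 : ∀ n, ∫ x in Dom, ∑ i, tm b F G u n x i * w x i =
      b n * (ip u (F n) * ip w (G n) + ip u (G n) * ip w (F n)) := by
    intro n
    have h1 : ip (tm b F G u n) w =
        b n * (ip u (F n) * ip w (G n) + ip u (G n) * ip w (F n)) := by
      unfold tm
      rw [ip_smul, ip_add (by have := (h.G.smooth n).continuous; fun_prop)
        (by have := (h.F.smooth n).continuous; fun_prop) hw, ip_smul, ip_smul,
        ip_comm (G n) w, ip_comm (F n) w]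
    exact h1
  simp only [← e1]
  rw [integral_tsum_of_summable_integral_norm (fun n => intOn (hc n))]
  · unfold ip
    refine integral_congr_ae (Eventually.of_forall fun x => ?_)
    have hs := tm_summable h hu hp x
    have hi : ∀ i, (∑' n, tm b F G u n x) i = ∑' n, tm b F G u n x i := fun i =>
      tsum_apply hs
    have hsi : ∀ i, Summable fun n => tm b F G u n x i := fun i => (Pi.summable.1 hs) i
    simp only [opr_eq, hi]
    rw [Summable.tsum_finsetSum (fun i _ => (hsi i).mul_right _)]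
    refine Finset.sum_congr rfl fun i _ => ?_
    rw [tsum_mul_right]
  · refine Summable.of_nonneg_of_le (fun n => integral_nonneg fun x => norm_nonneg _)
      (fun n => ?_) (h.summ ((volume Dom).toReal * (3 * (2 * β * C ^ 2 * B * W))))
    have h1 : ∫ x in Dom, ‖∑ i, tm b F G u n x i * w x i‖ ≤
        ∫ _ in Dom, 3 * (2 * β * C ^ 2 * B * (ρ / 2) ^ (n₀ + n) * W) := by
      refine integral_mono (intOn (hc n).norm) (intOn continuous_const) (fun x => hle n x)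
    refine h1.trans_eq ?_
    rw [setIntegral_const, smul_eq_mul, measureReal_def]
    ring

/-- the bound on `L²` -/
lemma opr_l2 (h : Dat n₀ m b 0 C β ρ F G) (hu : Continuous u) (hp : Periodic3 u) :
    ∫ x in Dom, sq3 (opr b F G u x) ≤
      (∑' n, 2 * β * C ^ 2 * (ρ / 2) ^ (n₀ + n)) ^ 2 * ∫ x in Dom, sq3 (u x) := by
  have hβ := h.β0
  have hρ := h.ρ0
  have hC := h.C0
  set T := opr b F G u with hT
  have hTc : Continuous T := opr_cont h hu hp
  have hTp : Periodic3 T := opr_per h u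
  rw [← ip_self, ← ip_self]
  set E := ip u u
  set W := ip T T with hW
  have hE : 0 ≤ E := ip_self_nonneg u
  have hW0 : 0 ≤ W := ip_self_nonneg T
  have hfl : ∀ {H : ℕ → V → V}, Bl n₀ m 0 C H → ∀ n, Real.sqrt (ip (H n) (H n)) ≤
      C * m n * (1 / 2) ^ (n₀ + n) := fun {H} hH n => by
    have hm := h.m0 n
    rw [ip_self]
    refine Real.sqrt_le_iff.2 ⟨by positivity, (hH.l2 n).trans_eq ?_⟩
    rw [mul_pow (C * m n), ← pow_mul, mul_comm (n₀ + n) 2, pow_mul]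
    norm_num
  have hterm : ∀ {H : ℕ → V → V}, Bl n₀ m 0 C H → ∀ {v : V → V}, Continuous v → ∀ n,
      |ip v (H n)| ≤ Real.sqrt (ip v v) * (C * m n * (1 / 2) ^ (n₀ + n)) := fun {H} hH {v} hv n =>
    (abs_ip_le hv (hH.smooth n).continuous).trans
      (mul_le_mul_of_nonneg_left (hfl hH n) (Real.sqrt_nonneg _))
  have hsum : W ≤ Real.sqrt E * Real.sqrt W * ∑' n, 2 * β * C ^ 2 * (ρ / 2) ^ (n₀ + n) := by
    have h1 : W = ∑' n, b n * (ip u (F n) * ip T (G n) + ip u (G n) * ip T (F n)) :=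
      ip_opr h hu hp hTc hTp
    rw [h1, ← tsum_mul_left]
    have hs : Summable fun n => Real.sqrt E * Real.sqrt W *
        (2 * β * C ^ 2 * (ρ / 2) ^ (n₀ + n)) := (h.summ _).mul_left _
    rw [← h1]
    have hb : ∀ n, ‖b n * (ip u (F n) * ip T (G n) + ip u (G n) * ip T (F n))‖ ≤
        Real.sqrt E * Real.sqrt W * (2 * β * C ^ 2 * (ρ / 2) ^ (n₀ + n)) := fun n => by
      have hm := h.m0 n
      rw [norm_mul, Real.norm_eq_abs, Real.norm_eq_abs]
      have h2 : |ip u (F n) * ip T (G n) + ip u (G n) * ip T (F n)| ≤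
          2 * ((Real.sqrt E * (C * m n * (1 / 2) ^ (n₀ + n))) *
            (Real.sqrt W * (C * m n * (1 / 2) ^ (n₀ + n)))) := by
        refine (abs_add_le _ _).trans ?_
        rw [abs_mul, abs_mul]
        have h3 := mul_le_mul (hterm h.F hu n) (hterm h.G hTc n) (abs_nonneg _) (by positivity)
        have h4 := mul_le_mul (hterm h.G hu n) (hterm h.F hTc n) (abs_nonneg _) (by positivity)
        linarith
      refine (mul_le_mul_of_nonneg_left h2 (abs_nonneg _)).trans ?_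
      have h5 : (1 / 2 : ℝ) ^ (n₀ + n) * (1 / 2) ^ (n₀ + n) = (1 / 4) ^ (n₀ + n) := by
        rw [← mul_pow]; norm_num
      calc |b n| * (2 * ((Real.sqrt E * (C * m n * (1 / 2) ^ (n₀ + n))) *
            (Real.sqrt W * (C * m n * (1 / 2) ^ (n₀ + n)))))
          = Real.sqrt E * Real.sqrt W * (2 * C ^ 2) *
            (|b n| * (m n ^ 2 * ((1 / 2 : ℝ) ^ (n₀ + n) * (1 / 2) ^ (n₀ + n)))) := by ring
        _ ≤ Real.sqrt E * Real.sqrt W * (2 * C ^ 2) * (β * (ρ / 2) ^ (n₀ + n)) := by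
          rw [h5]
          exact mul_le_mul_of_nonneg_left (h.w n) (by positivity)
        _ = _ := by ring
    calc W = _ := h1
      _ ≤ ‖∑' n, b n * (ip u (F n) * ip T (G n) + ip u (G n) * ip T (F n))‖ :=
        Real.le_norm_self _
      _ ≤ _ := tsum_of_norm_bounded hs.hasSum hb
  set K := ∑' n, 2 * β * C ^ 2 * (ρ / 2) ^ (n₀ + n) with hK
  have hK0 : 0 ≤ K := tsum_nonneg fun n => by positivity
  have h6 : Real.sqrt W ≤ K * Real.sqrt E := by
    rcases (Real.sqrt_nonneg W).eq_or_lt with h | h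
    · rw [← h]; positivity
    · have h7 : Real.sqrt W * Real.sqrt W = W := Real.mul_self_sqrt hW0
      have h8 : Real.sqrt W * Real.sqrt W ≤ Real.sqrt W * (K * Real.sqrt E) := by
        rw [h7]; linarith
      exact le_of_mul_le_mul_left h8 h
  calc W = Real.sqrt W ^ 2 := (Real.sq_sqrt hW0).symm
    _ ≤ (K * Real.sqrt E) ^ 2 := pow_le_pow_left₀ (Real.sqrt_nonneg _) h6 2
    _ = K ^ 2 * E := by rw [mul_pow, Real.sq_sqrt hE]

lemma div_tm (h : Dat n₀ m b k C β ρ F G) (u : V → V) (n : ℕ) (x : V) :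
    divergence (tm b F G u n) x = 0 := by
  have hf : HasFDerivAt (F n) (fderiv ℝ (F n) x) x :=
    ((h.F.smooth n).differentiable (by simp)).differentiableAt.hasFDerivAt
  have hg : HasFDerivAt (G n) (fderiv ℝ (G n) x) x :=
    ((h.G.smooth n).differentiable (by simp)).differentiableAt.hasFDerivAt
  have h' : HasFDerivAt (tm b F G u n) (b n •
      (ip u (F n) • fderiv ℝ (G n) x + ip u (G n) • fderiv ℝ (F n) x)) x :=
    ((hg.const_smul (ip u (F n))).add (hf.const_smul (ip u (G n)))).const_smul (b n)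
  have h1 := h.F.div n x
  have h2 := h.G.div n x
  rw [divergence_eq_sum] at h1 h2 ⊢
  rw [h'.fderiv, ← trL_apply, map_smul, map_add, map_smul, map_smul, trL_apply, trL_apply, h1, h2]
  simp

lemma opr_div (h₀ : Dat n₀ m b 0 C β ρ F G) {C₁ : ℝ} (h : Dat n₀ m b 1 C₁ β ρ F G)
    (hu : ContDiff ℝ 1 u) (hp : Periodic3 u) (x : V) :
    divergence (opr b F G u) x = 0 := by
  obtain ⟨B₁, -, hB₁⟩ := hp.fderiv.bounded (hu.continuous_fderiv one_ne_zero)
  obtain ⟨B₀, -, hB₀⟩ := hp.bounded hu.continuous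
  have hB' : ∀ j ≤ 1, ∀ x, ‖iteratedFDeriv ℝ j u x‖ ≤ max B₀ B₁ := by
    intro j hj x
    rcases Nat.le_one_iff_eq_zero_or_eq_one.1 hj with rfl | rfl
    · rw [norm_iteratedFDeriv_zero]; exact (hB₀ x).trans (le_max_left _ _)
    · rw [norm_iteratedFDeriv_one]; exact (hB₁ x).trans (le_max_right _ _)
  have hd : ∀ n x, HasFDerivAt (tm b F G u n) (fderiv ℝ (tm b F G u n) x) x :=
    fun n x => ((tm_smooth h u n).differentiable (by simp)).differentiableAt.hasFDerivAt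
  have hle : ∀ n x, ‖fderiv ℝ (tm b F G u n) x‖ ≤
      2 * β * C₁ ^ 2 * max B₀ B₁ * (ρ / 2) ^ (n₀ + n) := fun n x => by
    rw [← norm_iteratedFDeriv_one]
    exact itd_tm_le (k := 1) h le_rfl (by exact_mod_cast hu) hp hB' n x
  have hs : Summable fun n : ℕ => 2 * β * C₁ ^ 2 * max B₀ B₁ * (ρ / 2) ^ (n₀ + n) := h.summ _
  have h' := hasFDerivAt_tsum hs hd hle (tm_summable h₀ hu.continuous hp x) x
  have e : (opr b F G u) = fun y => ∑' n, tm b F G u n y := rfl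
  have hs' : Summable fun n => fderiv ℝ (tm b F G u n) x :=
    Summable.of_norm_bounded hs fun n => hle n x
  rw [divergence_eq_sum, e, h'.fderiv, ← trL_apply, ContinuousLinearMap.map_tsum _ hs']
  have h0 : ∀ n, trL (fderiv ℝ (tm b F G u n) x) = 0 := fun n => by
    rw [trL_apply, ← divergence_eq_sum]
    exact div_tm h u n x
  simp [h0]

/-- the Hölder bound for one block -/
lemma block_holder (hF : Bl n₀ m k C F) (hC : 0 < C) (hm : ∀ n, 0 ≤ m n) (hδ : 0 < δ)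
    (hδ1 : δ ≤ 1) (n : ℕ) (x y : V) :
    ‖iteratedFDeriv ℝ k (F n) x - iteratedFDeriv ℝ k (F n) y‖ ≤
      C * m n * (2 ^ ((n₀ + n) * k) * (2 * ((2 : ℝ) ^ (n₀ + n) * ‖x - y‖) ^ (1 - δ))) := by
  set s := (2 : ℝ) ^ (n₀ + n) * ‖x - y‖ with hs
  have hs0 : 0 ≤ s := by positivity
  have hm0 := hm n
  have h1 : ‖iteratedFDeriv ℝ k (F n) x - iteratedFDeriv ℝ k (F n) y‖ ≤
      2 * (C * m n) * 2 ^ ((n₀ + n) * k) := by
    refine (norm_sub_le _ _).trans ?_
    have h2 := hF.bound n k (by omega) x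
    have h3 := hF.bound n k (by omega) y
    linarith
  have h2 : ‖iteratedFDeriv ℝ k (F n) x - iteratedFDeriv ℝ k (F n) y‖ ≤
      (C * m n) * 2 ^ ((n₀ + n) * k) * s := by
    have hd : ∀ z ∈ (univ : Set V), DifferentiableAt ℝ (iteratedFDeriv ℝ k (F n)) z := fun z _ =>
      ((hF.smooth n).differentiable_iteratedFDeriv
        (by exact_mod_cast WithTop.coe_lt_top _)).differentiableAt
    have hb : ∀ z ∈ (univ : Set V), ‖fderiv ℝ (iteratedFDeriv ℝ k (F n)) z‖ ≤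
        C * m n * 2 ^ ((n₀ + n) * (k + 1)) := fun z _ => by
      rw [norm_fderiv_iteratedFDeriv]
      exact hF.bound n (k + 1) (by omega) z
    have h3 := convex_univ.norm_image_sub_le_of_norm_fderiv_le hd hb (mem_univ y) (mem_univ x)
    refine h3.trans_eq ?_
    rw [hs, mul_add, mul_one, pow_add]
    ring
  have h3 : min 1 s ≤ s ^ (1 - δ) := by
    rcases le_or_gt s 1 with h | h
    · refine (min_le_right _ _).trans ?_
      rcases hs0.eq_or_lt with h0 | h0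
      · rw [← h0]; positivity
      · calc s = s ^ (1 : ℝ) := (Real.rpow_one s).symm
          _ ≤ s ^ (1 - δ) := Real.rpow_le_rpow_of_exponent_ge h0 h (by linarith)
    · exact (min_le_left _ _).trans (Real.one_le_rpow h.le (by linarith))
  have hA : 0 ≤ (C * m n) * 2 ^ ((n₀ + n) * k) := by positivity
  have h4 : ‖iteratedFDeriv ℝ k (F n) x - iteratedFDeriv ℝ k (F n) y‖ ≤
      2 * (C * m n) * 2 ^ ((n₀ + n) * k) * min 1 s := by
    rcases le_total 1 s with h | h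
    · rw [min_eq_left h]; linarith
    · rw [min_eq_right h]
      nlinarith [mul_nonneg hA hs0]
  refine (h4.trans (mul_le_mul_of_nonneg_left h3 (by positivity))).trans_eq ?_
  ring

lemma itd_tm_holder (h : Dat n₀ m b k C β ρ F G) (hδ : 0 < δ) (hδ1 : δ ≤ 1)
    (hu : ContDiff ℝ k u) (hp : Periodic3 u) (hB : ∀ j ≤ k, ∀ x, ‖iteratedFDeriv ℝ j u x‖ ≤ B)
    (n : ℕ) (x y : V) :
    ‖iteratedFDeriv ℝ k (tm b F G u n) x - iteratedFDeriv ℝ k (tm b F G u n) y‖ ≤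
      4 * β * C ^ 2 * B * ‖x - y‖ ^ (1 - δ) * (ρ / 2 ^ δ) ^ (n₀ + n) := by
  have e : ip u (F n) • iteratedFDeriv ℝ k (G n) x + ip u (G n) • iteratedFDeriv ℝ k (F n) x -
      (ip u (F n) • iteratedFDeriv ℝ k (G n) y + ip u (G n) • iteratedFDeriv ℝ k (F n) y) =
      ip u (F n) • (iteratedFDeriv ℝ k (G n) x - iteratedFDeriv ℝ k (G n) y) +
      ip u (G n) • (iteratedFDeriv ℝ k (F n) x - iteratedFDeriv ℝ k (F n) y) := by
    rw [smul_sub, smul_sub]; abel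
  rw [itd_tm h, itd_tm h, ← smul_sub, e]
  refine (comb_le h hu hp hB n _ _
    (2 ^ ((n₀ + n) * k) * (2 * ((2 : ℝ) ^ (n₀ + n) * ‖x - y‖) ^ (1 - δ))) (by positivity)
    (block_holder h.G h.C0 h.m0 hδ hδ1 n x y) (block_holder h.F h.C0 h.m0 hδ hδ1 n x y)).trans_eq ?_
  have h7 : (1 / 2 : ℝ) ^ ((n₀ + n) * k) * 2 ^ ((n₀ + n) * k) = 1 := by
    rw [← mul_pow]; norm_num
  calc _ = 4 * β * C ^ 2 * B * ((ρ / 2) ^ (n₀ + n) * ((2 : ℝ) ^ (n₀ + n) * ‖x - y‖) ^ (1 - δ)) *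
          ((1 / 2 : ℝ) ^ ((n₀ + n) * k) * 2 ^ ((n₀ + n) * k)) := by ring
    _ = _ := by
        rw [h7, pow_rpow _ _ (norm_nonneg _)]; ring

end

/-- the data for every `k` -/
lemma exists_bl {D n₀ : ℕ} {F : ℕ → V → V} (hF : Blocks2 D n₀ F) (k : ℕ) :
    ∃ C > 0, ∀ C' ≥ C, Bl n₀ (fun n => 2 ^ ((n₀ + n) / D)) k C' F := by
  choose c hc0 hc using hF.bound
  obtain ⟨c₁, hc₁, hl⟩ := hF.l2
  obtain ⟨c₂, hc₂, hm⟩ := hF.mom k
  have hs0 : 0 ≤ ∑ j ∈ Finset.range (k + 2), c j := Finset.sum_nonneg fun j _ => (hc0 j).le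
  refine ⟨(∑ j ∈ Finset.range (k + 2), c j) + c₁ + c₂, by positivity, fun C' hC' =>
    ⟨hF.smooth, hF.per, hF.div, ?_, ?_, ?_⟩⟩
  · intro n j hj x
    refine (hc j n x).trans ?_
    have h1 : c j ≤ ∑ j ∈ Finset.range (k + 2), c j :=
      Finset.single_le_sum (fun i _ => (hc0 i).le) (Finset.mem_range.2 (by omega))
    have h2 : c j ≤ C' := by linarith
    gcongr
  · intro n
    refine (hl n).trans ?_
    have h2 : c₁ ≤ C' := by linarith
    have h4 : ((4 : ℝ)) ^ ((n₀ + n) / D) = (2 ^ ((n₀ + n) / D)) ^ 2 := by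
      rw [← pow_mul, mul_comm _ 2, pow_mul]; norm_num
    rw [h4, mul_pow]
    gcongr
  · intro n u B hu hp hB
    have hB0 := B_nonneg hB
    refine (hm n u B hu hp hB).trans ?_
    have h2 : c₂ ≤ C' := by linarith
    gcongr

end O2b

open O2b in
/-- **The operator is symmetric and gains `1 - δ` derivatives on every `C^k`.** -/
theorem isOrd (D n₀ : ℕ) (hD : 1 ≤ D) (q δ Λ : ℝ) (hq : 0 < q) (hδ : 0 < δ) (hδ1 : δ ≤ 1)
    (hΛ : ∀ n : ℕ, (8 : ℝ) ^ (n / D) ≤ Λ ^ n) (hΛ0 : 0 < Λ) (hqΛ : q * Λ < 2 ^ δ)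
    (F G : ℕ → V → V) (hF : Blocks2 D n₀ F) (hG : Blocks2 D n₀ G) (β : ℝ) :
    IsOrd δ (opr (fun n => β * (2 * q) ^ (n₀ + n)) F G) := by
  have h2δ : (2 : ℝ) ^ δ ≤ 2 := by
    calc (2 : ℝ) ^ δ ≤ 2 ^ (1 : ℝ) := Real.rpow_le_rpow_of_exponent_le (by norm_num) hδ1
      _ = 2 := Real.rpow_one 2
  have h2p : (0 : ℝ) < 2 ^ δ := by positivity
  set ρ := q * Λ with hρ
  have hρ0 : 0 < ρ := by positivity
  have hρ2 : ρ < 2 := hqΛ.trans_le h2δ
  set b : ℕ → ℝ := fun n => β * (2 * q) ^ (n₀ + n) with hb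
  have hdat : ∀ k : ℕ, ∃ C, Dat n₀ (fun n => 2 ^ ((n₀ + n) / D)) b k C |β| ρ F G := by
    intro k
    obtain ⟨C₁, hC₁, h1⟩ := exists_bl hF k
    obtain ⟨C₂, hC₂, h2⟩ := exists_bl hG k
    refine ⟨C₁ + C₂, h1 _ (by linarith), h2 _ (by linarith), by positivity,
      fun n => by positivity, abs_nonneg _, hρ0, hρ2, fun n => ?_⟩
    rw [hb]
    simp only
    rw [abs_mul, abs_of_nonneg (by positivity : 0 ≤ (2 * q) ^ (n₀ + n)), mul_assoc]
    refine mul_le_mul_of_nonneg_left ?_ (abs_nonneg _)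
    have h3 : ((2 : ℝ) ^ ((n₀ + n) / D)) ^ 2 ≤ Λ ^ (n₀ + n) := by
      refine le_trans ?_ (hΛ (n₀ + n))
      rw [← pow_mul, mul_comm _ 2, pow_mul]
      exact pow_le_pow_left₀ (by norm_num) (by norm_num) _
    calc (2 * q) ^ (n₀ + n) * (((2 : ℝ) ^ ((n₀ + n) / D)) ^ 2 * (1 / 4) ^ (n₀ + n))
        ≤ (2 * q) ^ (n₀ + n) * (Λ ^ (n₀ + n) * (1 / 4) ^ (n₀ + n)) := by gcongr
      _ = (ρ / 2) ^ (n₀ + n) := by
        rw [← mul_pow, ← mul_pow, hρ]; congr 1; ring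
  obtain ⟨C, h⟩ := hdat 0
  obtain ⟨C₁, h₁⟩ := hdat 1
  refine ⟨fun u _ _ => opr_per h u, fun u w hu hp hw hpw => opr_add h hu hp hw hpw,
    fun a u _ _ => O2.opr_smul _ a u, ?_, fun u hu hp x => opr_div h h₁ hu hp x, ?_, ?_⟩
  · intro u w hu hp hw hpw
    rw [O2.ip_comm u, ip_opr h hu hp hw hpw, ip_opr h hw hpw hu hp]
    exact tsum_congr fun n => by ring
  · have hK : 0 ≤ ∑' n, 2 * |β| * C ^ 2 * (ρ / 2) ^ (n₀ + n) :=
      tsum_nonneg fun n => by positivity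
    refine ⟨(∑' n, 2 * |β| * C ^ 2 * (ρ / 2) ^ (n₀ + n)) + 1, by positivity, fun u hu hp => ?_⟩
    refine (opr_l2 h hu hp).trans ?_
    refine mul_le_mul_of_nonneg_right ?_ (integral_nonneg fun x => sq3_nonneg _)
    exact pow_le_pow_left₀ hK (by linarith) 2
  · intro k
    obtain ⟨C, h⟩ := hdat k
    have hS : Summable fun n : ℕ => 4 * |β| * C ^ 2 * (ρ / 2 ^ δ) ^ (n₀ + n) :=
      O2.summ_pow (by positivity) (by rw [div_lt_one h2p]; exact hqΛ) _
    have hS0 : 0 ≤ ∑' n, 4 * |β| * C ^ 2 * (ρ / 2 ^ δ) ^ (n₀ + n) :=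
      tsum_nonneg fun n => by positivity
    refine ⟨(∑' n, 4 * |β| * C ^ 2 * (ρ / 2 ^ δ) ^ (n₀ + n)) + 1, by positivity,
      fun u B hu hp hB => ?_⟩
    have hB0 := B_nonneg hB
    obtain ⟨h1, h2⟩ := contDiff_opr h hu hp hB
    have h3 := h2 k le_rfl
    have hs1 : Summable fun n : ℕ => 2 * |β| * C ^ 2 * B * (ρ / 2) ^ (n₀ + n) := h.summ _
    have hle : ∀ n : ℕ, (ρ / 2) ^ (n₀ + n) ≤ (ρ / 2 ^ δ) ^ (n₀ + n) := fun n =>
      pow_le_pow_left₀ (by positivity) (div_le_div_of_nonneg_left hρ0.le h2p h2δ) _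
    refine ⟨h1, fun x => ?_, fun x y => ?_⟩
    · rw [h3]
      refine (tsum_of_norm_bounded hs1.hasSum (fun n =>
        itd_tm_le h le_rfl hu hp hB n x)).trans ?_
      have h4 : ∑' n, 2 * |β| * C ^ 2 * B * (ρ / 2) ^ (n₀ + n) ≤
          ∑' n, (4 * |β| * C ^ 2 * (ρ / 2 ^ δ) ^ (n₀ + n)) * B := by
        refine hs1.tsum_le_tsum (fun n => ?_) (hS.mul_right B)
        have h5 := hle n
        have h6 : 0 ≤ |β| * C ^ 2 * B := by positivity
        have h7 : 0 ≤ (ρ / 2) ^ (n₀ + n) := by positivity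
        nlinarith [mul_le_mul_of_nonneg_left h5 h6, mul_nonneg h6 h7]
      rw [tsum_mul_right] at h4
      nlinarith
    · rw [h3]
      have hsx : ∀ x, Summable fun n => iteratedFDeriv ℝ k (tm b F G u n) x := fun x =>
        Summable.of_norm_bounded hs1 fun n => itd_tm_le h le_rfl hu hp hB n x
      show ‖(∑' n, iteratedFDeriv ℝ k (tm b F G u n) x) -
        ∑' n, iteratedFDeriv ℝ k (tm b F G u n) y‖ ≤ _
      rw [← (hsx x).tsum_sub (hsx y)]
      have hs2 : Summable fun n : ℕ => 4 * |β| * C ^ 2 * B * ‖x - y‖ ^ (1 - δ) *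
          (ρ / 2 ^ δ) ^ (n₀ + n) :=
        O2.summ_pow (by positivity) (by rw [div_lt_one h2p]; exact hqΛ) _
      refine (tsum_of_norm_bounded hs2.hasSum (fun n =>
        itd_tm_holder h hδ hδ1 hu hp hB n x y)).trans ?_
      have e : (fun n : ℕ => 4 * |β| * C ^ 2 * B * ‖x - y‖ ^ (1 - δ) * (ρ / 2 ^ δ) ^ (n₀ + n)) =
          fun n => (4 * |β| * C ^ 2 * (ρ / 2 ^ δ) ^ (n₀ + n)) * (B * ‖x - y‖ ^ (1 - δ)) := by
        funext n; ring
      rw [e, tsum_mul_right]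
      have h8 : 0 ≤ B * ‖x - y‖ ^ (1 - δ) := by positivity
      nlinarith

end Pool.Agent.Zk27.MB
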