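import Pool.Agent.Zk27.MB.Cut

/-! # The planar coordinates of the torus -/

set_option autoImplicit false

open MeasureTheory Set
open scoped ContDiff Topology

namespace Pool.Agent.Zk27.MB

open Pool.Agent.H708R2.EulerSign
open Pool.Agent.H708R2.EulerModes (integral_translate)
open Pool.Agent.R739.ET (wr wr_near wr_add wr_mem wr_exists wr_eq wv_eventually)

/-- the translation which gives the planar coordinates near `x₀` -/
noncomputable def prt (x₀ x : V) : ℝ × ℝ :=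
  (x 0 + (wr (x₀ 0) - x₀ 0), x 1 + (wr (x₀ 1) - x₀ 1))

lemma prt_self (x : V) : prt x x = pr x := by
  unfold prt pr
  congr 1 <;> ring

lemma prt_contDiff {n : WithTop ℕ∞} (x₀ : V) : ContDiff ℝ n (prt x₀) := by
  unfold prt
  exact ((contDiff_apply ℝ ℝ (0 : Fin 3)).add contDiff_const).prodMk
    ((contDiff_apply ℝ ℝ (1 : Fin 3)).add contDiff_const)

/-- near `x₀` a function of small support of the planar coordinates is a translate -/
lemma pr_near {E : Type*} [Zero E] (g : ℝ × ℝ → E)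
    (hs : ∀ z, g z ≠ 0 → |z.1| < 1 ∧ |z.2| < 1) (x₀ x : V) (hx : ∀ i, |x i - x₀ i| < 1) :
    g (pr x) = g (prt x₀ x) := by
  have hz : ∀ z : ℝ × ℝ, (1 ≤ |z.1| ∨ 1 ≤ |z.2|) → g z = 0 := by
    intro z h
    by_contra hne
    have := hs z hne
    rcases h with h | h
    · exact absurd this.1 (not_lt.2 h)
    · exact absurd this.2 (not_lt.2 h)
  rcases wr_near (x₀ 0) (x 0) (hx 0) with h0 | ⟨h0, h0'⟩
  · rcases wr_near (x₀ 1) (x 1) (hx 1) with h1 | ⟨h1, h1'⟩
    · unfold pr prt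
      rw [h0, h1]
    · rw [hz (pr x) (Or.inr h1), hz (prt x₀ x) (Or.inr h1')]
  · rw [hz (pr x) (Or.inl h0), hz (prt x₀ x) (Or.inl h0')]

/-- smoothness of functions of the planar coordinates -/
theorem comp_pr_contDiff {E : Type*} [NormedAddCommGroup E] [NormedSpace ℝ E] {m : WithTop ℕ∞}
    (S : Set ℝ) (g : ℝ → ℝ × ℝ → E)
    (hg : ContDiffOn ℝ m (fun p : ℝ × (ℝ × ℝ) => g p.1 p.2) (S ×ˢ univ))
    (hs : ∀ t ∈ S, ∀ z, g t z ≠ 0 → |z.1| < 1 ∧ |z.2| < 1) :
    ContDiffOn ℝ m (fun p : ℝ × V => g p.1 (pr p.2)) (S ×ˢ univ) := by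
  rintro ⟨t₀, x₀⟩ ⟨ht₀, -⟩
  have h1 : ContDiffOn ℝ m (fun p : ℝ × V => g p.1 (prt x₀ p.2)) (S ×ˢ univ) := by
    have h2 : ContDiff ℝ m (fun p : ℝ × V => (p.1, prt x₀ p.2)) :=
      contDiff_fst.prodMk ((prt_contDiff x₀).comp contDiff_snd)
    exact hg.comp (s := S ×ˢ (univ : Set V)) h2.contDiffOn (fun p hp => ⟨hp.1, mem_univ _⟩)
  refine (h1 (t₀, x₀) ⟨ht₀, mem_univ _⟩).congr_of_eventuallyEq ?_ ?_
  · have hc : Filter.Tendsto (fun p : ℝ × V => p.2) (𝓝 (t₀, x₀)) (𝓝 x₀) :=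
      continuous_snd.tendsto (t₀, x₀)
    have hU : ∀ᶠ p : ℝ × V in 𝓝 (t₀, x₀), ∀ i, |p.2 i - x₀ i| < 1 :=
      hc.eventually (wv_eventually x₀)
    filter_upwards [nhdsWithin_le_nhds hU, self_mem_nhdsWithin] with p hp hpS
    exact pr_near (g p.1) (hs p.1 hpS.1) x₀ p.2 hp
  · exact pr_near (g t₀) (hs t₀ ht₀) x₀ x₀ (fun i => by simp)

/-- the derivative of a function of the planar coordinates -/
theorem fderiv_comp_pr (g : ℝ × ℝ → ℝ) (hg : ContDiff ℝ 1 g)
    (hs : ∀ z, g z ≠ 0 → |z.1| < 1 ∧ |z.2| < 1) (x v : V) :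
    fderiv ℝ (fun x => g (pr x)) x v = fderiv ℝ g (pr x) (v 0, v 1) := by
  have h1 : (fun y => g (pr y)) =ᶠ[𝓝 x] fun y => g (prt x y) := by
    filter_upwards [wv_eventually x] with y hy
    exact pr_near g hs x y hy
  rw [h1.fderiv_eq]
  have h2 : HasFDerivAt (prt x) ((ContinuousLinearMap.proj (0 : Fin 3) : V →L[ℝ] ℝ).prod
      (ContinuousLinearMap.proj (1 : Fin 3) : V →L[ℝ] ℝ)) x := by
    unfold prt
    exact ((ContinuousLinearMap.proj (0 : Fin 3) : V →L[ℝ] ℝ).hasFDerivAt.add_const _).prodMk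
      ((ContinuousLinearMap.proj (1 : Fin 3) : V →L[ℝ] ℝ).hasFDerivAt.add_const _)
  have h3 : HasFDerivAt g (fderiv ℝ g (prt x x)) (prt x x) :=
    (hg.differentiable one_ne_zero _).hasFDerivAt
  have h4 := h3.comp x h2
  have h5 : fderiv ℝ (fun y => g (prt x y)) x = _ := h4.fderiv
  rw [h5, prt_self]
  rfl

/-- the period cell is a cube -/
lemma mem_Dom (x : V) : x ∈ Dom ↔ ∀ i, x i ∈ Ico (0 : ℝ) (2 * Real.pi) := by
  have hpi := Real.pi_pos
  have hr : ∀ i, bas.repr x i = (2 * Real.pi)⁻¹ * x i := by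
    intro i
    unfold bas
    rw [Module.Basis.repr_isUnitSMul]
    simp [Units.smul_def]
  have h1 : x ∈ Dom ↔ ∀ i, bas.repr x i ∈ Ico (0 : ℝ) 1 := Iff.rfl
  rw [h1]
  refine forall_congr' fun i => ?_
  rw [hr i, mem_Ico, mem_Ico]
  constructor
  · rintro ⟨a, b⟩
    constructor
    · have := mul_nonneg (by positivity : (0 : ℝ) ≤ 2 * Real.pi) a
      rwa [← mul_assoc, mul_inv_cancel₀ (by positivity), one_mul] at this
    · rw [inv_mul_lt_iff₀ (by positivity)] at b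
      linarith
  · rintro ⟨a, b⟩
    constructor
    · positivity
    · rw [inv_mul_lt_iff₀ (by positivity)]
      linarith

/-- the coordinates `(x₂, (x₀, x₁))` -/
noncomputable def cyc : V ≃ᵐ ℝ × (ℝ × ℝ) :=
  (MeasurableEquiv.piFinSuccAbove (fun _ : Fin 3 => ℝ) 2).trans
    ((MeasurableEquiv.refl ℝ).prodCongr MeasurableEquiv.finTwoArrow)

lemma cyc_apply (x : V) : cyc x = (x 2, (x 0, x 1)) := rfl

lemma cyc_mp : MeasurePreserving cyc (volume : Measure V) (volume : Measure (ℝ × (ℝ × ℝ))) := by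
  unfold cyc
  exact (volume_preserving_piFinSuccAbove (fun _ : Fin 3 => ℝ) 2).trans
    ((MeasurePreserving.id volume).prod (volume_preserving_finTwoArrow ℝ))

/-- the integral of a function of the planar coordinates -/
theorem integral_pr (g : ℝ × ℝ → ℝ) (_hg : Continuous g)
    (hs : ∀ z, g z ≠ 0 → |z.1| < 1 ∧ |z.2| < 1) :
    ∫ x in Dom, g (pr x) = 2 * Real.pi * ∫ z, g z := by
  have hpi := Real.pi_gt_three
  have hper : Periodic3 (fun x : V => g (pr x)) := by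
    intro i x
    unfold pr
    fin_cases i
    · have : (x + Pi.single (0 : Fin 3) (2 * Real.pi) : V) 0 = x 0 + 2 * Real.pi := by simp
      simp only [Fin.zero_eta, this, wr_add]
      simp
    · have : (x + Pi.single (1 : Fin 3) (2 * Real.pi) : V) 1 = x 1 + 2 * Real.pi := by simp
      simp only [Fin.mk_one, this, wr_add]
      simp
    · simp
  rw [← integral_translate hper (fun _ => -Real.pi)]
  have hz : ∀ z : ℝ × ℝ, (1 ≤ |z.1| ∨ 1 ≤ |z.2|) → g z = 0 := by
    intro z h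
    by_contra hne
    have := hs z hne
    rcases h with h | h
    · exact absurd this.1 (not_lt.2 h)
    · exact absurd this.2 (not_lt.2 h)
  have hw : ∀ s ∈ Ico (0 : ℝ) (2 * Real.pi), wr (s + -Real.pi) = s - Real.pi ∨
      (1 ≤ |wr (s + -Real.pi)| ∧ 1 ≤ |s - Real.pi|) := by
    intro s hs
    rcases eq_or_lt_of_le hs.1 with h | h
    · right
      have e : wr (s + -Real.pi) = Real.pi :=
        wr_eq ⟨by linarith, le_rfl⟩ ⟨-1, by rw [← h]; push_cast; ring⟩
      refine ⟨?_, ?_⟩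
      · rw [e, abs_of_pos (by linarith)]; linarith
      · rw [← h, zero_sub, abs_neg, abs_of_pos (by linarith)]; linarith
    · left
      rw [← sub_eq_add_neg]
      exact wr_eq ⟨by linarith, by linarith [hs.2]⟩ ⟨0, by simp⟩
  have h1 : ∀ x ∈ Dom, g (pr (x + fun _ => -Real.pi)) = g (x 0 - Real.pi, x 1 - Real.pi) := by
    intro x hx
    rw [mem_Dom] at hx
    have e : pr (x + fun _ => -Real.pi) = (wr (x 0 + -Real.pi), wr (x 1 + -Real.pi)) := rfl
    rw [e]
    rcases hw (x 0) (hx 0) with a | ⟨a, a'⟩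
    · rcases hw (x 1) (hx 1) with b | ⟨b, b'⟩
      · rw [a, b]
      · rw [hz _ (Or.inr b), hz _ (Or.inr b')]
    · rw [hz _ (Or.inl a), hz _ (Or.inl a')]
  rw [setIntegral_congr_fun dom_meas h1]
  set I : Set ℝ := Ico (0 : ℝ) (2 * Real.pi) with hI
  have hD : (Dom : Set V) = cyc ⁻¹' (I ×ˢ (I ×ˢ I)) := by
    ext x
    rw [mem_Dom, mem_preimage, cyc_apply, mem_prod, mem_prod, Fin.forall_fin_succ,
      Fin.forall_fin_succ, Fin.forall_fin_succ]
    simp only [Fin.succ_zero_eq_one, Fin.succ_one_eq_two, IsEmpty.forall_iff, and_true]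
    constructor
    · rintro ⟨a, b, c⟩; exact ⟨c, a, b⟩
    · rintro ⟨c, a, b⟩; exact ⟨a, b, c⟩
  have h2 : ∫ x in Dom, g (x 0 - Real.pi, x 1 - Real.pi) =
      ∫ p in I ×ˢ (I ×ˢ I), (1 : ℝ) * g (p.2 - (Real.pi, Real.pi)) := by
    rw [hD, ← cyc_mp.setIntegral_preimage_emb cyc.measurableEmbedding
      (fun p : ℝ × (ℝ × ℝ) => (1 : ℝ) * g (p.2 - (Real.pi, Real.pi)))]
    refine setIntegral_congr_fun (cyc.measurable
      (measurableSet_Ico.prod (measurableSet_Ico.prod measurableSet_Ico))) fun x _ => ?_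
    simp only [cyc_apply, one_mul]
    rfl
  rw [h2, Measure.volume_eq_prod,
    setIntegral_prod_mul (μ := (volume : Measure ℝ)) (ν := (volume : Measure (ℝ × ℝ)))
      (fun _ => (1 : ℝ)) (fun z => g (z - (Real.pi, Real.pi))) I (I ×ˢ I)]
  have h3 : ∫ _x in I, (1 : ℝ) = 2 * Real.pi := by
    rw [setIntegral_const, smul_eq_mul, mul_one, hI, Real.volume_real_Ico_of_le (by linarith),
      sub_zero]
  have h4 : ∫ z in I ×ˢ I, g (z - (Real.pi, Real.pi)) = ∫ z, g (z - (Real.pi, Real.pi)) := by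
    refine setIntegral_eq_integral_of_forall_compl_eq_zero fun z hzI => ?_
    by_contra hne
    have := hs _ hne
    simp only [Prod.fst_sub, Prod.snd_sub, abs_lt] at this
    exact hzI ⟨⟨by linarith [this.1.1], by linarith [this.1.2]⟩,
      ⟨by linarith [this.2.1], by linarith [this.2.2]⟩⟩
  rw [h3, h4, integral_sub_right_eq_self (μ := (volume : Measure (ℝ × ℝ))) g]

end Pool.Agent.Zk27.MB
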