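import Pool.Agent.Zk27.MB.Dyn
import Pool.Agent.Zk27.MB.R1

/-! Parallel flows: evaluation of the operator, the equation -/

open MeasureTheory Set
open scoped ContDiff

namespace Pool.Agent.Zk27.MB

open Pool.Agent.H708R2.EulerSign
open Pool.Agent.R739.ET (wr wr_add wr_eq)

lemma coeff_bound (M : ℕ) : ∃ C, 0 < C ∧ ∀ k (w : ℝ × ℝ → ℝ), (∀ z, |w z| ≤ 1) →
    |∫ x, ph M k x * w x| ≤ C := by
  obtain ⟨Cφ, hCφ⟩ := phi_compact.exists_bound_of_continuous phi_smooth.continuous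
  have hC0 : 0 ≤ Cφ := (norm_nonneg _).trans (hCφ 0)
  refine ⟨8 * (8 * M + 2) * 2 ^ M * Cφ + 1, by positivity, fun k w hw => ?_⟩
  have h2 : (0:ℝ) < 2 ^ k := by positivity
  set B : Set (ℝ × ℝ) := Icc (-((8 * M + 2) / 2 ^ k) : ℝ) ((8 * M + 2) / 2 ^ k) ×ˢ
    Icc (-(2 / 2 ^ k) : ℝ) (2 / 2 ^ k) with hB
  have h1 : ∫ x, ph M k x * w x = ∫ x in B, ph M k x * w x := by
    symm
    refine setIntegral_eq_integral_of_forall_compl_eq_zero fun z hz => ?_
    have : ph M k z = 0 := by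
      by_contra h
      have := ph_small h
      exact hz ⟨abs_le.1 this.1, abs_le.1 this.2⟩
    rw [this, zero_mul]
  have hvol : volume.real B = 8 * (8 * M + 2) / 4 ^ k := by
    rw [hB, Measure.volume_eq_prod, measureReal_prod_prod, Real.volume_real_Icc_of_le,
      Real.volume_real_Icc_of_le]
    · have : (4:ℝ) ^ k = 2 ^ k * 2 ^ k := by rw [← mul_pow]; norm_num
      rw [this]
      field_simp
      ring
    · have : (0:ℝ) ≤ 2 / 2 ^ k := by positivity
      linarith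
    · have : (0:ℝ) ≤ (8 * M + 2) / 2 ^ k := by positivity
      linarith
  have hfin : volume B < ⊤ := by
    rw [hB]
    exact (isCompact_Icc.prod isCompact_Icc).measure_lt_top
  have h3 := norm_setIntegral_le_of_norm_le_const (μ := volume) (s := B)
    (f := fun x => ph M k x * w x) (C := 4 ^ k * (2 ^ M * Cφ)) hfin fun z _ => by
      rw [norm_mul]
      have h4 : ‖ph M k z‖ ≤ 4 ^ k * (2 ^ M * Cφ) := by
        unfold ph
        rw [norm_mul, norm_pow, Real.norm_of_nonneg (by norm_num : (0:ℝ) ≤ 4)]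
        exact mul_le_mul_of_nonneg_left (cp_norm hCφ z) (by positivity)
      calc ‖ph M k z‖ * ‖w z‖ ≤ (4 ^ k * (2 ^ M * Cφ)) * 1 :=
            mul_le_mul h4 (hw z) (norm_nonneg _) (by positivity)
        _ = _ := mul_one _
  rw [hvol] at h3
  rw [h1, ← Real.norm_eq_abs]
  refine h3.trans ?_
  have : (4:ℝ) ^ k * (2 ^ M * Cφ) * (8 * (8 * M + 2) / 4 ^ k) = 8 * (8 * M + 2) * 2 ^ M * Cφ := by
    field_simp
  rw [this]
  linarith

lemma vel_bound (M : ℕ) {α q : ℝ} (hα : 0 ≤ α) (hq : 0 ≤ q) (hq2 : q < 2) :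
    ∃ C, 0 < C ∧ ∀ (w₀ : ℝ × ℝ → ℝ), (∀ z, |w₀ z| ≤ 1) → ∀ (s : Finset ℕ) Y t z,
      ‖vel s (Xf M α q) (ph M) w₀ Y t z‖ ≤ C := by
  obtain ⟨C1, hC1, h1⟩ := coeff_bound M
  obtain ⟨C2, hC2, h2⟩ := V0_bounded
  have hr0 : 0 ≤ q / 2 := by positivity
  have hr1 : q / 2 < 1 := by linarith
  have hr2 : 0 < (1 - q / 2)⁻¹ := inv_pos.2 (by linarith)
  refine ⟨C1 * (α * 2 ^ M * C2) * (1 - q / 2)⁻¹ + 1, by positivity, fun w₀ hw s Y t z => ?_⟩
  unfold vel
  refine (norm_sum_le _ _).trans ?_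
  have h3 : ∀ k ∈ s, ‖(∫ x, ph M k x * w₀ (Y t x)) • Xf M α q k z‖
      ≤ C1 * (α * 2 ^ M * C2) * (q / 2) ^ k := by
    intro k _
    rw [norm_smul]
    calc _ ≤ C1 * (α * 2 ^ M * C2 * (q / 2) ^ k) :=
          mul_le_mul (h1 k (fun x => w₀ (Y t x)) fun x => hw _) (Xf_norm M hα hq k h2 z)
            (norm_nonneg _) hC1.le
      _ = _ := by ring
  refine (Finset.sum_le_sum h3).trans ?_
  rw [← Finset.mul_sum]
  have h4 : ∑ k ∈ s, (q / 2) ^ k ≤ (1 - q / 2)⁻¹ := by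
    rw [← tsum_geometric_of_lt_one hr0 hr1]
    exact (summable_geometric_of_lt_one hr0 hr1).sum_le_tsum s fun k _ => by positivity
  have h5 : C1 * (α * 2 ^ M * C2) * ∑ k ∈ s, (q / 2) ^ k
      ≤ C1 * (α * 2 ^ M * C2) * (1 - q / 2)⁻¹ := mul_le_mul_of_nonneg_left h4 (by positivity)
  linarith

/-- the parallel flow with profile `w` -/
noncomputable def par (w : ℝ × ℝ → ℝ) (x : V) : V := ![0, 0, w (pr x)]

/-- planar vectors in space -/
noncomputable def emb (v : ℝ × ℝ) : V := ![v.1, v.2, 0]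

lemma blk_F0 (M n : ℕ) (x : V) : blk M n F0 x = ![0, 0, cp M n phi (pr x)] := by
  unfold blk
  ext i
  have h := cp_clm M n F0 (ContinuousLinearMap.proj (R := ℝ) (φ := fun _ : Fin 3 => ℝ) i) (pr x)
  simp only [ContinuousLinearMap.proj_apply] at h
  rw [h]
  fin_cases i
  · simp [F0, cp]
  · simp [F0, cp]
  · simp [F0]

lemma blk_G0 (M n : ℕ) (x : V) : blk M n G0 x = emb (cp M n V0 (pr x)) := by
  unfold blk emb
  ext i
  have h := cp_clm M n G0 (ContinuousLinearMap.proj (R := ℝ) (φ := fun _ : Fin 3 => ℝ) i) (pr x)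
  simp only [ContinuousLinearMap.proj_apply] at h
  rw [h]
  fin_cases i
  · have h1 := cp_clm M n V0 (ContinuousLinearMap.fst ℝ ℝ ℝ) (pr x)
    simp only [ContinuousLinearMap.coe_fst'] at h1
    simp [G0, h1]
  · have h1 := cp_clm M n V0 (ContinuousLinearMap.snd ℝ ℝ ℝ) (pr x)
    simp only [ContinuousLinearMap.coe_snd'] at h1
    simp [G0, h1]
  · simp [G0, cp]

lemma pow_lt_aux {M n₀ : ℕ} (h : 8 * M + 2 < 2 ^ n₀) (n : ℕ) (hn : n₀ ≤ n) :
    ((8 * M + 2 : ℝ)) / 2 ^ n < 1 := by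
  rw [div_lt_one (by positivity)]
  have h1 : ((8 * M + 2 : ℕ) : ℝ) < ((2 ^ n₀ : ℕ) : ℝ) := by exact_mod_cast h
  push_cast at h1
  have h2 : (2:ℝ) ^ n₀ ≤ 2 ^ n := pow_le_pow_right₀ (by norm_num) hn
  linarith

lemma two_lt_aux {M n₀ : ℕ} (h : 8 * M + 2 < 2 ^ n₀) (n : ℕ) (hn : n₀ ≤ n) :
    (2 : ℝ) / 2 ^ n < 1 := by
  refine lt_of_le_of_lt ?_ (pow_lt_aux h n hn)
  gcongr
  have : (0:ℝ) ≤ M := M.cast_nonneg
  linarith

lemma ip_F {M n₀ : ℕ} (h : 8 * M + 2 < 2 ^ n₀) {n : ℕ} (hn : n₀ ≤ n) {w : ℝ × ℝ → ℝ}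
    (hw : Continuous w) : ip (par w) (blk M n F0) = 2 * Real.pi * ∫ z, w z * cp M n phi z := by
  unfold ip
  have h1 : ∀ x : V, ∑ i, par w x i * blk M n F0 x i
      = (fun z => w z * cp M n phi z) (pr x) := by
    intro x
    rw [blk_F0, Fin.sum_univ_three]
    simp [par]
  simp only [h1]
  refine integral_pr _ (hw.mul (cp_smooth M n phi_smooth).continuous) fun z hz => ?_
  have h2 : cp M n phi z ≠ 0 := right_ne_zero_of_mul hz
  have h3 := cp_small phi_supp2 h2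
  exact ⟨h3.1.trans_lt (pow_lt_aux h n hn), h3.2.trans_lt (two_lt_aux h n hn)⟩

lemma ip_G (M n : ℕ) (w : ℝ × ℝ → ℝ) : ip (par w) (blk M n G0) = 0 := by
  unfold ip
  have h1 : ∀ x : V, ∑ i, par w x i * blk M n G0 x i = 0 := by
    intro x
    rw [blk_G0, Fin.sum_univ_three]
    simp [par, emb]
  simp only [h1, integral_zero]

/-- the operator of the cascade -/
noncomputable def TT (M n₀ : ℕ) (α q : ℝ) : (V → V) → V → V :=
  opr (fun n => α / (2 * Real.pi) * (2 * q) ^ (n₀ + n)) (fun n => blk M (n₀ + n) F0)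
    (fun n => blk M (n₀ + n) G0)

lemma emb_smul (a : ℝ) (v : ℝ × ℝ) : emb (a • v) = a • emb v := by
  unfold emb
  ext i; fin_cases i <;> simp

lemma emb_zero : emb 0 = 0 := by
  unfold emb
  ext i; fin_cases i <;> simp

lemma emb_sum {ι : Type*} (s : Finset ι) (f : ι → ℝ × ℝ) : emb (∑ k ∈ s, f k) = ∑ k ∈ s, emb (f k) := by
  classical
  induction s using Finset.induction_on with
  | empty => simp [emb_zero]
  | insert a s ha ih =>
    rw [Finset.sum_insert ha, Finset.sum_insert ha, ← ih]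
    unfold emb
    ext i; fin_cases i <;> simp

/-- the operator on a parallel flow which vanishes near the origin -/
lemma TT_par {M n₀ : ℕ} (h : 8 * M + 2 < 2 ^ n₀) (α q : ℝ) {w : ℝ × ℝ → ℝ} (hw : Continuous w)
    {N : ℕ} (hN : ∀ z, ‖z‖ ≤ (8 * M + 2) / 2 ^ N → w z = 0) (x : V) :
    TT M n₀ α q (par w) x
      = emb (∑ k ∈ Finset.Icc n₀ N, (∫ z, ph M k z * w z) • Xf M α q k (pr x)) := by
  unfold TT opr
  have h1 : ∀ n, (α / (2 * Real.pi) * (2 * q) ^ (n₀ + n)) •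
      (ip (par w) (blk M (n₀ + n) F0) • blk M (n₀ + n) G0 x
        + ip (par w) (blk M (n₀ + n) G0) • blk M (n₀ + n) F0 x)
      = emb ((∫ z, ph M (n₀ + n) z * w z) • Xf M α q (n₀ + n) (pr x)) := by
    intro n
    rw [ip_G, zero_smul, add_zero, ip_F h (Nat.le_add_right _ _) hw, blk_G0, smul_smul, ← emb_smul]
    congr 1
    unfold Xf
    rw [smul_smul]
    congr 1
    have e : ∫ z, ph M (n₀ + n) z * w z = 4 ^ (n₀ + n) * ∫ z, w z * cp M (n₀ + n) phi z := by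
      rw [← integral_const_mul]
      congr 1
      funext z
      unfold ph; ring
    rw [e]
    have hpi := Real.pi_pos
    have e4 : (4:ℝ) ^ (n₀ + n) * (1 / 2) ^ (n₀ + n) = 2 ^ (n₀ + n) := by
      rw [← mul_pow]; norm_num
    rw [mul_pow]
    calc α / (2 * Real.pi) * (2 ^ (n₀ + n) * q ^ (n₀ + n)) *
          (2 * Real.pi * ∫ z, w z * cp M (n₀ + n) phi z)
        = α * q ^ (n₀ + n) * (2 ^ (n₀ + n)) * ∫ z, w z * cp M (n₀ + n) phi z := by
          field_simp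
      _ = _ := by rw [← e4]; ring
  simp only [h1]
  have h2 : ∀ k, N < k → ∫ z, ph M k z * w z = 0 := by
    intro k hk
    have : ∀ z, ph M k z * w z = 0 := by
      intro z
      by_cases hz : ph M k z = 0
      · rw [hz, zero_mul]
      · have h3 := ph_small hz
        have h4 : (2:ℝ) ^ N ≤ 2 ^ k := pow_le_pow_right₀ (by norm_num) hk.le
        have hM : (0:ℝ) ≤ M := M.cast_nonneg
        have h5 : ((8 * M + 2 : ℝ)) / 2 ^ k ≤ (8 * M + 2) / 2 ^ N := by gcongr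
        have h6 : (2 : ℝ) / 2 ^ k ≤ (8 * M + 2) / 2 ^ N := by
          gcongr
          linarith
        rw [hN z, mul_zero]
        rw [Prod.norm_def]
        exact max_le (h3.1.trans h5) (h3.2.trans h6)
    simp only [this, integral_zero]
  rw [tsum_eq_sum (s := Finset.range (N + 1 - n₀))]
  · rw [emb_sum]
    rw [← Finset.Ico_add_one_right_eq_Icc, Finset.sum_Ico_eq_sum_range]
  · intro n hn
    rw [Finset.mem_range] at hn
    rw [h2 (n₀ + n) (by omega), zero_smul, emb_zero]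

end Pool.Agent.Zk27.MB
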