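import Pool.Agent.Zk27.MB.Par

/-! The truncated flows give solutions as long as they vanish near the origin -/

open MeasureTheory Set
open scoped ContDiff

namespace Pool.Agent.Zk27.MB

open Pool.Agent.H708R2.EulerSign
open Pool.Agent.R739.ET (wr wr_add wr_eq)

/-- the data of the construction -/
structure Dat (M n₀ : ℕ) (w₀ : ℝ × ℝ → ℝ) (r₀ : ℝ) : Prop where
  hn : 8 * M + 2 < 2 ^ n₀
  smooth : ContDiff ℝ ∞ w₀
  nonneg : ∀ z, 0 ≤ w₀ z
  le_one : ∀ z, w₀ z ≤ 1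
  pos : 0 < r₀
  supp : ∀ z, w₀ z ≠ 0 → r₀ ≤ z.1 ∧ z.1 < 1 ∧ |z.2| < 1

variable {M n₀ : ℕ} {w₀ : ℝ × ℝ → ℝ} {r₀ α q : ℝ} {N : ℕ} {Z Y : ℝ → ℝ × ℝ → ℝ × ℝ}

/-- the `N`-th truncated flow -/
def Fl (M n₀ : ℕ) (α q : ℝ) (w₀ : ℝ × ℝ → ℝ) (N : ℕ) (Z Y : ℝ → ℝ × ℝ → ℝ × ℝ) : Prop :=
  IsFlow (Finset.Icc n₀ N) (Xf M α q) (ph M) w₀ Z Y

/-- the solution vanishes near the origin up to the time `t` -/
def Good (M : ℕ) (w₀ : ℝ × ℝ → ℝ) (N : ℕ) (Y : ℝ → ℝ × ℝ → ℝ × ℝ) (t : ℝ) : Prop :=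
  ∀ s ∈ Icc 0 t, ∀ z : ℝ × ℝ, ‖z‖ ≤ (8 * M + 2) / 2 ^ N → w₀ (Y s z) = 0

lemma Dat.abs_le (hD : Dat M n₀ w₀ r₀) (z : ℝ × ℝ) : |w₀ z| ≤ 1 :=
  _root_.abs_le.2 ⟨by linarith [hD.nonneg z], hD.le_one z⟩

lemma Dat.supp' (hD : Dat M n₀ w₀ r₀) {z : ℝ × ℝ} (h : w₀ z ≠ 0) : |z.1| < 1 ∧ |z.2| < 1 := by
  obtain ⟨h1, h2, h3⟩ := hD.supp z h
  exact ⟨abs_lt.2 ⟨by linarith [hD.pos], h2⟩, h3⟩

lemma Fl.supp (hD : Dat M n₀ w₀ r₀) (hF : Fl M n₀ α q w₀ N Z Y) (t : ℝ) {z : ℝ × ℝ}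
    (h : w₀ (Y t z) ≠ 0) : |z.1| < 1 ∧ |z.2| < 1 := by
  by_contra hcon
  have h1 : ∀ k ∈ Finset.Icc n₀ N, Xf M α q k z = 0 := by
    intro k hk
    by_contra h2
    have h3 := Xf_small h2
    have hk' := (Finset.mem_Icc.1 hk).1
    exact hcon ⟨h3.1.trans_lt (pow_lt_aux hD.hn k hk'), h3.2.trans_lt (two_lt_aux hD.hn k hk')⟩
  rw [hF.fix h1] at h
  exact hcon (hD.supp' h)

/-- the profile at time `t` -/
noncomputable def wt (w₀ : ℝ × ℝ → ℝ) (Y : ℝ → ℝ × ℝ → ℝ × ℝ) (t : ℝ) (z : ℝ × ℝ) : ℝ := w₀ (Y t z)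

/-- the velocity field on the torus -/
noncomputable def sol (w₀ : ℝ × ℝ → ℝ) (Y : ℝ → ℝ × ℝ → ℝ × ℝ) (t : ℝ) (x : V) : V :=
  par (wt w₀ Y t) x

/-- the pressure -/
noncomputable def prs (w₀ : ℝ × ℝ → ℝ) (Y : ℝ → ℝ × ℝ → ℝ × ℝ) (t : ℝ) (x : V) : ℝ :=
  (wt w₀ Y t (pr x)) ^ 2 / 2

lemma wt_smooth (hD : Dat M n₀ w₀ r₀) (hF : Fl M n₀ α q w₀ N Z Y) :
    ContDiff ℝ ∞ (fun p : ℝ × (ℝ × ℝ) => wt w₀ Y p.1 p.2) := hD.smooth.comp hF.smoothY

lemma wt_smooth' (hD : Dat M n₀ w₀ r₀) (hF : Fl M n₀ α q w₀ N Z Y) (t : ℝ) :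
    ContDiff ℝ ∞ (wt w₀ Y t) := hD.smooth.comp (hF.smoothYt t)

lemma wt_supp (hD : Dat M n₀ w₀ r₀) (hF : Fl M n₀ α q w₀ N Z Y) (t : ℝ) (z : ℝ × ℝ)
    (h : wt w₀ Y t z ≠ 0) : |z.1| < 1 ∧ |z.2| < 1 := hF.supp hD t h

/-- the profile on the torus is smooth in space and time -/
lemma wt_pr_smooth (hD : Dat M n₀ w₀ r₀) (hF : Fl M n₀ α q w₀ N Z Y) :
    ContDiff ℝ ∞ (fun p : ℝ × V => wt w₀ Y p.1 (pr p.2)) := by
  have := comp_pr_contDiff univ (fun t z => wt w₀ Y t z)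
    (wt_smooth hD hF).contDiffOn (fun t _ z h => wt_supp hD hF t z h)
  rw [univ_prod_univ, contDiffOn_univ] at this
  exact this

lemma sol_smooth (hD : Dat M n₀ w₀ r₀) (hF : Fl M n₀ α q w₀ N Z Y) :
    ContDiff ℝ ∞ (fun p : ℝ × V => sol w₀ Y p.1 p.2) := by
  unfold sol par
  rw [contDiff_pi]
  intro i
  fin_cases i
  · exact contDiff_const
  · exact contDiff_const
  · exact wt_pr_smooth hD hF

lemma prs_smooth (hD : Dat M n₀ w₀ r₀) (hF : Fl M n₀ α q w₀ N Z Y) :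
    ContDiff ℝ ∞ (fun p : ℝ × V => prs w₀ Y p.1 p.2) := by
  unfold prs
  exact ((wt_pr_smooth hD hF).pow 2).div_const 2

lemma pr_periodic : Periodic3 pr := by
  intro i x
  unfold pr
  fin_cases i
  · have : (x + Pi.single (0 : Fin 3) (2 * Real.pi) : V) 0 = x 0 + 2 * Real.pi := by simp
    simp only [Fin.zero_eta, this, wr_add]
    simp
  · have : (x + Pi.single (1 : Fin 3) (2 * Real.pi) : V) 1 = x 1 + 2 * Real.pi := by simp
    simp only [Fin.mk_one, this, wr_add]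
    simp
  · simp

lemma par_periodic (w : ℝ × ℝ → ℝ) : Periodic3 (par w) := by
  intro i x
  unfold par
  rw [pr_periodic i x]

/-- derivative of a parallel flow -/
lemma par_fderiv {w : ℝ × ℝ → ℝ} (hw : ContDiff ℝ 1 w) (hs : ∀ z, w z ≠ 0 → |z.1| < 1 ∧ |z.2| < 1)
    (x v : V) : fderiv ℝ (par w) x v = ![0, 0, fderiv ℝ w (pr x) (v 0, v 1)] := by
  have h0 : ContDiff ℝ 1 (fun x => w (pr x)) := by
    have := comp_pr_contDiff univ (fun _ z => w z) (m := 1)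
      (hw.comp contDiff_snd).contDiffOn (fun t _ z h => hs z h)
    rw [univ_prod_univ, contDiffOn_univ] at this
    exact this.comp ((contDiff_const (c := (0:ℝ))).prodMk contDiff_id)
  have h1 : DifferentiableAt ℝ (par w) x := by
    unfold par
    rw [differentiableAt_pi]
    intro i
    fin_cases i
    · exact differentiableAt_const _
    · exact differentiableAt_const _
    · exact h0.differentiable one_ne_zero x
  ext i
  have e : fderiv ℝ (par w) x v i = fderiv ℝ (fun x => par w x i) x v := by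
    rw [fderiv_apply h1]
    rfl
  rw [e]
  fin_cases i
  · have : (fun x => par w x 0) = fun _ => 0 := rfl
    simp [this]
  · have : (fun x => par w x 1) = fun _ => 0 := rfl
    simp [this]
  · have : (fun x => par w x 2) = fun x => w (pr x) := rfl
    simp only [Fin.reduceFinMk, this]
    rw [fderiv_comp_pr w hw hs]
    rfl

lemma Good.mono {t t' : ℝ} (h : Good M w₀ N Y t) (ht : t' ≤ t) : Good M w₀ N Y t' :=
  fun s hs z hz => h s ⟨hs.1, hs.2.trans ht⟩ z hz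

/-- the truncated flow solves the full equation as long as it vanishes near the origin -/
lemma isModSol (hD : Dat M n₀ w₀ r₀) (hF : Fl M n₀ α q w₀ N Z Y) {a : ℝ} (hG : Good M w₀ N Y a) :
    IsModSol (TT M n₀ α q) (Ico 0 a) (sol w₀ Y) (prs w₀ Y) where
  contDiffOn_u := ((sol_smooth hD hF).of_le (by simp)).contDiffOn
  contDiffOn_q := ((prs_smooth hD hF).of_le (by simp)).contDiffOn
  periodic_u := fun t _ => par_periodic _
  periodic_q := fun t _ i x => by unfold prs; rw [pr_periodic i x]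
  div_free := by
    intro t _ x
    unfold divergence grad Matrix.trace
    rw [Fin.sum_univ_three]
    have h1 : ∀ v, fderiv ℝ (sol w₀ Y t) x v = ![0, 0, fderiv ℝ (wt w₀ Y t) (pr x) (v 0, v 1)] :=
      par_fderiv ((wt_smooth' hD hF t).of_le (by simp)) (wt_supp hD hF t) x
    simp only [Matrix.diag_apply, Matrix.of_apply, h1]
    simp
    have : ((0:ℝ), (0:ℝ)) = 0 := rfl
    rw [this, map_zero]
  momentum := by
    intro t ht x i
    have h1 : ∀ v, fderiv ℝ (sol w₀ Y t) x v = ![0, 0, fderiv ℝ (wt w₀ Y t) (pr x) (v 0, v 1)] :=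
      par_fderiv ((wt_smooth' hD hF t).of_le (by simp)) (wt_supp hD hF t) x
    have hT : TT M n₀ α q (sol w₀ Y t) x = emb (vel (Finset.Icc n₀ N) (Xf M α q) (ph M) w₀ Y t (pr x)) :=
      TT_par hD.hn α q (wt_smooth' hD hF t).continuous (hG t (Ico_subset_Icc_self ht)) x
    have hq : ∀ v, fderiv ℝ (prs w₀ Y t) x v
        = wt w₀ Y t (pr x) * fderiv ℝ (wt w₀ Y t) (pr x) (v 0, v 1) := by
      intro v
      have h2 := fderiv_comp_pr (fun z => (wt w₀ Y t z) ^ 2 / 2)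
        ((((wt_smooth' hD hF t).of_le (by simp)).pow 2).div_const 2)
        (fun z hz => wt_supp hD hF t z fun h => hz (by simp [h])) x v
      have h3 : prs w₀ Y t = fun x => (fun z => (wt w₀ Y t z) ^ 2 / 2) (pr x) := rfl
      rw [h3, h2]
      have h4 : HasFDerivAt (wt w₀ Y t) (fderiv ℝ (wt w₀ Y t) (pr x)) (pr x) :=
        ((wt_smooth' hD hF t).differentiable (by simp) _).hasFDerivAt
      have h5 : HasFDerivAt (fun z => (wt w₀ Y t z) ^ 2 / 2)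
          ((wt w₀ Y t (pr x)) • fderiv ℝ (wt w₀ Y t) (pr x)) (pr x) := by
        have h6 := (h4.mul h4).mul_const (1 / 2 : ℝ)
        refine (h6.congr_fderiv ?_).congr_of_eventuallyEq ?_
        · ext <;> simp <;> ring
        · exact Filter.Eventually.of_forall fun z => by simp; ring
      rw [h5.fderiv]
      rfl
    have hu : UniqueDiffWithinAt ℝ (Ico 0 a) t :=
      uniqueDiffOn_Ico 0 a t ht
    rw [hT, hq]
    simp only [h1]
    rw [Fin.sum_univ_three]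
    set L := fderiv ℝ (wt w₀ Y t) (pr x) with hL
    have hz : L (0, 0) = 0 := by
      have : ((0:ℝ), (0:ℝ)) = 0 := rfl
      rw [this, map_zero]
    have hs2 : sol w₀ Y t x 2 = wt w₀ Y t (pr x) := rfl
    have hs1 : sol w₀ Y t x 1 = 0 := rfl
    have hs0 : sol w₀ Y t x 0 = 0 := rfl
    have he2 : ∀ v, emb v 2 = 0 := fun v => rfl
    have he1 : ∀ v, emb v 1 = v.2 := fun v => rfl
    have he0 : ∀ v, emb v 0 = v.1 := fun v => rfl
    fin_cases i
    · have e : (fun s => sol w₀ Y s x 0) = fun _ => 0 := rfl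
      simp only [Fin.zero_eta, e]
      simp [hs2, hs1, hs0, he2, hz]
    · have e : (fun s => sol w₀ Y s x 1) = fun _ => 0 := rfl
      simp only [Fin.mk_one, e]
      simp [hs2, hs1, hs0, he2, hz]
    · have e : (fun s => sol w₀ Y s x 2) = fun s => w₀ (Y s (pr x)) := rfl
      simp only [Fin.reduceFinMk, e]
      rw [(hF.transport hD.smooth t (pr x)).hasDerivWithinAt.derivWithin hu]
      have e2 : fderiv ℝ (fun y => w₀ (Y t y)) (pr x) = L := rfl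
      rw [e2]
      set v := vel (Finset.Icc n₀ N) (Xf M α q) (ph M) w₀ Y t (pr x) with hv
      have e3 : L v = v.1 * L (1, 0) + v.2 * L (0, 1) := by
        have : v = v.1 • (1, 0) + v.2 • (0, 1) := by ext <;> simp
        conv_lhs => rw [this]
        rw [map_add, map_smul, map_smul, smul_eq_mul, smul_eq_mul]
      rw [e3]
      simp [hs2, hs1, hs0, he2, he1, he0, hz]

end Pool.Agent.Zk27.MB
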